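import Pool.Agent.Work.MP_22f354_an.Moment

/-!
Almost sure finiteness of the weighted sum of block moments.
-/

set_option autoImplicit false

namespace Pool.Agent.Work.MP_22f354_an

open Set Filter Topology MeasureTheory
open scoped NNReal ENNReal ComplexConjugate

section
variable {b : ℕ} {α : ℝ}

lemma continuous_mh (hb : 2 ≤ b) (hα : 0 < α) (n N : ℕ) :
    Continuous (fun p : LipS × ℝ => mh b α n N p.1 p.2) := by
  unfold mh
  apply continuous_of_dominated (bound := fun _ => (1 : ℝ))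
  · intro p
    apply Continuous.aestronglyMeasurable
    apply Complex.continuous_exp.comp
    apply Continuous.mul continuous_const
    apply Complex.continuous_ofReal.comp
    have h1 : Continuous (fun z : ℝ => (p.1, z)) := by fun_prop
    exact (continuous_hc hb hα n N).comp h1
  · intro p
    filter_upwards with z
    exact (norm_exp_I_mul _ _).le
  · have : IsFiniteMeasure ((volume : Measure ℝ).restrict (Ico 0 1)) := by
      constructor
      rw [Measure.restrict_apply_univ, Real.volume_Ico]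
      simp
    exact integrable_const _
  · filter_upwards with z
    apply Complex.continuous_exp.comp
    apply Continuous.mul
    · exact continuous_const.mul (Complex.continuous_ofReal.comp continuous_snd)
    · apply Complex.continuous_ofReal.comp
      have h1 : Continuous (fun p : LipS × ℝ => (p.1, z)) := by fun_prop
      exact (continuous_hc hb hα n N).comp h1

lemma norm_mh_le (n N : ℕ) (g : LipS) (ξ : ℝ) : ‖mh b α n N g ξ‖ ≤ 1 := by
  unfold mh
  have h := norm_setIntegral_le_of_norm_le_const (μ := (volume : Measure ℝ)) (s := Ico (0 : ℝ) 1)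
    (C := 1) (f := fun z => Complex.exp (Complex.I * ξ * hc b α n N g z))
    (by rw [Real.volume_Ico]; simp) (fun z _ => (norm_exp_I_mul _ _).le)
  simpa using h

/-- frequency blocks -/
def blk (b : ℕ) (α : ℝ) (G j : ℕ) : Set ℝ := {ξ | RR b α G ^ j ≤ |ξ| ∧ |ξ| ≤ RR b α G ^ (j + 1)}

lemma measurableSet_blk (G j : ℕ) : MeasurableSet (blk b α G j) := by
  unfold blk
  apply MeasurableSet.inter
  · exact measurableSet_le measurable_const measurable_norm
  · exact measurableSet_le measurable_norm measurable_const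

lemma RR_pos (hb : 2 ≤ b) (G : ℕ) : 0 < RR b α G := by
  unfold RR
  have := lam_pos (α := α) hb
  positivity

lemma volume_blk_le (G j : ℕ) :
    volume (blk b α G j) ≤ ENNReal.ofReal (2 * RR b α G ^ (j + 1)) := by
  have hsub : blk b α G j ⊆ Metric.closedBall 0 (RR b α G ^ (j + 1)) := by
    intro ξ hξ
    rw [Metric.mem_closedBall, dist_zero_right, Real.norm_eq_abs]
    exact hξ.2
  exact (measure_mono hsub).trans (by rw [Real.volume_closedBall])

/-- block moments -/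
noncomputable def Am (b : ℕ) (α : ℝ) (G M n N j : ℕ) (g : LipS) : ℝ≥0∞ :=
  ∫⁻ ξ in blk b α G j, ‖mh b α n N g ξ‖ₑ ^ (2 * M)

lemma measurable_Am (hb : 2 ≤ b) (hα : 0 < α) (G M n N j : ℕ) :
    Measurable (Am b α G M n N j) := by
  unfold Am
  apply Measurable.lintegral_prod_right' (f := fun p : LipS × ℝ => ‖mh b α n N p.1 p.2‖ₑ ^ (2 * M))
  exact ((continuous_mh hb hα n N).measurable.enorm).pow_const _

/-- the bound for the moments -/
noncomputable def mbd (b M G c0 K : ℕ) (C : ℝ) (n j : ℕ) : ℝ :=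
  ((2 * M * ((n + (G * j + c0) + 1) * (3 * (j + 1)))) ^ (2 * M * G) : ℕ) *
        ((b : ℝ) ^ (M * G * j))⁻¹ + C * (4 / (b : ℝ) ^ j) ^ K

/-- bound for the expectation of a block moment -/
theorem lintegral_Am_le (hb : 2 ≤ b) (hα : 0 < α) {M c0 : ℕ}
    (hc0 : 2 * M * (lam b α ^ (c0 + 1) * (1 - lam b α)⁻¹) ≤ 1 / 4)
    {K : ℕ} {C : ℝ} (hC : ∀ s : ℝ, ‖ch0 s‖ * |s| ^ K ≤ C)
    {j n N G : ℕ} (hj : 1 ≤ j) (g : LipS) :
    ∫⁻ a, Am b α G M n N j (g + gA b a) ∂(PP (ℕ × ℕ)) ≤
      ENNReal.ofReal (2 * RR b α G ^ (j + 1)) * ENNReal.ofReal (mbd b M G c0 K C n j) := by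
  unfold Am
  have hcont : Continuous (fun p : (ℕ × ℕ → ℝ) × ℝ => mh b α n N (g + gA b p.1) p.2) := by
    have h1 : Continuous (fun p : (ℕ × ℕ → ℝ) × ℝ => (g + gA b p.1, p.2)) := by
      apply Continuous.prodMk _ continuous_snd
      exact continuous_const.add ((continuous_gA hb).comp continuous_fst)
    exact (continuous_mh hb hα n N).comp h1
  rw [lintegral_lintegral_swap]
  · calc ∫⁻ ξ in blk b α G j, ∫⁻ a, ‖mh b α n N (g + gA b a) ξ‖ₑ ^ (2 * M) ∂(PP (ℕ × ℕ))
        ≤ ∫⁻ _ξ in blk b α G j, ENNReal.ofReal (mbd b M G c0 K C n j) := by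
          apply setLIntegral_mono measurable_const
          intro ξ hξ
          have hm := moment_le hb hα hc0 hC (n := n) (N := N) (G := G) hj g hξ.1
          have hcont2 : Continuous (fun a : ℕ × ℕ → ℝ => mh b α n N (g + gA b a) ξ) :=
            hcont.comp (by fun_prop : Continuous (fun a : ℕ × ℕ → ℝ => (a, ξ)))
          have hint : Integrable (fun a => ‖mh b α n N (g + gA b a) ξ‖ ^ (2 * M))
              (PP (ℕ × ℕ)) := by
            apply Integrable.of_bound ((hcont2.norm.pow _).aestronglyMeasurable) 1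
            filter_upwards with a
            simp only [Pi.pow_apply, norm_pow, norm_norm]
            exact pow_le_one₀ (norm_nonneg _) (norm_mh_le n N _ ξ)
          have h3 : ∫⁻ a, ‖mh b α n N (g + gA b a) ξ‖ₑ ^ (2 * M) ∂(PP (ℕ × ℕ)) =
              ENNReal.ofReal (∫ a, ‖mh b α n N (g + gA b a) ξ‖ ^ (2 * M) ∂(PP (ℕ × ℕ))) := by
            rw [ofReal_integral_eq_lintegral_ofReal hint
              (Eventually.of_forall fun a => by positivity)]
            apply lintegral_congr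
            intro a
            rw [ENNReal.ofReal_pow (norm_nonneg _), ofReal_norm]
          rw [h3]
          exact ENNReal.ofReal_le_ofReal hm
      _ ≤ _ := by
          rw [setLIntegral_const, mul_comm]
          gcongr
          exact volume_blk_le G j
  · exact ((hcont.measurable.enorm).pow_const _).aemeasurable

/-- weights -/
noncomputable def th (b : ℕ) (α : ℝ) (M G D : ℕ) : ℝ := (b : ℝ) ^ (M * G) / (RR b α G * (b : ℝ) ^ (D + 1))

/-- the weighted sum of all block moments of shallow contexts -/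
noncomputable def Sm (b : ℕ) (α : ℝ) (M G D : ℕ) (g : LipS) : ℝ≥0∞ :=
  ∑' j : ℕ, ∑ n ∈ Finset.range (D * (j + 1) + 1), ∑ N ∈ Finset.range (b ^ n),
    ENNReal.ofReal (th b α M G D ^ (j + 1)) * Am b α G M n N (j + 1) g

lemma th_pos (hb : 2 ≤ b) (M G D : ℕ) : 0 < th b α M G D := by
  unfold th
  have := RR_pos (α := α) hb G
  positivity

lemma mbd_le (hb : 2 ≤ b) {M G D c0 : ℕ} {C : ℝ} (hC : 0 ≤ C) {n J : ℕ} (hJ : 1 ≤ J)
    (hn : n ≤ D * J) :
    mbd b M G c0 (M * G) C n J ≤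
      (((12 * M * (D + G + c0 + 1)) ^ (2 * M * G) : ℕ) + C * 4 ^ (M * G)) *
        (J : ℝ) ^ (4 * M * G) * ((b : ℝ) ^ (M * G * J))⁻¹ := by
  unfold mbd
  have hb0 : (0 : ℝ) < b := by positivity
  have hJ1 : (1 : ℝ) ≤ J := by exact_mod_cast hJ
  have h1 : (2 * M * ((n + (G * J + c0) + 1) * (3 * (J + 1)))) ^ (2 * M * G) ≤
      (12 * M * (D + G + c0 + 1)) ^ (2 * M * G) * J ^ (4 * M * G) := by
    have e1 : J ^ (4 * M * G) = (J ^ 2) ^ (2 * M * G) := by
      rw [← pow_mul]; congr 1; ring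
    rw [e1, ← mul_pow]
    apply Nat.pow_le_pow_left
    have h2 : n + (G * J + c0) + 1 ≤ (D + G + c0 + 1) * J := by
      have h3 : c0 ≤ c0 * J := Nat.le_mul_of_pos_right _ (by omega)
      calc n + (G * J + c0) + 1 ≤ D * J + (G * J + c0 * J) + J := by omega
        _ = (D + G + c0 + 1) * J := by ring
    have h4 : 3 * (J + 1) ≤ 6 * J := by omega
    calc 2 * M * ((n + (G * J + c0) + 1) * (3 * (J + 1)))
        ≤ 2 * M * (((D + G + c0 + 1) * J) * (6 * J)) := by gcongr
      _ = 12 * M * (D + G + c0 + 1) * J ^ 2 := by ring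
  have h5 : (((2 * M * ((n + (G * J + c0) + 1) * (3 * (J + 1)))) ^ (2 * M * G) : ℕ) : ℝ) ≤
      ((12 * M * (D + G + c0 + 1)) ^ (2 * M * G) : ℕ) * (J : ℝ) ^ (4 * M * G) := by
    exact_mod_cast h1
  have h6 : C * (4 / (b : ℝ) ^ J) ^ (M * G) ≤
      C * 4 ^ (M * G) * (J : ℝ) ^ (4 * M * G) * ((b : ℝ) ^ (M * G * J))⁻¹ := by
    rw [div_pow, ← pow_mul, div_eq_mul_inv, ← mul_assoc]
    have e2 : J * (M * G) = M * G * J := by ring
    rw [e2]
    apply mul_le_mul_of_nonneg_right _ (by positivity)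
    have : (1 : ℝ) ≤ (J : ℝ) ^ (4 * M * G) := one_le_pow₀ hJ1
    have h7 : 0 ≤ C * 4 ^ (M * G) := by positivity
    nlinarith
  calc _ ≤ ((12 * M * (D + G + c0 + 1)) ^ (2 * M * G) : ℕ) * (J : ℝ) ^ (4 * M * G) *
        ((b : ℝ) ^ (M * G * J))⁻¹ +
      C * 4 ^ (M * G) * (J : ℝ) ^ (4 * M * G) * ((b : ℝ) ^ (M * G * J))⁻¹ := by
        gcongr
    _ = _ := by ring

lemma tsum_ofReal_lt_top (hb : 2 ≤ b) {A : ℝ} (hA : 0 ≤ A) (d : ℕ) :
    ∑' j : ℕ, ENNReal.ofReal (A * (((j + 1 : ℕ) : ℝ) ^ d * ((b : ℝ)⁻¹) ^ (j + 1))) < ∞ := by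
  have hb0 : (0 : ℝ) < b := by positivity
  have hbr : (2 : ℝ) ≤ b := by exact_mod_cast hb
  rw [← ENNReal.ofReal_tsum_of_nonneg]
  · exact ENNReal.ofReal_lt_top
  · intro j
    positivity
  · apply Summable.mul_left
    have h4 : ‖((b : ℝ)⁻¹)‖ < 1 := by
      rw [norm_inv, Real.norm_eq_abs, abs_of_pos hb0]
      exact inv_lt_one_of_one_lt₀ (by linarith)
    have h5 := summable_pow_mul_geometric_of_norm_lt_one d h4
    exact (summable_nat_add_iff (f := fun n : ℕ => (n : ℝ) ^ d * ((b : ℝ)⁻¹) ^ n) 1).mpr h5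

/-- one level of the sum -/
lemma level_le (hb : 2 ≤ b) (hα : 0 < α) {M G D c0 : ℕ}
    (hc0 : 2 * M * (lam b α ^ (c0 + 1) * (1 - lam b α)⁻¹) ≤ 1 / 4)
    {C : ℝ} (hCpos : 0 < C) (hC : ∀ s : ℝ, ‖ch0 s‖ * |s| ^ (M * G) ≤ C) (g : LipS)
    {J : ℕ} (hJ1 : 1 ≤ J) {C2 : ℝ}
    (hC2 : C2 = (((12 * M * (D + G + c0 + 1)) ^ (2 * M * G) : ℕ) + C * 4 ^ (M * G))) :
    ∫⁻ a, ∑ n ∈ Finset.range (D * J + 1), ∑ N ∈ Finset.range (b ^ n),
        ENNReal.ofReal (th b α M G D ^ J) * Am b α G M n N J (g + gA b a)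
          ∂(PP (ℕ × ℕ)) ≤
        ENNReal.ofReal (2 * (D + 1) * C2 * RR b α G *
          ((J : ℝ) ^ (4 * M * G + 1) * ((b : ℝ)⁻¹) ^ J)) := by
  have hb0 : (0 : ℝ) < b := by positivity
  have hbr : (2 : ℝ) ≤ b := by exact_mod_cast hb
  have hR := RR_pos (α := α) hb G
  have hθ := th_pos (α := α) hb M G D
  have hC20 : 0 ≤ C2 := by rw [hC2]; positivity
  have hJr : (1 : ℝ) ≤ J := by exact_mod_cast hJ1
  have hmA : ∀ n N j, Measurable (fun a : ℕ × ℕ → ℝ => Am b α G M n N j (g + gA b a)) := by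
    intro n N j
    have h1 : Continuous (fun a : ℕ × ℕ → ℝ => g + gA b a) :=
      continuous_const.add (continuous_gA hb)
    exact (measurable_Am hb hα G M n N j).comp h1.measurable
  have hm1 : ∀ j n : ℕ, Measurable (fun a : ℕ × ℕ → ℝ => ∑ N ∈ Finset.range (b ^ n),
      ENNReal.ofReal (th b α M G D ^ j) * Am b α G M n N j (g + gA b a)) := by
    intro j n
    apply Finset.measurable_sum
    intro N _
    exact (hmA n N j).const_mul _
  rw [lintegral_finsetSum _ (fun n _ => hm1 J n)]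
  have hY0 : 0 ≤ C2 * (J : ℝ) ^ (4 * M * G) * ((b : ℝ) ^ (M * G * J))⁻¹ := by positivity
  have hY : ∀ n ≤ D * J, mbd b M G c0 (M * G) C n J ≤
      C2 * (J : ℝ) ^ (4 * M * G) * ((b : ℝ) ^ (M * G * J))⁻¹ := by
    intro n hn
    rw [hC2]
    exact mbd_le hb hCpos.le hJ1 hn
  obtain ⟨Y, hYdef⟩ : ∃ Y, Y = C2 * (J : ℝ) ^ (4 * M * G) * ((b : ℝ) ^ (M * G * J))⁻¹ := ⟨_, rfl⟩
  rw [← hYdef] at hY hY0
  have hb1 : ∀ n ∈ Finset.range (D * J + 1), ∫⁻ a, ∑ N ∈ Finset.range (b ^ n),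
      ENNReal.ofReal (th b α M G D ^ J) * Am b α G M n N J (g + gA b a) ∂(PP (ℕ × ℕ)) ≤
      ENNReal.ofReal ((b : ℝ) ^ (D * J) * (th b α M G D ^ J * (2 * RR b α G ^ (J + 1) * Y))) := by
    intro n hn
    rw [Finset.mem_range] at hn
    rw [lintegral_finsetSum _ (fun N _ => (hmA n N J).const_mul _)]
    calc ∑ N ∈ Finset.range (b ^ n), ∫⁻ a,
          ENNReal.ofReal (th b α M G D ^ J) * Am b α G M n N J (g + gA b a) ∂(PP (ℕ × ℕ))
        ≤ ∑ N ∈ Finset.range (b ^ n),
          ENNReal.ofReal (th b α M G D ^ J * (2 * RR b α G ^ (J + 1) * Y)) := by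
          refine Finset.sum_le_sum fun N _ => ?_
          rw [lintegral_const_mul _ (hmA n N J),
            ENNReal.ofReal_mul (p := th b α M G D ^ J) (by positivity)]
          refine mul_le_mul' le_rfl ?_
          refine (lintegral_Am_le hb hα hc0 hC hJ1 g).trans ?_
          rw [ENNReal.ofReal_mul (p := 2 * RR b α G ^ (J + 1)) (by positivity)]
          exact mul_le_mul' le_rfl (ENNReal.ofReal_le_ofReal (hY n (by omega)))
      _ = ENNReal.ofReal ((b : ℝ) ^ n * (th b α M G D ^ J * (2 * RR b α G ^ (J + 1) * Y))) := by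
          have e1 : ((b ^ n : ℕ) : ℝ≥0∞) = ENNReal.ofReal ((b : ℝ) ^ n) := by
            rw [ENNReal.ofReal_pow (by positivity), ENNReal.ofReal_natCast]
            push_cast
            rfl
          rw [Finset.sum_const, Finset.card_range, nsmul_eq_mul, e1,
            ← ENNReal.ofReal_mul (by positivity)]
      _ ≤ _ := by
          apply ENNReal.ofReal_le_ofReal
          apply mul_le_mul_of_nonneg_right _ (by positivity)
          exact pow_le_pow_right₀ (by linarith) (by omega)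
  refine (Finset.sum_le_sum hb1).trans ?_
  rw [Finset.sum_const, Finset.card_range, nsmul_eq_mul, ← ENNReal.ofReal_natCast,
    ← ENNReal.ofReal_mul (by positivity)]
  apply ENNReal.ofReal_le_ofReal
  have h3 : (((D * J + 1 : ℕ)) : ℝ) ≤ (D + 1) * J := by
    push_cast
    nlinarith
  calc (((D * J + 1 : ℕ)) : ℝ) *
        ((b : ℝ) ^ (D * J) * (th b α M G D ^ J * (2 * RR b α G ^ (J + 1) * Y)))
      ≤ ((D + 1) * J) *
        ((b : ℝ) ^ (D * J) * (th b α M G D ^ J * (2 * RR b α G ^ (J + 1) * Y))) :=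
        mul_le_mul_of_nonneg_right h3 (by positivity)
    _ = 2 * (D + 1) * C2 * RR b α G * ((J : ℝ) ^ (4 * M * G + 1) * ((b : ℝ)⁻¹) ^ J) := by
        rw [hYdef]
        unfold th
        rw [div_pow, mul_pow, pow_mul (b : ℝ) (M * G) J, pow_mul (b : ℝ) D J, pow_succ
          (RR b α G) J, pow_succ (J : ℝ) (4 * M * G), inv_pow, pow_succ (b : ℝ) D, mul_pow]
        field_simp

theorem ae_Sm_lt_top (hb : 2 ≤ b) (hα : 0 < α) {M G D c0 : ℕ}
    (hc0 : 2 * M * (lam b α ^ (c0 + 1) * (1 - lam b α)⁻¹) ≤ 1 / 4) (g : LipS) :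
    ∀ᵐ a ∂(PP (ℕ × ℕ)), Sm b α M G D (g + gA b a) < ∞ := by
  obtain ⟨C, hCpos, hC⟩ := ch0_decay (M * G)
  have hmA : ∀ n N j, Measurable (fun a : ℕ × ℕ → ℝ => Am b α G M n N j (g + gA b a)) := by
    intro n N j
    have h1 : Continuous (fun a : ℕ × ℕ → ℝ => g + gA b a) :=
      continuous_const.add (continuous_gA hb)
    exact (measurable_Am hb hα G M n N j).comp h1.measurable
  have hm2 : ∀ j : ℕ, Measurable (fun a : ℕ × ℕ → ℝ =>
      ∑ n ∈ Finset.range (D * (j + 1) + 1), ∑ N ∈ Finset.range (b ^ n),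
      ENNReal.ofReal (th b α M G D ^ (j + 1)) * Am b α G M n N (j + 1) (g + gA b a)) := by
    intro j
    apply Finset.measurable_sum
    intro n _
    apply Finset.measurable_sum
    intro N _
    exact (hmA n N (j + 1)).const_mul _
  obtain ⟨C2, hC2⟩ : ∃ C2 : ℝ, C2 =
    (((12 * M * (D + G + c0 + 1)) ^ (2 * M * G) : ℕ) + C * 4 ^ (M * G)) := ⟨_, rfl⟩
  have hC20 : 0 ≤ C2 := by rw [hC2]; positivity
  have hR := RR_pos (α := α) hb G
  have hA : 0 ≤ 2 * (D + 1) * C2 * RR b α G := by positivity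
  unfold Sm
  apply ae_lt_top
  · exact Measurable.tsum hm2
  · rw [lintegral_tsum (fun j => (hm2 j).aemeasurable)]
    refine ne_of_lt (lt_of_le_of_lt (ENNReal.tsum_le_tsum fun j => ?_)
      (tsum_ofReal_lt_top hb hA (4 * M * G + 1)))
    exact level_le hb hα hc0 hCpos hC g (by omega) hC2

end

end Pool.Agent.Work.MP_22f354_an
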