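import Pool.Agent.Work.MP_22f354_an.Rand

/-!
Lower bound for the coefficient of a suitable random variable, outside the bad set, and the
resulting bound for the expectation of the phase.
-/

set_option autoImplicit false

namespace Pool.Agent.Work.MP_22f354_an

open Set Filter Topology MeasureTheory
open scoped NNReal ENNReal

section
variable {b : ℕ} {α : ℝ}

lemma abs_FW_le_sup (hb : 2 ≤ b) (hα : 0 < α) (g : LipS) {A : ℝ} (hA : ∀ x, |g x| ≤ A) (t : ℝ) :
    |FW b α g t| ≤ (1 - lam b α)⁻¹ * A := by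
  rw [FW_eq hb, ← Real.norm_eq_abs]
  have h1 := tsum_of_norm_bounded (summable_lam hb hα A).hasSum (f := fun k : ℕ =>
    lam b α ^ k * g ((((b : ℝ) ^ k * t : ℝ)) : UnitAddCircle)) (by
      intro k
      rw [norm_mul, Real.norm_eq_abs, Real.norm_eq_abs, abs_of_pos (pow_pos (lam_pos hb) k)]
      gcongr
      · exact (pow_pos (lam_pos hb) k).le
      · exact hA _)
  rwa [tsum_mul_right, tsum_geometric_of_lt_one (lam_pos hb).le (lam_lt_one hb hα)] at h1

/-- nearest node -/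
lemma exists_node {B : ℕ} (hB : 0 < B) (x : ℝ) :
    ∃ i : ℕ, i < B ∧ ‖(x : UnitAddCircle) - (((i : ℝ) / (B : ℝ) : ℝ) : UnitAddCircle)‖ ≤
      1 / (2 * B) := by
  have hB0 : (0 : ℝ) < B := by exact_mod_cast hB
  have hBz : (0 : ℤ) < B := by exact_mod_cast hB
  set r : ℤ := round ((B : ℝ) * x) with hr
  have hmod0 : 0 ≤ r % (B : ℤ) := Int.emod_nonneg _ hBz.ne'
  refine ⟨(r % (B : ℤ)).toNat, ?_, ?_⟩
  · have := Int.emod_lt_of_pos r hBz
    omega
  · have hcast : (((r % (B : ℤ)).toNat : ℕ) : ℝ) = ((r % (B : ℤ) : ℤ) : ℝ) := by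
      have : (((r % (B : ℤ)).toNat : ℕ) : ℤ) = r % (B : ℤ) := Int.toNat_of_nonneg hmod0
      exact_mod_cast this
    rw [hcast]
    have h1 : (((((r % (B : ℤ) : ℤ) : ℝ)) / (B : ℝ) : ℝ) : UnitAddCircle) =
        (((r : ℝ) / (B : ℝ) : ℝ) : UnitAddCircle) := by
      have h2 : (r : ℝ) / B = ((r % (B : ℤ) : ℤ) : ℝ) / B + ((r / (B : ℤ) : ℤ) : ℝ) := by
        have h3 : (r : ℝ) = ((r % (B : ℤ) : ℤ) : ℝ) + (B : ℝ) * ((r / (B : ℤ) : ℤ) : ℝ) := by
          have := Int.emod_add_mul_ediv r (B : ℤ)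
          exact_mod_cast this.symm
        nth_rewrite 1 [h3]
        field_simp
      rw [h2, AddCircle.coe_add]
      have h4 : ((((r / (B : ℤ) : ℤ) : ℝ)) : UnitAddCircle) = 0 := by
        rw [AddCircle.coe_eq_zero_iff]
        exact ⟨r / (B : ℤ), by rw [zsmul_eq_mul, mul_one]⟩
      rw [h4, add_zero]
    rw [h1, ← dist_eq_norm]
    refine (dist_coe_le _ _).trans ?_
    have h5 := abs_sub_round ((B : ℝ) * x)
    rw [← hr] at h5
    have h6 : x - (r : ℝ) / B = ((B : ℝ) * x - r) / B := by field_simp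
    rw [h6, abs_div, abs_of_pos hB0, div_le_div_iff₀ hB0 (by positivity)]
    nlinarith

variable {Λ : Type*} [Fintype Λ] [DecidableEq Λ]

/-- lower bound for the coefficient -/
theorem coef_lower (hb : 2 ≤ b) (hα : 0 < α) {M c0 : ℕ}
    (hM : Fintype.card Λ = 2 * M)
    (hc0 : 2 * M * (lam b α ^ (c0 + 1) * (1 - lam b α)⁻¹) ≤ 1 / 4)
    {j n N G : ℕ} {ε : Λ → ℝ} (hε : ∀ l, |ε l| = 1)
    {z : Λ → ℝ} {l : Λ} {m : ℕ} (hm : m < G)
    (hiso : ∀ p : Λ × ℕ, p ≠ (l, n + m * j) → p.2 + j ≤ n + (G * j + c0) →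
      ¬ closeP b j n N z (l, n + m * j) p) :
    ∃ i : ℕ, i < b ^ (j + 1) ∧
      lam b α ^ ((G - 1) * j) / 4 ≤ |∑ l, ε l * hc b α n N (tent b (j, i)) (z l)| := by
  have hb0 : (0 : ℝ) < b := by positivity
  have hbr : (2 : ℝ) ≤ b := by exact_mod_cast hb
  have hl0 : 0 < lam b α := lam_pos hb
  have hl1 : lam b α < 1 := lam_lt_one hb hα
  set k0 := n + m * j with hk0
  obtain ⟨i, hi1, hi2⟩ := exists_node (B := b ^ (j + 1)) (by positivity)
    ((b : ℝ) ^ k0 * pt b n N (z l))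
  refine ⟨i, hi1, ?_⟩
  set e := tent b (j, i) with he
  push_cast at hi2
  have hB : (0 : ℝ) < (b : ℝ) ^ (j + 1) := by positivity
  -- value at the isolated position
  have hval : 1 / 2 ≤ e (((b : ℝ) ^ k0 * pt b n N (z l) : ℝ) : UnitAddCircle) := by
    rw [he, tent_apply]
    refine le_trans ?_ (le_max_right _ _)
    simp only
    have : (b : ℝ) ^ (j + 1) * ‖(((b : ℝ) ^ k0 * pt b n N (z l) : ℝ) : UnitAddCircle) -
        (((i : ℝ) / (b : ℝ) ^ (j + 1) : ℝ) : UnitAddCircle)‖ ≤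
        (b : ℝ) ^ (j + 1) * (1 / (2 * (b : ℝ) ^ (j + 1))) := by gcongr
    have h2 : (b : ℝ) ^ (j + 1) * (1 / (2 * (b : ℝ) ^ (j + 1))) = 1 / 2 := by field_simp
    linarith
  -- the other positions
  have hzero : ∀ p : Λ × ℕ, p ≠ (l, k0) → p.2 + j ≤ n + (G * j + c0) →
      e (((b : ℝ) ^ p.2 * pt b n N (z p.1) : ℝ) : UnitAddCircle) = 0 := by
    intro p hp1 hp2
    have h1 := hiso p hp1 hp2
    unfold closeP at h1
    push Not at h1
    simp only at h1
    rw [AddCircle.coe_sub] at h1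
    rw [he, tent_apply]
    apply max_eq_left
    simp only
    have h3 : ((b : ℝ) ^ j)⁻¹ ≤ 1 / (2 * (b : ℝ) ^ (j + 1)) +
        ‖(((b : ℝ) ^ p.2 * pt b n N (z p.1) : ℝ) : UnitAddCircle) -
        (((i : ℝ) / (b : ℝ) ^ (j + 1) : ℝ) : UnitAddCircle)‖ := by
      refine h1.trans ?_
      have h4 : ∀ u v w : UnitAddCircle, ‖u - v‖ ≤ ‖u - w‖ + ‖v - w‖ := by
        intro u v w
        have : u - v = (u - w) - (v - w) := by abel
        rw [this]
        exact norm_sub_le _ _
      refine (h4 _ _ (((i : ℝ) / (b : ℝ) ^ (j + 1) : ℝ) : UnitAddCircle)).trans ?_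
      gcongr
    have h5 : (b : ℝ) ^ (j + 1) * ((b : ℝ) ^ j)⁻¹ = b := by
      rw [pow_succ]; field_simp
    have h6 : (b : ℝ) ^ (j + 1) * (1 / (2 * (b : ℝ) ^ (j + 1))) = 1 / 2 := by field_simp
    have h7 := mul_le_mul_of_nonneg_left h3 hB.le
    rw [h5, mul_add, h6] at h7
    linarith
  -- the head of the series
  set K := n + (G * j + c0) - j + 1 with hK
  have hjG : j ≤ G * j := by
    have : 1 ≤ G := by omega
    exact Nat.le_mul_of_pos_left _ this
  have hmj : m * j ≤ (G - 1) * j := Nat.mul_le_mul_right _ (by omega)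
  have hGj : (G - 1) * j + j = G * j := by
    have : G = (G - 1) + 1 := by omega
    conv_rhs => rw [this]
    ring
  have hk0K : k0 < K := by omega
  have hhead : ∀ l' : Λ, ∑ k ∈ Finset.range K,
      lam b α ^ k * e ((((b : ℝ) ^ k * pt b n N (z l') : ℝ)) : UnitAddCircle) =
      if l' = l then lam b α ^ k0 * e (((b : ℝ) ^ k0 * pt b n N (z l) : ℝ) : UnitAddCircle)
        else 0 := by
    intro l'
    by_cases hl' : l' = l
    · subst hl'
      rw [if_pos rfl]
      apply Finset.sum_eq_single_of_mem k0 (Finset.mem_range.mpr hk0K)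
      intro k hk hkk
      rw [Finset.mem_range] at hk
      have := hzero (l', k) (by simpa using hkk) (by simp only; omega)
      simp only at this
      rw [this, mul_zero]
    · rw [if_neg hl']
      apply Finset.sum_eq_zero
      intro k hk
      rw [Finset.mem_range] at hk
      have := hzero (l', k) (by
        intro hcon
        exact hl' (Prod.mk.inj hcon).1) (by simp only; omega)
      simp only at this
      rw [this, mul_zero]
  have hsum : ∑ l', ε l' * hc b α n N e (z l') =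
      (lam b α ^ n)⁻¹ * (ε l * (lam b α ^ k0 *
        e (((b : ℝ) ^ k0 * pt b n N (z l) : ℝ) : UnitAddCircle)) +
        ∑ l', ε l' * (lam b α ^ K * FW b α e ((b : ℝ) ^ K * pt b n N (z l')))) := by
    have h1 : ∀ l' : Λ, ε l' * hc b α n N e (z l') = (lam b α ^ n)⁻¹ *
        (ε l' * (if l' = l then lam b α ^ k0 *
          e (((b : ℝ) ^ k0 * pt b n N (z l) : ℝ) : UnitAddCircle) else 0)) +
        (lam b α ^ n)⁻¹ * (ε l' * (lam b α ^ K * FW b α e ((b : ℝ) ^ K * pt b n N (z l')))) := by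
      intro l'
      unfold hc
      rw [FW_split hb hα e (pt b n N (z l')) K, hhead l']
      ring
    simp_rw [h1]
    rw [Finset.sum_add_distrib, ← Finset.mul_sum, ← Finset.mul_sum, mul_add]
    congr 2
    simp
  rw [hsum, abs_mul, abs_of_pos (inv_pos.mpr (pow_pos hl0 n))]
  -- the tail
  have htail : |∑ l', ε l' * (lam b α ^ K * FW b α e ((b : ℝ) ^ K * pt b n N (z l')))| ≤
      lam b α ^ (n + (G - 1) * j) * (1 / 4) := by
    calc |∑ l', ε l' * (lam b α ^ K * FW b α e ((b : ℝ) ^ K * pt b n N (z l')))|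
        ≤ ∑ l', |ε l' * (lam b α ^ K * FW b α e ((b : ℝ) ^ K * pt b n N (z l')))| :=
          Finset.abs_sum_le_sum_abs _ _
      _ ≤ ∑ _l' : Λ, lam b α ^ K * (1 - lam b α)⁻¹ := by
          refine Finset.sum_le_sum fun l' _ => ?_
          rw [abs_mul, abs_mul, hε, one_mul, abs_of_pos (pow_pos hl0 K)]
          gcongr
          have := abs_FW_le_sup (α := α) hb hα e (abs_tent_le (j, i))
            ((b : ℝ) ^ K * pt b n N (z l'))
          rwa [mul_one] at this
      _ = 2 * M * (lam b α ^ K * (1 - lam b α)⁻¹) := by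
          rw [Finset.sum_const, Finset.card_univ, hM, nsmul_eq_mul]
          push_cast
          ring
      _ = lam b α ^ (n + (G - 1) * j) *
          (2 * M * (lam b α ^ (c0 + 1) * (1 - lam b α)⁻¹)) := by
          have : K = (n + (G - 1) * j) + (c0 + 1) := by omega
          rw [this, pow_add]
          ring
      _ ≤ _ := by gcongr
  have hmain : lam b α ^ (n + (G - 1) * j) * (1 / 2) ≤ |ε l * (lam b α ^ k0 *
        e (((b : ℝ) ^ k0 * pt b n N (z l) : ℝ) : UnitAddCircle))| := by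
    rw [abs_mul, hε, one_mul, abs_mul, abs_of_pos (pow_pos hl0 k0),
      abs_of_nonneg (tent_nonneg _ _)]
    have h1 : lam b α ^ (n + (G - 1) * j) ≤ lam b α ^ k0 :=
      pow_le_pow_of_le_one hl0.le hl1.le (by omega)
    calc lam b α ^ (n + (G - 1) * j) * (1 / 2) ≤ lam b α ^ k0 * (1 / 2) := by gcongr
      _ ≤ _ := by gcongr
  have habs : ∀ A B : ℝ, |A| - |B| ≤ |A + B| := by
    intro A B
    have := abs_sub_abs_le_abs_sub A (-B)
    rwa [abs_neg, sub_neg_eq_add] at this
  have h8 : lam b α ^ (n + (G - 1) * j) * (1 / 4) ≤ |ε l * (lam b α ^ k0 *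
        e (((b : ℝ) ^ k0 * pt b n N (z l) : ℝ) : UnitAddCircle)) +
        ∑ l', ε l' * (lam b α ^ K * FW b α e ((b : ℝ) ^ K * pt b n N (z l')))| := by
    refine le_trans ?_ (habs _ _)
    linarith
  calc lam b α ^ ((G - 1) * j) / 4 = (lam b α ^ n)⁻¹ *
        (lam b α ^ (n + (G - 1) * j) * (1 / 4)) := by
        rw [pow_add]
        have := pow_pos hl0 n
        field_simp
    _ ≤ _ := by gcongr

end

end Pool.Agent.Work.MP_22f354_an
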