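import Pool.Agent.Work.MP_22f354_an.Digits

/-!
The measure of the set of configurations in which every grid position is close to another
position.
-/

set_option autoImplicit false

namespace Pool.Agent.Work.MP_22f354_an

open MeasureTheory Set
open scoped ENNReal

lemma window {b : ℕ} (hb : 2 ≤ b) {A B : ℝ} (hA : 0 ≤ A) (hB : 0 ≤ B) (q : ℤ) (j : ℕ)
    (h : |A - B - q * (b : ℝ) ^ j| < 1) :
    ⌊A⌋₊ ≡ ⌊B⌋₊ [MOD b ^ j] ∨ ⌊A⌋₊ ≡ ⌊B⌋₊ + 1 [MOD b ^ j] ∨ ⌊A⌋₊ + 1 ≡ ⌊B⌋₊ [MOD b ^ j] := by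
  have hA1 := Nat.floor_le hA
  have hA2 := Nat.lt_floor_add_one A
  have hB1 := Nat.floor_le hB
  have hB2 := Nat.lt_floor_add_one B
  rw [abs_lt] at h
  have h1 : ((⌊A⌋₊ : ℤ) - ⌊B⌋₊ - q * (b : ℤ) ^ j : ℤ) < 2 := by
    have : (((⌊A⌋₊ : ℤ) - ⌊B⌋₊ - q * (b : ℤ) ^ j : ℤ) : ℝ) < 2 := by
      push_cast
      linarith [h.2]
    exact_mod_cast this
  have h2 : -2 < ((⌊A⌋₊ : ℤ) - ⌊B⌋₊ - q * (b : ℤ) ^ j : ℤ) := by
    have : (-2 : ℝ) < (((⌊A⌋₊ : ℤ) - ⌊B⌋₊ - q * (b : ℤ) ^ j : ℤ) : ℝ) := by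
      push_cast
      linarith [h.1]
    exact_mod_cast this
  obtain ⟨d, hd⟩ : ∃ d : ℤ, d = (⌊A⌋₊ : ℤ) - ⌊B⌋₊ - q * (b : ℤ) ^ j := ⟨_, rfl⟩
  rw [← hd] at h1 h2
  have h3 : d = 0 ∨ d = 1 ∨ d = -1 := by omega
  rcases h3 with h3 | h3 | h3
  · left
    rw [← Int.natCast_modEq_iff]
    push_cast
    rw [Int.modEq_iff_dvd]
    exact ⟨-q, by linear_combination hd - h3⟩
  · right; left
    rw [← Int.natCast_modEq_iff]
    push_cast
    rw [Int.modEq_iff_dvd]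
    exact ⟨-q, by linear_combination hd - h3⟩
  · right; right
    rw [← Int.natCast_modEq_iff]
    push_cast
    rw [Int.modEq_iff_dvd]
    exact ⟨-q, by linear_combination hd - h3⟩

/-- the point of the context `(n, N)` with local coordinate `z` -/
noncomputable def pt (b n N : ℕ) (z : ℝ) : ℝ := ((N : ℝ) + z) / b ^ n

/-- closeness of two positions -/
def closeP (b j n N : ℕ) {Λ : Type*} (z : Λ → ℝ) (p p' : Λ × ℕ) : Prop :=
  ‖(((b : ℝ) ^ p.2 * pt b n N (z p.1) - (b : ℝ) ^ p'.2 * pt b n N (z p'.1) : ℝ) :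
    AddCircle (1 : ℝ))‖ < ((b : ℝ) ^ j)⁻¹

/-- the truncation -/
noncomputable def trc (b N P : ℕ) {Λ : Type*} (z : Λ → ℝ) (l : Λ) : ℕ :=
  ⌊(b : ℝ) ^ P * ((N : ℝ) + z l)⌋₊

section
variable {b : ℕ} {Λ : Type*}

lemma trc_div (hb : 2 ≤ b) (N P : ℕ) (z : Λ → ℝ) (l : Λ) (s : ℕ) :
    trc b N P z l / b ^ s = ⌊(b : ℝ) ^ P * ((N : ℝ) + z l) / b ^ s⌋₊ := by
  unfold trc
  rw [← Nat.floor_div_natCast]
  push_cast
  rfl

lemma trc_div_P (hb : 2 ≤ b) (N P : ℕ) (z : Λ → ℝ) (l : Λ) (hz : z l ∈ Ico (0 : ℝ) 1) :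
    trc b N P z l / b ^ P = N := by
  rw [trc_div hb]
  have hb0 : (0 : ℝ) < (b : ℝ) ^ P := by positivity
  rw [mul_comm, mul_div_assoc, div_self hb0.ne', mul_one]
  rw [Nat.floor_eq_iff (by have := hz.1; positivity)]
  constructor <;> linarith [hz.1, hz.2]

lemma closeP_window (hb : 2 ≤ b) {j n N P : ℕ} {z : Λ → ℝ} (hz : ∀ l, z l ∈ Ico (0 : ℝ) 1)
    {l l' : Λ} {k k' : ℕ} (hk : k + j ≤ n + P) (hk' : k' + j ≤ n + P)
    (h : closeP b j n N z (l, k) (l', k')) :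
    ∃ (δ : Fin 3) (v : Fin (j + 1)), ∀ i, i < j →
      dg b (trc b N P z l) (n + P - k - j + i) =
        dg b (trc b N P z l') (n + P - k' - j + i) + shft b δ v i := by
  have hb0 : (0 : ℝ) < b := by positivity
  unfold closeP at h
  rw [AddCircle.norm_eq] at h
  simp only [inv_one, one_mul, mul_one] at h
  set q : ℤ := round ((b : ℝ) ^ k * pt b n N (z l) - (b : ℝ) ^ k' * pt b n N (z l')) with hq
  have key : ∀ (l : Λ) (k : ℕ), k + j ≤ n + P →
      trc b N P z l / b ^ (n + P - k - j) = ⌊(b : ℝ) ^ j * ((b : ℝ) ^ k * pt b n N (z l))⌋₊ := by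
    intro l k hk
    rw [trc_div hb]
    congr 1
    unfold pt
    have e1 : (b : ℝ) ^ (n + P) = (b : ℝ) ^ (n + P - k - j) * ((b : ℝ) ^ j * (b : ℝ) ^ k) := by
      rw [← pow_add, ← pow_add]
      congr 1
      omega
    rw [pow_add] at e1
    field_simp
    linear_combination ((N : ℝ) + z l) * e1
  have hp0 : ∀ (l : Λ) (k : ℕ), 0 ≤ (b : ℝ) ^ j * ((b : ℝ) ^ k * pt b n N (z l)) := by
    intro l k
    unfold pt
    have := (hz l).1
    positivity
  have h1 : |(b : ℝ) ^ j * ((b : ℝ) ^ k * pt b n N (z l)) -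
      (b : ℝ) ^ j * ((b : ℝ) ^ k' * pt b n N (z l')) - q * (b : ℝ) ^ j| < 1 := by
    have e2 : (b : ℝ) ^ j * ((b : ℝ) ^ k * pt b n N (z l)) -
      (b : ℝ) ^ j * ((b : ℝ) ^ k' * pt b n N (z l')) - q * (b : ℝ) ^ j =
      (b : ℝ) ^ j * ((b : ℝ) ^ k * pt b n N (z l) - (b : ℝ) ^ k' * pt b n N (z l') - q) := by ring
    rw [e2, abs_mul, abs_of_pos (by positivity : (0 : ℝ) < (b : ℝ) ^ j)]
    calc (b : ℝ) ^ j * |(b : ℝ) ^ k * pt b n N (z l) - (b : ℝ) ^ k' * pt b n N (z l') - q|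
        < (b : ℝ) ^ j * ((b : ℝ) ^ j)⁻¹ := by gcongr
      _ = 1 := mul_inv_cancel₀ (by positivity)
  have h2 := window hb (hp0 l k) (hp0 l' k') q j h1
  rw [← key l k hk, ← key l' k' hk'] at h2
  obtain ⟨δ, v, hδ⟩ := exists_shft hb j _ _ h2
  refine ⟨δ, v, fun i hi => ?_⟩
  rw [← dg_div, ← dg_div]
  exact hδ i hi

/-- the bad configurations: every grid position is close to another position -/
def Bad (b j n N P G : ℕ) {Λ : Type*} : Set (Λ → ℝ) :=
  {z | (∀ l, z l ∈ Ico (0 : ℝ) 1) ∧ ∀ l, ∀ m : ℕ, m < G →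
    ∃ p : Λ × ℕ, p ≠ (l, n + m * j) ∧ p.2 + j ≤ n + P ∧ closeP b j n N z (l, n + m * j) p}

lemma bad_mem (hb : 2 ≤ b) {j n N P G : ℕ} (hP : G * j ≤ P) {z : Λ → ℝ}
    (hz : z ∈ Bad b j n N P G) :
    ∃ π : Λ × Fin G → Λ × Fin (n + P + 1) × Fin 3 × Fin (j + 1),
      trc b N P z ∈ Ecfg b N P j G (n + P + 1) π := by
  classical
  obtain ⟨hz1, hz2⟩ := hz
  have hch : ∀ q : Λ × Fin G, ∃ w : Λ × Fin (n + P + 1) × Fin 3 × Fin (j + 1),
      (w.1, (w.2.1 : ℕ)) ≠ (q.1, P - ((q.2 : ℕ) + 1) * j) ∧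
      ∀ i, i < j → dg b (trc b N P z q.1) (P - ((q.2 : ℕ) + 1) * j + i) =
      dg b (trc b N P z w.1) (w.2.1 + i) + shft b w.2.2.1 w.2.2.2 i := by
    rintro ⟨l, m⟩
    obtain ⟨⟨l', k'⟩, hp1, hp2, hp3⟩ := hz2 l m m.2
    have hm1 : ((m : ℕ) + 1) * j ≤ G * j := Nat.mul_le_mul_right _ m.2
    have hm2 : ((m : ℕ) + 1) * j = m * j + j := by ring
    simp only at hp2
    obtain ⟨δ, v, hδ⟩ := closeP_window hb (P := P) hz1 (by omega) hp2 hp3
    refine ⟨(l', ⟨n + P - k' - j, by omega⟩, δ, v), ?_, ?_⟩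
    · intro hcon
      apply hp1
      rw [Prod.mk.injEq] at hcon ⊢
      refine ⟨hcon.1, ?_⟩
      have := hcon.2
      simp only at this
      omega
    · intro i hi
      have := hδ i hi
      have e1 : n + P - (n + (m : ℕ) * j) - j = P - ((m : ℕ) + 1) * j := by omega
      rw [e1] at this
      exact this
  choose π hπ using hch
  refine ⟨π, ?_, ?_⟩
  · intro l
    exact trc_div_P hb N P z l (hz1 l)
  · intro l m
    exact hπ (l, m)

/-- product of uniform measures on `[0,1)` -/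
noncomputable def unif (Λ : Type*) [Fintype Λ] : Measure (Λ → ℝ) :=
  Measure.pi (fun _ => (volume : Measure ℝ).restrict (Ico 0 1))

/-- the set of integer configurations with given pattern, as a finset -/
noncomputable def Efin (b : ℕ) {Λ : Type*} [Fintype Λ] [DecidableEq Λ] (N P j G S : ℕ)
    (π : Λ × Fin G → Λ × Fin S × Fin 3 × Fin (j + 1)) : Finset (Λ → ℕ) :=
  letI := Classical.decPred (fun X : Λ → ℕ => X ∈ Ecfg b N P j G S π)
  (Fintype.piFinset (fun _ : Λ => Finset.range ((N + 1) * b ^ P))).filter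
    (fun X => X ∈ Ecfg b N P j G S π)

/-- cover of the bad set -/
def cover (b : ℕ) {Λ : Type*} [Fintype Λ] [DecidableEq Λ] (j n N P G : ℕ) : Set (Λ → ℝ) :=
  ⋃ π : Λ × Fin G → Λ × Fin (n + P + 1) × Fin 3 × Fin (j + 1),
    ⋃ X ∈ Efin b N P j G (n + P + 1) π, Set.pi univ (fun l =>
      {t : ℝ | ⌊(b : ℝ) ^ P * ((N : ℝ) + t)⌋₊ = X l})

variable [Fintype Λ] [DecidableEq Λ]

lemma bad_subset_cover (hb : 2 ≤ b) {j n N P G : ℕ} (hP : G * j ≤ P) :
    Bad b j n N P G ⊆ cover b (Λ := Λ) j n N P G := by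
  classical
  intro z hz
  obtain ⟨π, hπ⟩ := bad_mem hb hP hz
  unfold cover
  rw [mem_iUnion]
  refine ⟨π, ?_⟩
  rw [mem_iUnion₂]
  refine ⟨trc b N P z, ?_, ?_⟩
  · unfold Efin
    rw [Finset.mem_filter]
    refine ⟨?_, hπ⟩
    rw [Fintype.mem_piFinset]
    intro l
    rw [Finset.mem_range]
    have h1 := trc_div_P hb N P z l (hz.1 l)
    rw [← Nat.div_lt_iff_lt_mul (by positivity), h1]
    omega
  · intro l _
    rfl

lemma measurableSet_cover {j n N P G : ℕ} : MeasurableSet (cover b (Λ := Λ) j n N P G) := by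
  unfold cover
  refine MeasurableSet.iUnion fun π => Finset.measurableSet_biUnion _ fun X _ => ?_
  refine MeasurableSet.univ_pi fun l => ?_
  have : Measurable (fun t : ℝ => ⌊(b : ℝ) ^ P * ((N : ℝ) + t)⌋₊) :=
    Nat.measurable_floor.comp (by fun_prop)
  exact this (measurableSet_singleton _)

lemma vol_cell (hb : 2 ≤ b) (N P X : ℕ) :
    ((volume : Measure ℝ).restrict (Ico 0 1)) {t : ℝ | ⌊(b : ℝ) ^ P * ((N : ℝ) + t)⌋₊ = X} ≤
      ENNReal.ofReal (((b : ℝ) ^ P)⁻¹) := by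
  have hb0 : (0 : ℝ) < (b : ℝ) ^ P := by positivity
  have hm : MeasurableSet {t : ℝ | ⌊(b : ℝ) ^ P * ((N : ℝ) + t)⌋₊ = X} := by
    have : Measurable (fun t : ℝ => ⌊(b : ℝ) ^ P * ((N : ℝ) + t)⌋₊) :=
      Nat.measurable_floor.comp (by fun_prop)
    exact this (measurableSet_singleton _)
  rw [Measure.restrict_apply hm]
  have hsub : {t : ℝ | ⌊(b : ℝ) ^ P * ((N : ℝ) + t)⌋₊ = X} ∩ Ico 0 1 ⊆
      Ico ((X : ℝ) / b ^ P - N) ((X + 1) / b ^ P - N) := by
    rintro t ⟨ht1, ht2⟩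
    change ⌊(b : ℝ) ^ P * ((N : ℝ) + t)⌋₊ = X at ht1
    rw [Nat.floor_eq_iff (by have := ht2.1; positivity)] at ht1
    constructor
    · rw [sub_le_iff_le_add, div_le_iff₀ hb0]
      linarith [ht1.1]
    · rw [lt_sub_iff_add_lt, lt_div_iff₀ hb0]
      linarith [ht1.2]
  refine (measure_mono hsub).trans ?_
  rw [Real.volume_Ico]
  apply ENNReal.ofReal_le_ofReal
  apply le_of_eq
  field_simp
  ring

theorem unif_cover_le (hb : 2 ≤ b) {j n N P G M : ℕ} (hj : 1 ≤ j) (hP : G * j ≤ P)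
    (hM : Fintype.card Λ = 2 * M) :
    unif Λ (cover b (Λ := Λ) j n N P G) ≤
      ENNReal.ofReal (((2 * M * ((n + P + 1) * (3 * (j + 1)))) ^ (2 * M * G) : ℕ) *
        ((b : ℝ) ^ (M * G * j))⁻¹) := by
  classical
  have hb0 : (0 : ℝ) < b := by positivity
  unfold cover
  calc unif Λ (⋃ π : Λ × Fin G → Λ × Fin (n + P + 1) × Fin 3 × Fin (j + 1),
    ⋃ X ∈ Efin b N P j G (n + P + 1) π, Set.pi univ (fun l =>
      {t : ℝ | ⌊(b : ℝ) ^ P * ((N : ℝ) + t)⌋₊ = X l}))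
      ≤ ∑ π : Λ × Fin G → Λ × Fin (n + P + 1) × Fin 3 × Fin (j + 1),
        unif Λ (⋃ X ∈ Efin b N P j G (n + P + 1) π, Set.pi univ (fun l =>
      {t : ℝ | ⌊(b : ℝ) ^ P * ((N : ℝ) + t)⌋₊ = X l})) := measure_iUnion_fintype_le _ _
    _ ≤ ∑ π : Λ × Fin G → Λ × Fin (n + P + 1) × Fin 3 × Fin (j + 1),
        ∑ X ∈ Efin b N P j G (n + P + 1) π, unif Λ (Set.pi univ (fun l =>
      {t : ℝ | ⌊(b : ℝ) ^ P * ((N : ℝ) + t)⌋₊ = X l})) :=
        Finset.sum_le_sum fun π _ => measure_biUnion_finset_le _ _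
    _ ≤ ∑ π : Λ × Fin G → Λ × Fin (n + P + 1) × Fin 3 × Fin (j + 1),
        ENNReal.ofReal (((b : ℝ) ^ (M * G * j))⁻¹) := by
        refine Finset.sum_le_sum fun π _ => ?_
        have h1 : ∀ X ∈ Efin b N P j G (n + P + 1) π, unif Λ (Set.pi univ (fun l =>
            {t : ℝ | ⌊(b : ℝ) ^ P * ((N : ℝ) + t)⌋₊ = X l})) ≤
            ENNReal.ofReal ((((b : ℝ) ^ P)⁻¹) ^ (2 * M)) := by
          intro X _
          unfold unif
          rw [Measure.pi_pi]
          calc ∏ l : Λ, ((volume : Measure ℝ).restrict (Ico 0 1))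
                {t : ℝ | ⌊(b : ℝ) ^ P * ((N : ℝ) + t)⌋₊ = X l}
              ≤ ∏ l : Λ, ENNReal.ofReal (((b : ℝ) ^ P)⁻¹) :=
                Finset.prod_le_prod' fun l _ => vol_cell hb N P (X l)
            _ = _ := by
                rw [Finset.prod_const, Finset.card_univ, hM, ENNReal.ofReal_pow (by positivity)]
        refine (Finset.sum_le_sum h1).trans ?_
        rw [Finset.sum_const, nsmul_eq_mul]
        have hcard := card_Ecfg hb N P j G (n + P + 1) hj hP π (Efin b N P j G (n + P + 1) π)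
          (by
            intro X hX
            unfold Efin at hX
            rw [Finset.mem_filter] at hX
            exact hX.2)
        rw [hM] at hcard
        have hcard2 : ((Efin b N P j G (n + P + 1) π).card : ℝ) * (b : ℝ) ^ (M * G * j) ≤
            (b : ℝ) ^ (2 * M * P) := by
          have h2 : (((Efin b N P j G (n + P + 1) π).card : ℝ) * (b : ℝ) ^ (M * G * j)) ^ 2 ≤
              ((b : ℝ) ^ (2 * M * P)) ^ 2 := by
            have h3 : (((Efin b N P j G (n + P + 1) π).card : ℝ) ^ 2 *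
                (b : ℝ) ^ (2 * M * (G * j))) ≤ (b : ℝ) ^ (2 * (2 * M * P)) := by
              exact_mod_cast hcard
            calc (((Efin b N P j G (n + P + 1) π).card : ℝ) * (b : ℝ) ^ (M * G * j)) ^ 2
                = (((Efin b N P j G (n + P + 1) π).card : ℝ) ^ 2 *
                (b : ℝ) ^ (2 * M * (G * j))) := by
                  rw [mul_pow, ← pow_mul]
                  congr 2
                  ring
              _ ≤ (b : ℝ) ^ (2 * (2 * M * P)) := h3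
              _ = ((b : ℝ) ^ (2 * M * P)) ^ 2 := by
                  rw [← pow_mul]; congr 1; ring
          exact (pow_le_pow_iff_left₀ (by positivity) (by positivity) (by norm_num)).mp h2
        rw [← ENNReal.ofReal_natCast, ← ENNReal.ofReal_mul (by positivity)]
        apply ENNReal.ofReal_le_ofReal
        rw [inv_pow, ← div_eq_mul_inv, div_le_iff₀ (by positivity), ← pow_mul]
        rw [inv_mul_eq_div, le_div_iff₀ (by positivity)]
        refine hcard2.trans (le_of_eq ?_)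
        congr 1
        ring
    _ = _ := by
        rw [Finset.sum_const, nsmul_eq_mul, Finset.card_univ, Fintype.card_fun,
          ENNReal.ofReal_mul (by positivity), ENNReal.ofReal_natCast]
        simp only [Fintype.card_prod, Fintype.card_fin, hM]

/-- Outside the cover, some grid position is isolated. -/
theorem exists_isolated (hb : 2 ≤ b) {j n N P G : ℕ} (hP : G * j ≤ P) {z : Λ → ℝ}
    (hz : ∀ l, z l ∈ Ico (0 : ℝ) 1) (hzc : z ∉ cover b (Λ := Λ) j n N P G) :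
    ∃ l, ∃ m : ℕ, m < G ∧ ∀ p : Λ × ℕ, p ≠ (l, n + m * j) → p.2 + j ≤ n + P →
      ¬ closeP b j n N z (l, n + m * j) p := by
  by_contra hcon
  push Not at hcon
  exact hzc (bad_subset_cover hb hP ⟨hz, hcon⟩)

end

end Pool.Agent.Work.MP_22f354_an
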