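import Pool.Agent.Work.MP_22f354_an.LevelUpper

/-!
Level sets: the lower bound for the dimension, for almost every level in the range.
-/

set_option autoImplicit false

namespace Pool.Agent.Work.MP_22f354_an

open MeasureTheory Set Filter Topology Metric
open scoped ENNReal NNReal

lemma sum_biUnion_le {ι κ : Type*} [DecidableEq κ] (S : Finset ι) (f : ι → Finset κ)
    (g : κ → ℝ≥0∞) : ∑ x ∈ S.biUnion f, g x ≤ ∑ a ∈ S, ∑ x ∈ f a, g x := by
  classical
  induction S using Finset.induction_on with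
  | empty => simp
  | insert a S ha ih =>
    rw [Finset.biUnion_insert, Finset.sum_insert ha]
    calc ∑ x ∈ f a ∪ S.biUnion f, g x
        ≤ ∑ x ∈ f a ∪ S.biUnion f, g x + ∑ x ∈ f a ∩ S.biUnion f, g x := le_self_add
      _ = ∑ x ∈ f a, g x + ∑ x ∈ S.biUnion f, g x := Finset.sum_union_inter
      _ ≤ _ := by gcongr

/-- the density of the occupation measure of `F` on `A` -/
noncomputable def ell (F : ℝ → ℝ) (A : Set ℝ) : ℝ → ℝ≥0∞ := (occ F A).rnDeriv volume

lemma measurable_ell (F : ℝ → ℝ) (A : Set ℝ) : Measurable (ell F A) :=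
  Measure.measurable_rnDeriv _ _

lemma volume_Jo (b n N : ℕ) : volume (Jo b n N) = ENNReal.ofReal (((b : ℝ) ^ n)⁻¹) := by
  unfold Jo
  rw [Real.volume_Ico, ← sub_div, add_sub_cancel_left, one_div]

lemma Jo_subset {b n N : ℕ} (hb : 2 ≤ b) (hN : N < b ^ n) : Jo b n N ⊆ Ico 0 1 := by
  have hbn : (0 : ℝ) < (b : ℝ) ^ n := by positivity
  intro t ht
  unfold Jo at ht
  refine ⟨le_trans (by positivity) ht.1, lt_of_lt_of_le ht.2 ?_⟩
  rw [div_le_one hbn]
  have : N + 1 ≤ b ^ n := hN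
  exact_mod_cast this

lemma Jo_zero (b : ℕ) : Jo b 0 0 = Ico 0 1 := by
  unfold Jo; simp

lemma measurableSet_Jo (b n N : ℕ) : MeasurableSet (Jo b n N) := measurableSet_Ico

section
variable {b : ℕ} {α : ℝ} {F : ℝ → ℝ} {C0 C1 : ℝ}

lemma Good.volne (_h : Good b α F C0 C1) (n N : ℕ) : volume (Jo b n N) ≠ ∞ := by
  rw [volume_Jo]; exact ENNReal.ofReal_ne_top

lemma Good.ac (h : Good b α F C0 C1) {n N : ℕ} (hN : N < b ^ n) : occ F (Jo b n N) ≪ volume :=
  occ_ac h.cont.measurable (h.volne n N) (h.int n N hN)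

lemma Good.setL (h : Good b α F C0 C1) {n N : ℕ} (hN : N < b ^ n) (S : Set ℝ) :
    ∫⁻ y in S, ell F (Jo b n N) y = occ F (Jo b n N) S := by
  have := isFiniteMeasure_occ (F := F) (h.volne n N)
  exact Measure.setLIntegral_rnDeriv (h.ac hN) S

lemma Good.sq_le (h : Good b α F C0 C1) {n N : ℕ} (hN : N < b ^ n) :
    ∫⁻ y, ell F (Jo b n N) y ^ 2 ≤
      ENNReal.ofReal (C1 * (((b : ℝ) ^ n)⁻¹ ^ 2 * (((b : ℝ) ^ (-α)) ^ n)⁻¹)) :=
  (lintegral_rnDeriv_sq h.cont.measurable (h.volne n N) (h.int n N hN)).trans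
    (ENNReal.ofReal_le_ofReal (h.le n N hN))

/-- the energy sum -/
noncomputable def enS (b : ℕ) (F : ℝ → ℝ) (s : ℝ) (y : ℝ) : ℝ≥0∞ :=
  ∑' n : ℕ, ENNReal.ofReal (((b : ℝ) ^ s) ^ n) *
    ∑ N ∈ Finset.range (b ^ n), ell F (Jo b n N) y ^ 2

theorem Good.enS_lt_top (h : Good b α F C0 C1) {s : ℝ} (hs : s < 1 - α) :
    ∀ᵐ y : ℝ, enS b F s y < ∞ := by
  have hb := h.hb
  have hbr : (2 : ℝ) ≤ b := by exact_mod_cast hb
  have hb0 : (0 : ℝ) < b := by linarith
  have hC1 := h.hC1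
  set lam : ℝ := (b : ℝ) ^ (-α) with hlam
  have hlam0 : 0 < lam := by positivity
  set q : ℝ := (b : ℝ) ^ s * ((b : ℝ)⁻¹ * lam⁻¹) with hq
  have hq0 : 0 ≤ q := by positivity
  have hq1 : q < 1 := by
    have e1 : q = (b : ℝ) ^ (s - (1 - α)) := by
      rw [hq, hlam, ← Real.rpow_neg hb0.le, ← Real.rpow_neg_one (b : ℝ), ← Real.rpow_add hb0,
        ← Real.rpow_add hb0]
      congr 1
      ring
    rw [e1]
    exact Real.rpow_lt_one_of_one_lt_of_neg (by linarith) (by linarith)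
  have hm : ∀ n N, Measurable (fun y => ell F (Jo b n N) y ^ 2) := fun n N =>
    (measurable_ell _ _).pow_const 2
  have hm2 : ∀ n : ℕ, Measurable (fun y => ∑ N ∈ Finset.range (b ^ n), ell F (Jo b n N) y ^ 2) := by
    intro n
    apply Finset.measurable_sum
    intro N _
    exact hm n N
  unfold enS
  apply ae_lt_top
  · apply Measurable.tsum
    intro n
    exact (hm2 n).const_mul _
  · rw [lintegral_tsum]
    · apply ne_of_lt
      calc ∑' n : ℕ, ∫⁻ y, ENNReal.ofReal (((b : ℝ) ^ s) ^ n) *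
            ∑ N ∈ Finset.range (b ^ n), ell F (Jo b n N) y ^ 2
          ≤ ∑' n : ℕ, ENNReal.ofReal (C1 * q ^ n) := by
            refine ENNReal.tsum_le_tsum fun n => ?_
            rw [lintegral_const_mul _ (hm2 n)]
            rw [lintegral_finsetSum _ (fun N _ => hm n N)]
            have h1 : ∑ N ∈ Finset.range (b ^ n), ∫⁻ y, ell F (Jo b n N) y ^ 2 ≤
                ENNReal.ofReal (b ^ n * (C1 * (((b : ℝ) ^ n)⁻¹ ^ 2 * (lam ^ n)⁻¹))) := by
              calc ∑ N ∈ Finset.range (b ^ n), ∫⁻ y, ell F (Jo b n N) y ^ 2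
                  ≤ ∑ N ∈ Finset.range (b ^ n),
                    ENNReal.ofReal (C1 * (((b : ℝ) ^ n)⁻¹ ^ 2 * (lam ^ n)⁻¹)) :=
                    Finset.sum_le_sum fun N hN => h.sq_le (Finset.mem_range.mp hN)
                _ = _ := by
                  have e1 : ((b ^ n : ℕ) : ℝ≥0∞) = ENNReal.ofReal ((b : ℝ) ^ n) := by
                    rw [ENNReal.ofReal_pow (by positivity), ENNReal.ofReal_natCast]
                    push_cast
                    rfl
                  rw [Finset.sum_const, Finset.card_range, nsmul_eq_mul, e1,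
                    ← ENNReal.ofReal_mul (by positivity)]
            calc ENNReal.ofReal (((b : ℝ) ^ s) ^ n) *
                  ∑ N ∈ Finset.range (b ^ n), ∫⁻ y, ell F (Jo b n N) y ^ 2
                ≤ ENNReal.ofReal (((b : ℝ) ^ s) ^ n) *
                  ENNReal.ofReal (b ^ n * (C1 * (((b : ℝ) ^ n)⁻¹ ^ 2 * (lam ^ n)⁻¹))) := by
                  gcongr
              _ = ENNReal.ofReal (C1 * q ^ n) := by
                  rw [← ENNReal.ofReal_mul (by positivity)]
                  congr 1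
                  simp only [hq, mul_pow, inv_pow]
                  field_simp
        _ = ENNReal.ofReal (∑' n, C1 * q ^ n) := by
            rw [ENNReal.ofReal_tsum_of_nonneg]
            · intro n
              positivity
            · exact (summable_geometric_of_lt_one hq0 hq1).mul_left _
        _ < ∞ := ENNReal.ofReal_lt_top
    · intro n
      exact ((hm2 n).const_mul _).aemeasurable

/-- the enlarged open intervals -/
def Oo (b n N : ℕ) : Set ℝ := Ioo (((N : ℝ) - 2) / b ^ n) ((N + 3) / b ^ n)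

/-- the indices of neighbours -/
def nbr (b : ℕ) (p : ℕ × ℕ) : Finset (ℕ × ℕ) :=
  ((Finset.range (b ^ p.1)).filter (fun M => M ≤ p.2 + 2 ∧ p.2 ≤ M + 2)).image (fun M => (p.1, M))

lemma mem_nbr {b : ℕ} {p q : ℕ × ℕ} :
    q ∈ nbr b p ↔ q.1 = p.1 ∧ q.2 < b ^ p.1 ∧ q.2 ≤ p.2 + 2 ∧ p.2 ≤ q.2 + 2 := by
  unfold nbr
  rw [Finset.mem_image]
  constructor
  · rintro ⟨M, hM, rfl⟩
    rw [Finset.mem_filter, Finset.mem_range] at hM
    exact ⟨rfl, hM.1, hM.2.1, hM.2.2⟩
  · rintro ⟨h1, h2, h3, h4⟩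
    refine ⟨q.2, ?_, ?_⟩
    · rw [Finset.mem_filter, Finset.mem_range]
      exact ⟨h2, h3, h4⟩
    · rw [← h1]

lemma card_nbr (b : ℕ) (p : ℕ × ℕ) : (nbr b p).card ≤ 5 := by
  unfold nbr
  refine Finset.card_image_le.trans ?_
  calc ((Finset.range (b ^ p.1)).filter (fun M => M ≤ p.2 + 2 ∧ p.2 ≤ M + 2)).card
      ≤ (Finset.Icc (p.2 - 2) (p.2 + 2)).card := by
        apply Finset.card_le_card
        intro M hM
        rw [Finset.mem_filter] at hM
        rw [Finset.mem_Icc]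
        omega
    _ ≤ 5 := by
        rw [Nat.card_Icc]; omega

lemma Oo_inter_subset (hb : 2 ≤ b) (p : ℕ × ℕ) :
    Oo b p.1 p.2 ∩ Ico 0 1 ⊆ ⋃ q ∈ nbr b p, Jo b q.1 q.2 := by
  rintro t ⟨ht1, ht2⟩
  obtain ⟨M, hM, htM⟩ := exists_Jo hb p.1 ht2
  have hbn : (0 : ℝ) < (b : ℝ) ^ p.1 := by positivity
  rw [mem_iUnion₂]
  refine ⟨(p.1, M), ?_, htM⟩
  rw [mem_nbr]
  unfold Oo at ht1
  unfold Jo at htM
  have h1 : ((p.2 : ℝ) - 2) < M + 1 := by
    have := lt_trans ht1.1 htM.2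
    rwa [div_lt_div_iff_of_pos_right hbn] at this
  have h2 : (M : ℝ) < p.2 + 3 := by
    have := lt_of_le_of_lt htM.1 ht1.2
    rwa [div_lt_div_iff_of_pos_right hbn] at this
  refine ⟨rfl, hM, ?_, ?_⟩
  · have : M < p.2 + 3 := by exact_mod_cast h2
    show M ≤ p.2 + 2
    omega
  · have : (p.2 : ℝ) < M + 3 := by linarith
    have : p.2 < M + 3 := by exact_mod_cast this
    show p.2 ≤ M + 2
    omega

/-- Covering inequality. -/
theorem Good.cover_ineq (h : Good b α F C0 C1) :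
    ∀ᵐ y : ℝ, ∀ A : Finset (ℕ × ℕ), lev F y ⊆ ⋃ p ∈ A, Oo b p.1 p.2 →
      ell F (Jo b 0 0) y ≤ ∑ q ∈ A.biUnion (nbr b), ell F (Jo b q.1 q.2) y := by
  rw [ae_all_iff]
  intro A
  have hb := h.hb
  set K : Set ℝ := Icc 0 1 \ ⋃ p ∈ A, Oo b p.1 p.2 with hK
  have hOo : IsOpen (⋃ p ∈ A, Oo b p.1 p.2) :=
    isOpen_biUnion fun p _ => isOpen_Ioo
  have hKc : IsCompact K := isCompact_Icc.diff hOo
  have hFK : MeasurableSet (F '' K) := (hKc.image h.cont).measurableSet
  have hlt : ∀ q ∈ A.biUnion (nbr b), q.2 < b ^ q.1 := by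
    intro q hq
    rw [Finset.mem_biUnion] at hq
    obtain ⟨p, _, hp⟩ := hq
    rw [mem_nbr] at hp
    rw [hp.1]
    exact hp.2.1
  have key : ((F '' K)ᶜ).indicator (ell F (Jo b 0 0)) ≤ᵐ[volume]
      fun y => ∑ q ∈ A.biUnion (nbr b), ell F (Jo b q.1 q.2) y := by
    apply ae_le_of_forall_setLIntegral_le_of_sigmaFinite
      ((measurable_ell _ _).indicator hFK.compl)
    intro S hS _
    rw [lintegral_finsetSum _ (fun q _ => measurable_ell _ _)]
    rw [setLIntegral_indicator hFK.compl]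
    rw [h.setL (by positivity)]
    have e1 : ∑ q ∈ A.biUnion (nbr b), ∫⁻ y in S, ell F (Jo b q.1 q.2) y =
        ∑ q ∈ A.biUnion (nbr b), occ F (Jo b q.1 q.2) S :=
      Finset.sum_congr rfl fun q hq => h.setL (hlt q hq) S
    rw [e1]
    rw [occ_apply h.cont.measurable (hFK.compl.inter hS)]
    calc volume (F ⁻¹' ((F '' K)ᶜ ∩ S) ∩ Jo b 0 0)
        ≤ volume (⋃ q ∈ A.biUnion (nbr b), (F ⁻¹' S ∩ Jo b q.1 q.2)) := by
          apply measure_mono
          rintro t ⟨⟨ht1, ht2⟩, ht3⟩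
          rw [Jo_zero] at ht3
          have htO : t ∈ ⋃ p ∈ A, Oo b p.1 p.2 := by
            by_contra hcon
            exact ht1 ⟨t, ⟨⟨ht3.1, ht3.2.le⟩, hcon⟩, rfl⟩
          rw [mem_iUnion₂] at htO
          obtain ⟨p, hp, htp⟩ := htO
          have := Oo_inter_subset hb p ⟨htp, ht3⟩
          rw [mem_iUnion₂] at this
          obtain ⟨q, hq, htq⟩ := this
          rw [mem_iUnion₂]
          exact ⟨q, Finset.mem_biUnion.mpr ⟨p, hp, hq⟩, ht2, htq⟩
      _ ≤ ∑ q ∈ A.biUnion (nbr b), volume (F ⁻¹' S ∩ Jo b q.1 q.2) :=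
          measure_biUnion_finset_le _ _
      _ = _ := by
          refine Finset.sum_congr rfl fun q _ => ?_
          rw [occ_apply h.cont.measurable hS]
  filter_upwards [key] with y hy hcov
  have hyK : y ∈ (F '' K)ᶜ := by
    rintro ⟨t, ht, hty⟩
    exact ht.2 (hcov ⟨ht.1, hty⟩)
  rw [indicator_of_mem hyK] at hy
  exact hy

/-- choice of a level for a small set -/
lemma exists_level (hb : 2 ≤ b) {s : ℝ} (hs : 0 < s) {D : ℝ} (hD0 : 0 ≤ D) (hD1 : D ≤ 1)
    {e : ℝ} (he : 0 < e) : ∃ n : ℕ, D ≤ ((b : ℝ)⁻¹) ^ n ∧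
      (((b : ℝ) ^ s)⁻¹) ^ n ≤ (b : ℝ) ^ s * D ^ s + e := by
  have hbr : (2 : ℝ) ≤ b := by exact_mod_cast hb
  have hb0 : (0 : ℝ) < b := by linarith
  have hbs : (1 : ℝ) < (b : ℝ) ^ s := Real.one_lt_rpow (by linarith) hs
  rcases eq_or_lt_of_le hD0 with h0 | h0
  · obtain ⟨n, hn⟩ := exists_pow_lt_of_lt_one he (inv_lt_one_of_one_lt₀ hbs)
    refine ⟨n, ?_, ?_⟩
    · rw [← h0]; positivity
    · have : 0 ≤ (b : ℝ) ^ s * D ^ s := by positivity
      linarith
  · obtain ⟨n, hn1, hn2⟩ := exists_nat_pow_near_of_lt_one h0 hD1 (inv_pos.mpr hb0)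
      (inv_lt_one_of_one_lt₀ (by linarith : (1 : ℝ) < b))
    refine ⟨n, hn2, ?_⟩
    have h2 : (((b : ℝ)⁻¹) ^ (n + 1)) ^ s ≤ D ^ s := by gcongr
    have h3 : (((b : ℝ)⁻¹) ^ (n + 1)) ^ s = (((b : ℝ) ^ s)⁻¹) ^ (n + 1) := by
      rw [inv_pow, Real.inv_rpow (by positivity), pow_rpow_comm hb, inv_pow]
    rw [h3, pow_succ] at h2
    have h4 : (((b : ℝ) ^ s)⁻¹) ^ n ≤ (b : ℝ) ^ s * D ^ s := by
      calc (((b : ℝ) ^ s)⁻¹) ^ n = (b : ℝ) ^ s * ((((b : ℝ) ^ s)⁻¹) ^ n * ((b : ℝ) ^ s)⁻¹) := by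
            field_simp
        _ ≤ (b : ℝ) ^ s * D ^ s := by gcongr
    linarith

lemma exists_Oo (hb : 2 ≤ b) {n : ℕ} {T : Set ℝ} {x : ℝ} (hxT : x ∈ T) (hx : x ∈ Icc (0 : ℝ) 1)
    (hD : ediam T ≤ ENNReal.ofReal (((b : ℝ)⁻¹) ^ n)) :
    ∃ N : ℕ, T ⊆ Oo b n N := by
  have hbn : (0 : ℝ) < (b : ℝ) ^ n := by positivity
  obtain ⟨N, hN, hxN⟩ := exists_Jc hb n hx
  refine ⟨N, fun t ht => ?_⟩
  have h1 : |t - x| ≤ ((b : ℝ) ^ n)⁻¹ := by
    rw [← Real.dist_eq, ← inv_pow]
    have := (edist_le_ediam_of_mem ht hxT).trans hD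
    rw [edist_dist] at this
    exact (ENNReal.ofReal_le_ofReal_iff (by positivity)).mp this
  rw [abs_le] at h1
  unfold Jc at hxN
  unfold Oo
  have e1 : ((N : ℝ) - 2) / b ^ n = (N : ℝ) / b ^ n - 2 * ((b : ℝ) ^ n)⁻¹ := by field_simp
  have e2 : ((N : ℝ) + 3) / b ^ n = ((N : ℝ) + 1) / b ^ n + 2 * ((b : ℝ) ^ n)⁻¹ := by
    field_simp; ring
  have hp : 0 < ((b : ℝ) ^ n)⁻¹ := by positivity
  constructor
  · rw [e1]; linarith [hxN.1]
  · rw [e2]; linarith [hxN.2]

lemma isCompact_lev (hF : Continuous F) (y : ℝ) : IsCompact (lev F y) := by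
  unfold lev
  have : {t ∈ Icc (0 : ℝ) 1 | F t = y} = Icc (0 : ℝ) 1 ∩ F ⁻¹' {y} := by
    ext t; simp
  rw [this]
  exact isCompact_Icc.inter_right (isClosed_singleton.preimage hF)

/-- If the Hausdorff measure vanishes then there are economical finite covers. -/
lemma exists_cover (hb : 2 ≤ b) (hF : Continuous F) {s : ℝ} (hs : 0 < s) {y : ℝ}
    (hH : Measure.hausdorffMeasure s (lev F y) = 0) {e : ℝ} (he : 0 < e) :
    ∃ A : Finset (ℕ × ℕ), lev F y ⊆ ⋃ p ∈ A, Oo b p.1 p.2 ∧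
      ∑ p ∈ A, ENNReal.ofReal ((((b : ℝ) ^ s)⁻¹) ^ p.1) ≤
        ENNReal.ofReal ((b : ℝ) ^ s) * ENNReal.ofReal e + ENNReal.ofReal e := by
  classical
  have hbr : (2 : ℝ) ≤ b := by exact_mod_cast hb
  have hb0 : (0 : ℝ) < b := by linarith
  rw [Measure.hausdorffMeasure_apply] at hH
  have h1 : (⨅ (t : ℕ → Set ℝ) (_ : lev F y ⊆ ⋃ n, t n) (_ : ∀ n, ediam (t n) ≤ 1),
      ∑' n, ⨆ _ : (t n).Nonempty, ediam (t n) ^ s) = 0 := by
    refine le_antisymm ?_ zero_le
    rw [← hH]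
    exact le_iSup₂ (f := fun (r : ℝ≥0∞) (_ : 0 < r) =>
      ⨅ (t : ℕ → Set ℝ) (_ : lev F y ⊆ ⋃ n, t n) (_ : ∀ n, ediam (t n) ≤ r),
      ∑' n, ⨆ _ : (t n).Nonempty, ediam (t n) ^ s) 1 one_pos
  have h2 : (⨅ (t : ℕ → Set ℝ) (_ : lev F y ⊆ ⋃ n, t n) (_ : ∀ n, ediam (t n) ≤ 1),
      ∑' n, ⨆ _ : (t n).Nonempty, ediam (t n) ^ s) < ENNReal.ofReal e := by
    rw [h1]; exact ENNReal.ofReal_pos.mpr he
  simp only [iInf_lt_iff] at h2
  obtain ⟨t, ht1, ht2, ht3⟩ := h2
  -- choice of levels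
  have hch : ∀ i : ℕ, ∃ n N : ℕ, (t i ∩ lev F y).Nonempty → (t i ⊆ Oo b n N ∧
      ENNReal.ofReal ((((b : ℝ) ^ s)⁻¹) ^ n) ≤ ENNReal.ofReal ((b : ℝ) ^ s) *
        (⨆ _ : (t i).Nonempty, ediam (t i) ^ s) + ENNReal.ofReal (e * (1 / 2) ^ (i + 1))) := by
    intro i
    by_cases hi : (t i ∩ lev F y).Nonempty
    · obtain ⟨x, hx1, hx2⟩ := hi
      have hfin : ediam (t i) ≠ ∞ := ne_top_of_le_ne_top ENNReal.one_ne_top (ht2 i)
      have hD1 : (ediam (t i)).toReal ≤ 1 := by
        have := ENNReal.toReal_mono ENNReal.one_ne_top (ht2 i)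
        simpa using this
      obtain ⟨n, hn1, hn2⟩ := exists_level hb hs (D := (ediam (t i)).toReal)
        ENNReal.toReal_nonneg hD1 (e := e * (1 / 2) ^ (i + 1)) (by positivity)
      obtain ⟨N, hN⟩ := exists_Oo hb (n := n) hx1 hx2.1 (by
        rw [← ENNReal.ofReal_toReal hfin]
        exact ENNReal.ofReal_le_ofReal hn1)
      refine ⟨n, N, fun _ => ⟨hN, ?_⟩⟩
      rw [iSup_pos ⟨x, hx1⟩]
      calc ENNReal.ofReal ((((b : ℝ) ^ s)⁻¹) ^ n)
          ≤ ENNReal.ofReal ((b : ℝ) ^ s * (ediam (t i)).toReal ^ s + e * (1 / 2) ^ (i + 1)) :=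
            ENNReal.ofReal_le_ofReal hn2
        _ = ENNReal.ofReal ((b : ℝ) ^ s) * ediam (t i) ^ s +
              ENNReal.ofReal (e * (1 / 2) ^ (i + 1)) := by
            rw [ENNReal.ofReal_add (by positivity) (by positivity),
              ENNReal.ofReal_mul (by positivity), ← ENNReal.ofReal_rpow_of_nonneg
              ENNReal.toReal_nonneg hs.le, ENNReal.ofReal_toReal hfin]
    · exact ⟨0, 0, fun h => absurd h hi⟩
  choose n N hnN using hch
  set I : Set ℕ := {i | (t i ∩ lev F y).Nonempty} with hI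
  have hcov : lev F y ⊆ ⋃ i ∈ I, Oo b (n i) (N i) := by
    intro x hx
    obtain ⟨i, hi⟩ := mem_iUnion.mp (ht1 hx)
    have hiI : i ∈ I := ⟨x, hi, hx⟩
    rw [mem_iUnion₂]
    exact ⟨i, hiI, (hnN i hiI).1 hi⟩
  obtain ⟨I', hI'1, hI'2, hI'3⟩ := (isCompact_lev hF y).elim_finite_subcover_image
    (fun i _ => isOpen_Ioo) hcov
  refine ⟨hI'2.toFinset.image (fun i => (n i, N i)), ?_, ?_⟩
  · intro x hx
    have := hI'3 hx
    rw [mem_iUnion₂] at this
    obtain ⟨i, hi, hxi⟩ := this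
    rw [mem_iUnion₂]
    refine ⟨(n i, N i), ?_, hxi⟩
    rw [Finset.mem_image]
    exact ⟨i, hI'2.mem_toFinset.mpr hi, rfl⟩
  · have himg : ∑ p ∈ hI'2.toFinset.image (fun i => (n i, N i)),
        ENNReal.ofReal ((((b : ℝ) ^ s)⁻¹) ^ p.1) ≤
        ∑ i ∈ hI'2.toFinset, ENNReal.ofReal ((((b : ℝ) ^ s)⁻¹) ^ n i) := by
      have := sum_biUnion_le hI'2.toFinset (fun i => {(n i, N i)})
        (fun p : ℕ × ℕ => ENNReal.ofReal ((((b : ℝ) ^ s)⁻¹) ^ p.1))
      rw [Finset.biUnion_singleton] at this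
      simpa using this
    refine himg.trans ?_
    calc ∑ i ∈ hI'2.toFinset, ENNReal.ofReal ((((b : ℝ) ^ s)⁻¹) ^ n i)
        ≤ ∑ i ∈ hI'2.toFinset, (ENNReal.ofReal ((b : ℝ) ^ s) *
          (⨆ _ : (t i).Nonempty, ediam (t i) ^ s) + ENNReal.ofReal (e * (1 / 2) ^ (i + 1))) :=
          Finset.sum_le_sum fun i hi => (hnN i (hI'1 (hI'2.mem_toFinset.mp hi))).2
      _ = ENNReal.ofReal ((b : ℝ) ^ s) * (∑ i ∈ hI'2.toFinset,
          (⨆ _ : (t i).Nonempty, ediam (t i) ^ s)) +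
          ∑ i ∈ hI'2.toFinset, ENNReal.ofReal (e * (1 / 2) ^ (i + 1)) := by
          rw [Finset.sum_add_distrib, Finset.mul_sum]
      _ ≤ ENNReal.ofReal ((b : ℝ) ^ s) * ENNReal.ofReal e + ENNReal.ofReal e := by
          gcongr
          · exact (ENNReal.sum_le_tsum _).trans ht3.le
          · refine (ENNReal.sum_le_tsum _).trans ?_
            rw [← ENNReal.ofReal_tsum_of_nonneg (fun i => by positivity)]
            · apply ENNReal.ofReal_le_ofReal
              rw [tsum_mul_left]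
              have : ∑' i : ℕ, ((1 : ℝ) / 2) ^ (i + 1) = 1 := by
                simp_rw [pow_succ]
                rw [tsum_mul_right, tsum_geometric_two]
                norm_num
              rw [this, mul_one]
            · apply Summable.mul_left
              have := summable_geometric_two
              exact (summable_nat_add_iff 1).mpr this

theorem Good.ell_eq_zero (h : Good b α F C0 C1) {s : ℝ} (hs0 : 0 < s) (hs : s < 1 - α) :
    ∀ᵐ y : ℝ, Measure.hausdorffMeasure s (lev F y) = 0 → ell F (Jo b 0 0) y = 0 := by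
  have hb := h.hb
  have hbr : (2 : ℝ) ≤ b := by exact_mod_cast hb
  have hb0 : (0 : ℝ) < b := by linarith
  filter_upwards [h.cover_ineq, h.enS_lt_top hs] with y hcov hen hH
  have hbs : (0 : ℝ) < (b : ℝ) ^ s := by positivity
  -- AM-GM
  have hamgm : ∀ (κ : ℝ) (_ : 0 < κ) (n : ℕ) (x : ℝ≥0∞),
      x ≤ ENNReal.ofReal κ * (ENNReal.ofReal (((b : ℝ) ^ s) ^ n) * x ^ 2) +
        ENNReal.ofReal κ⁻¹ * ENNReal.ofReal ((((b : ℝ) ^ s)⁻¹) ^ n) := by
    intro κ hκ n x
    have hX : 0 < κ * ((b : ℝ) ^ s) ^ n := by positivity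
    by_cases hx : x ≤ ENNReal.ofReal (κ * ((b : ℝ) ^ s) ^ n)⁻¹
    · refine hx.trans ?_
      rw [mul_inv, ENNReal.ofReal_mul (by positivity), inv_pow]
      exact le_add_self
    · push Not at hx
      refine le_trans ?_ le_self_add
      rw [← mul_assoc, ← ENNReal.ofReal_mul hκ.le, pow_two, ← mul_assoc]
      calc x = 1 * x := (one_mul x).symm
        _ ≤ ENNReal.ofReal (κ * ((b : ℝ) ^ s) ^ n) * x * x := by
          gcongr
          calc (1 : ℝ≥0∞) = ENNReal.ofReal (κ * ((b : ℝ) ^ s) ^ n) *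
                ENNReal.ofReal (κ * ((b : ℝ) ^ s) ^ n)⁻¹ := by
                rw [← ENNReal.ofReal_mul hX.le, mul_inv_cancel₀ hX.ne', ENNReal.ofReal_one]
            _ ≤ _ := by gcongr
  -- the bound for every κ
  have hbound : ∀ κ : ℝ, 0 < κ → ell F (Jo b 0 0) y ≤ ENNReal.ofReal κ *
      (enS b F s y + 5 * (ENNReal.ofReal ((b : ℝ) ^ s) + 1)) := by
    intro κ hκ
    obtain ⟨A, hA1, hA2⟩ := exists_cover hb h.cont hs0 hH (e := κ ^ 2) (by positivity)
    have h1 := hcov A hA1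
    refine h1.trans ?_
    calc ∑ q ∈ A.biUnion (nbr b), ell F (Jo b q.1 q.2) y
        ≤ ∑ q ∈ A.biUnion (nbr b), (ENNReal.ofReal κ * (ENNReal.ofReal (((b : ℝ) ^ s) ^ q.1) *
            ell F (Jo b q.1 q.2) y ^ 2) +
            ENNReal.ofReal κ⁻¹ * ENNReal.ofReal ((((b : ℝ) ^ s)⁻¹) ^ q.1)) :=
          Finset.sum_le_sum fun q _ => hamgm κ hκ _ _
      _ = ENNReal.ofReal κ * (∑ q ∈ A.biUnion (nbr b), ENNReal.ofReal (((b : ℝ) ^ s) ^ q.1) *
            ell F (Jo b q.1 q.2) y ^ 2) +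
            ENNReal.ofReal κ⁻¹ * ∑ q ∈ A.biUnion (nbr b),
              ENNReal.ofReal ((((b : ℝ) ^ s)⁻¹) ^ q.1) := by
          rw [Finset.sum_add_distrib, Finset.mul_sum, Finset.mul_sum]
      _ ≤ ENNReal.ofReal κ * enS b F s y + ENNReal.ofReal κ⁻¹ *
            (5 * (ENNReal.ofReal ((b : ℝ) ^ s) * ENNReal.ofReal (κ ^ 2) +
              ENNReal.ofReal (κ ^ 2))) := by
          gcongr
          · -- the energy part
            set S := A.biUnion (nbr b) with hS
            have hsub : S ⊆ (S.image Prod.fst).biUnion (fun n =>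
                (Finset.range (b ^ n)).image (fun N => (n, N))) := by
              intro q hq
              rw [Finset.mem_biUnion]
              refine ⟨q.1, Finset.mem_image_of_mem _ hq, ?_⟩
              rw [Finset.mem_image]
              refine ⟨q.2, ?_, rfl⟩
              rw [hS, Finset.mem_biUnion] at hq
              obtain ⟨p, _, hp⟩ := hq
              rw [mem_nbr] at hp
              rw [Finset.mem_range, hp.1]
              exact hp.2.1
            calc ∑ q ∈ S, ENNReal.ofReal (((b : ℝ) ^ s) ^ q.1) * ell F (Jo b q.1 q.2) y ^ 2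
                ≤ ∑ q ∈ (S.image Prod.fst).biUnion (fun n =>
                    (Finset.range (b ^ n)).image (fun N => (n, N))),
                    ENNReal.ofReal (((b : ℝ) ^ s) ^ q.1) * ell F (Jo b q.1 q.2) y ^ 2 :=
                  Finset.sum_le_sum_of_subset hsub
              _ ≤ ∑ n ∈ S.image Prod.fst, ∑ q ∈ (Finset.range (b ^ n)).image (fun N => (n, N)),
                    ENNReal.ofReal (((b : ℝ) ^ s) ^ q.1) * ell F (Jo b q.1 q.2) y ^ 2 :=
                  sum_biUnion_le _ _ _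
              _ = ∑ n ∈ S.image Prod.fst, ENNReal.ofReal (((b : ℝ) ^ s) ^ n) *
                    ∑ N ∈ Finset.range (b ^ n), ell F (Jo b n N) y ^ 2 := by
                  refine Finset.sum_congr rfl fun n _ => ?_
                  rw [Finset.sum_image, Finset.mul_sum]
                  intro x _ y _ hxy
                  exact (Prod.mk.inj hxy).2
              _ ≤ enS b F s y := ENNReal.sum_le_tsum _
          · calc ∑ q ∈ A.biUnion (nbr b), ENNReal.ofReal ((((b : ℝ) ^ s)⁻¹) ^ q.1)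
                ≤ ∑ p ∈ A, ∑ q ∈ nbr b p, ENNReal.ofReal ((((b : ℝ) ^ s)⁻¹) ^ q.1) :=
                  sum_biUnion_le _ _ _
              _ ≤ ∑ p ∈ A, 5 * ENNReal.ofReal ((((b : ℝ) ^ s)⁻¹) ^ p.1) := by
                  refine Finset.sum_le_sum fun p _ => ?_
                  calc ∑ q ∈ nbr b p, ENNReal.ofReal ((((b : ℝ) ^ s)⁻¹) ^ q.1)
                      = ∑ q ∈ nbr b p, ENNReal.ofReal ((((b : ℝ) ^ s)⁻¹) ^ p.1) := by
                        refine Finset.sum_congr rfl fun q hq => ?_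
                        rw [(mem_nbr.mp hq).1]
                    _ = (nbr b p).card * ENNReal.ofReal ((((b : ℝ) ^ s)⁻¹) ^ p.1) := by
                        rw [Finset.sum_const, nsmul_eq_mul]
                    _ ≤ _ := by
                        gcongr
                        exact_mod_cast card_nbr b p
              _ = 5 * ∑ p ∈ A, ENNReal.ofReal ((((b : ℝ) ^ s)⁻¹) ^ p.1) := by
                  rw [Finset.mul_sum]
              _ ≤ _ := by gcongr
      _ = ENNReal.ofReal κ * (enS b F s y + 5 * (ENNReal.ofReal ((b : ℝ) ^ s) + 1)) := by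
          have e1 : ENNReal.ofReal κ⁻¹ * ENNReal.ofReal (κ ^ 2) = ENNReal.ofReal κ := by
            rw [← ENNReal.ofReal_mul (by positivity)]
            congr 1
            field_simp
          rw [mul_add, ← e1]
          ring
  have hfin : enS b F s y + 5 * (ENNReal.ofReal ((b : ℝ) ^ s) + 1) ≠ ∞ := by
    apply ENNReal.add_ne_top.mpr ⟨hen.ne, ?_⟩
    apply ENNReal.mul_ne_top (by simp)
    simp
  have hlim : Tendsto (fun k : ℕ => ENNReal.ofReal (1 / ((k : ℝ) + 1)) *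
      (enS b F s y + 5 * (ENNReal.ofReal ((b : ℝ) ^ s) + 1))) atTop (𝓝 0) := by
    have h1 : Tendsto (fun k : ℕ => ENNReal.ofReal (1 / ((k : ℝ) + 1))) atTop (𝓝 0) := by
      rw [← ENNReal.ofReal_zero]
      exact ENNReal.tendsto_ofReal tendsto_one_div_add_atTop_nhds_zero_nat
    have h2 := ENNReal.Tendsto.mul_const h1 (Or.inr hfin)
    simpa using h2
  refine le_antisymm ?_ zero_le
  exact ge_of_tendsto hlim (Eventually.of_forall fun k => hbound _ (by positivity))

/-- The density is positive almost everywhere on the range. -/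
theorem Good.ell_ne_zero (h : Good b α F C0 C1) :
    ∀ᵐ y : ℝ, y ∈ F '' Icc 0 1 → ell F (Jo b 0 0) y ≠ 0 := by
  have hb := h.hb
  have hC0 := h.hC0
  have hC1 := h.hC1
  have hbr : (2 : ℝ) ≤ b := by exact_mod_cast hb
  have hb0 : (0 : ℝ) < b := by linarith
  have hα0 := h.hα0
  set lam : ℝ := (b : ℝ) ^ (-α) with hlam
  have hlam0 : 0 < lam := by positivity
  have hlam1 : lam < 1 := Real.rpow_lt_one_of_one_lt_of_neg (by linarith) (by linarith)
  set Z : Set ℝ := F '' Icc 0 1 ∩ {y | ell F (Jo b 0 0) y = 0} with hZ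
  have hZm : MeasurableSet Z :=
    (isCompact_Icc.image h.cont).measurableSet.inter
      ((measurable_ell _ _) (measurableSet_singleton 0))
  have hdens := Besicovitch.ae_tendsto_measure_inter_div_of_measurableSet (volume : Measure ℝ) hZm
  filter_upwards [hdens] with y hy hyR hy0
  have hyZ : y ∈ Z := ⟨hyR, hy0⟩
  rw [indicator_of_mem hyZ, Pi.one_apply] at hy
  obtain ⟨t, ht, hty⟩ := hyR
  have hr0 : ∀ n : ℕ, 0 < C0 * lam ^ n := fun n => by positivity
  have hrt : Tendsto (fun n : ℕ => C0 * lam ^ n) atTop (𝓝[>] 0) := by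
    rw [tendsto_nhdsWithin_iff]
    refine ⟨?_, Eventually.of_forall hr0⟩
    have := (tendsto_pow_atTop_nhds_zero_of_lt_one hlam0.le hlam1).const_mul C0
    simpa using this
  have hlim := hy.comp hrt
  have hc : 0 < 1 / (2 * C0 * C1) := by positivity
  -- the crucial bound
  have hkey : ∀ n : ℕ, volume (Z ∩ closedBall y (C0 * lam ^ n)) /
      volume (closedBall y (C0 * lam ^ n)) ≤ ENNReal.ofReal (1 - 1 / (2 * C0 * C1)) := by
    intro n
    obtain ⟨N, hN, htN⟩ := exists_Jc hb n ht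
    have hbn : (0 : ℝ) < (b : ℝ) ^ n := by positivity
    set B := closedBall y (C0 * lam ^ n) with hB
    have hBm : MeasurableSet B := measurableSet_closedBall
    -- the image of the interval lies in the ball
    have hsub : Jo b n N ⊆ F ⁻¹' B := by
      intro u hu
      rw [mem_preimage, hB, mem_closedBall, Real.dist_eq, ← hty]
      apply h.osc n N hN u _ t htN
      unfold Jo at hu
      exact ⟨hu.1, hu.2.le⟩
    have h1 : occ F (Jo b n N) B = ENNReal.ofReal (((b : ℝ) ^ n)⁻¹) := by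
      rw [occ_apply h.cont.measurable hBm, inter_eq_self_of_subset_right hsub, volume_Jo]
    have h2 : occ F (Jo b n N) Z = 0 := by
      have h3 : occ F (Jo b 0 0) Z = 0 := by
        rw [← h.setL (by positivity)]
        rw [setLIntegral_congr_fun hZm (g := fun _ => 0) (fun x hx => hx.2)]
        simp
      refine le_antisymm ?_ zero_le
      rw [← h3, occ_apply h.cont.measurable hZm, occ_apply h.cont.measurable hZm, Jo_zero]
      exact measure_mono (inter_subset_inter_right _ (Jo_subset hb hN))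
    have h3 : ENNReal.ofReal (((b : ℝ) ^ n)⁻¹) ≤ occ F (Jo b n N) (B \ Z) := by
      rw [← h1]
      calc occ F (Jo b n N) B ≤ occ F (Jo b n N) (B \ Z ∪ Z) := by
            apply measure_mono
            intro x hx
            by_cases hxZ : x ∈ Z
            · exact Or.inr hxZ
            · exact Or.inl ⟨hx, hxZ⟩
        _ ≤ occ F (Jo b n N) (B \ Z) + occ F (Jo b n N) Z := measure_union_le _ _
        _ = _ := by rw [h2, add_zero]
    have h4 : occ F (Jo b n N) (B \ Z) ≤ volume (B \ Z) ^ (1 / 2 : ℝ) *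
        (ENNReal.ofReal (C1 * (((b : ℝ) ^ n)⁻¹ ^ 2 * (lam ^ n)⁻¹))) ^ (1 / 2 : ℝ) := by
      rw [← h.setL hN]
      refine (cauchy_schwarz_indicator (measurable_ell _ _) (hBm.diff hZm)).trans ?_
      gcongr
      exact h.sq_le hN
    have hBfin : volume B ≠ ∞ := by
      rw [hB, Real.volume_closedBall]; exact ENNReal.ofReal_ne_top
    have hdfin : volume (B \ Z) ≠ ∞ := ne_top_of_le_ne_top hBfin (measure_mono sdiff_subset)
    set v : ℝ := (volume (B \ Z)).toReal with hv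
    have hv0 : 0 ≤ v := ENNReal.toReal_nonneg
    have hvv : volume (B \ Z) = ENNReal.ofReal v := (ENNReal.ofReal_toReal hdfin).symm
    have h5 : ((b : ℝ) ^ n)⁻¹ ≤ v ^ (1 / 2 : ℝ) *
        (C1 * (((b : ℝ) ^ n)⁻¹ ^ 2 * (lam ^ n)⁻¹)) ^ (1 / 2 : ℝ) := by
      have := h3.trans h4
      rw [hvv, ENNReal.ofReal_rpow_of_nonneg hv0 (by positivity),
        ENNReal.ofReal_rpow_of_nonneg (by positivity) (by positivity),
        ← ENNReal.ofReal_mul (by positivity),
        ENNReal.ofReal_le_ofReal_iff (by positivity)] at this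
      exact this
    have h6 : lam ^ n / C1 ≤ v := by
      rw [← Real.sqrt_eq_rpow, ← Real.sqrt_eq_rpow, ← Real.sqrt_mul hv0] at h5
      rw [Real.le_sqrt (by positivity) (by positivity)] at h5
      rw [div_le_iff₀ hC1]
      have h7 : (((b : ℝ) ^ n)⁻¹) ^ 2 * lam ^ n ≤ (((b : ℝ) ^ n)⁻¹) ^ 2 * (v * C1) := by
        calc (((b : ℝ) ^ n)⁻¹) ^ 2 * lam ^ n ≤
              (v * (C1 * (((b : ℝ) ^ n)⁻¹ ^ 2 * (lam ^ n)⁻¹))) * lam ^ n := by gcongr
          _ = (((b : ℝ) ^ n)⁻¹) ^ 2 * (v * C1) := by field_simp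
      exact le_of_mul_le_mul_left h7 (by positivity)
    have hsplit : volume (Z ∩ B) + volume (B \ Z) = volume B := by
      rw [inter_comm]
      exact measure_inter_add_sdiff B hZm
    have hvolB : volume B = ENNReal.ofReal (2 * (C0 * lam ^ n)) := by
      rw [hB, Real.volume_closedBall]
    have h8 : volume (Z ∩ B) ≤ ENNReal.ofReal ((1 - 1 / (2 * C0 * C1)) * (2 * (C0 * lam ^ n))) := by
      have hfinZ : volume (Z ∩ B) ≠ ∞ := ne_top_of_le_ne_top hBfin (measure_mono inter_subset_right)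
      rw [← ENNReal.ofReal_toReal hfinZ]
      apply ENNReal.ofReal_le_ofReal
      have h9 : (volume (Z ∩ B)).toReal + v = 2 * (C0 * lam ^ n) := by
        rw [hv, ← ENNReal.toReal_add hfinZ hdfin, hsplit, hvolB, ENNReal.toReal_ofReal]
        positivity
      have h10 : (1 - 1 / (2 * C0 * C1)) * (2 * (C0 * lam ^ n)) =
          2 * (C0 * lam ^ n) - lam ^ n / C1 := by field_simp
      rw [h10]
      linarith
    have hlamn : 0 < 2 * (C0 * lam ^ n) := by positivity
    rw [hvolB]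
    apply ENNReal.div_le_of_le_mul
    refine h8.trans (le_of_eq ?_)
    rw [ENNReal.ofReal_mul' hlamn.le]
  have h11 : (1 : ℝ≥0∞) ≤ ENNReal.ofReal (1 - 1 / (2 * C0 * C1)) :=
    le_of_tendsto hlim (Eventually.of_forall hkey)
  rw [← ENNReal.ofReal_one, ENNReal.ofReal_le_ofReal_iff'] at h11
  rcases h11 with h11 | h11 <;> linarith

/-- **Dimension of almost every level set.** -/
theorem Good.dimH_eq (h : Good b α F C0 C1) :
    ∀ᵐ y : ℝ, y ∈ F '' Icc 0 1 → dimH (lev F y) = ENNReal.ofReal (1 - α) := by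
  have hα1 := h.hα1
  have hall : ∀ k : ℕ, ∀ᵐ y : ℝ,
      Measure.hausdorffMeasure ((1 - α) * (1 - 1 / ((k : ℝ) + 2))) (lev F y) = 0 →
        ell F (Jo b 0 0) y = 0 := by
    intro k
    have hk : (1 : ℝ) / (k + 2) < 1 := by
      rw [div_lt_one (by positivity)]
      have : (0 : ℝ) ≤ k := by positivity
      linarith
    have hk0 : (0 : ℝ) < 1 / (k + 2) := by positivity
    apply h.ell_eq_zero
    · apply mul_pos <;> linarith
    · nlinarith
  rw [← ae_all_iff] at hall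
  filter_upwards [hall, h.ell_ne_zero, dimH_le_ae h] with y hy hne hup hyR
  refine le_antisymm hup ?_
  have h1 : ∀ k : ℕ, ENNReal.ofReal ((1 - α) * (1 - 1 / ((k : ℝ) + 2))) ≤ dimH (lev F y) := by
    intro k
    have hk : (1 : ℝ) / (k + 2) < 1 := by
      rw [div_lt_one (by positivity)]
      have : (0 : ℝ) ≤ k := by positivity
      linarith
    have hpos : 0 ≤ (1 - α) * (1 - 1 / ((k : ℝ) + 2)) := by
      apply mul_nonneg <;> linarith
    have h2 := le_dimH_of_hausdorffMeasure_ne_zero (s := lev F y)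
      (d := Real.toNNReal ((1 - α) * (1 - 1 / ((k : ℝ) + 2)))) (by
        rw [Real.coe_toNNReal _ hpos]
        intro hcon
        exact hne hyR (hy k hcon))
    exact h2
  have hlim : Tendsto (fun k : ℕ => ENNReal.ofReal ((1 - α) * (1 - 1 / ((k : ℝ) + 2)))) atTop
      (𝓝 (ENNReal.ofReal (1 - α))) := by
    apply ENNReal.tendsto_ofReal
    have h3 : Tendsto (fun k : ℕ => (1 : ℝ) / ((k : ℝ) + 2)) atTop (𝓝 0) := by
      have h4 := (tendsto_add_atTop_iff_nat 1).mpr (tendsto_one_div_add_atTop_nhds_zero_nat (𝕜 := ℝ))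
      refine h4.congr fun k => ?_
      push_cast
      ring
    have h5 := (h3.const_sub 1).const_mul (1 - α)
    simpa using h5
  exact le_of_tendsto hlim (Eventually.of_forall h1)

end

end Pool.Agent.Work.MP_22f354_an
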