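import Pool.Agent.Work.MP_22f354_an.Lip
import Pool.Agent.Work.MP_22f354_an.Config
import Pool.Agent.Work.MP_22f354_an.LevelLower

/-!
Rescaled copies of the Weierstrass function on `b`-adic intervals.
-/

set_option autoImplicit false

namespace Pool.Agent.Work.MP_22f354_an

open Set Filter Topology MeasureTheory
open scoped NNReal ENNReal

/-- the rescaled function on the interval `(n, N)` -/
noncomputable def hc (b : ℕ) (α : ℝ) (n N : ℕ) (g : LipS) (z : ℝ) : ℝ :=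
  (lam b α ^ n)⁻¹ * FW b α g (pt b n N z)

/-- characteristic function of the distribution of the rescaled function -/
noncomputable def mh (b : ℕ) (α : ℝ) (n N : ℕ) (g : LipS) (ξ : ℝ) : ℂ :=
  ∫ z in Ico (0 : ℝ) 1, Complex.exp (Complex.I * ξ * hc b α n N g z)

section
variable {b : ℕ} {α : ℝ}

lemma continuous_hc (hb : 2 ≤ b) (hα : 0 < α) (n N : ℕ) :
    Continuous (fun p : LipS × ℝ => hc b α n N p.1 p.2) := by
  unfold hc pt
  have h := continuous_FW_pair hb hα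
  have h2 : Continuous (fun p : LipS × ℝ => (p.1, ((N : ℝ) + p.2) / (b : ℝ) ^ n)) := by fun_prop
  exact continuous_const.mul (h.comp h2)

lemma hc_add (hb : 2 ≤ b) (hα : 0 < α) (n N : ℕ) (f g : LipS) (z : ℝ) :
    hc b α n N (f + g) z = hc b α n N f z + hc b α n N g z := by
  unfold hc
  rw [FW_add hb hα]; ring

lemma hc_smul (hb : 2 ≤ b) (n N : ℕ) (c : ℝ) (g : LipS) (z : ℝ) :
    hc b α n N (c • g) z = c * hc b α n N g z := by
  unfold hc
  rw [FW_smul hb]; ring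

/-- the characteristic function on a `b`-adic interval in terms of the rescaled function -/
theorem chf_eq_mh (hb : 2 ≤ b) (n N : ℕ) (g : LipS) (ξ : ℝ) :
    chf (FW b α g) (Jo b n N) ξ = ((((b : ℝ) ^ n)⁻¹ : ℝ) : ℂ) * mh b α n N g (lam b α ^ n * ξ) := by
  have hb0 : (0 : ℝ) < (b : ℝ) ^ n := by positivity
  have hl0 : 0 < lam b α := lam_pos hb
  unfold chf mh Jo
  rw [integral_Ico_eq_integral_Ioc, integral_Ico_eq_integral_Ioc,
    ← intervalIntegral.integral_of_le (by gcongr; linarith),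
    ← intervalIntegral.integral_of_le zero_le_one]
  have h := intervalIntegral.integral_comp_div_add (a := 0) (b := 1)
    (fun t : ℝ => Complex.exp (Complex.I * ξ * FW b α g t)) hb0.ne' ((N : ℝ) / b ^ n)
  have e1 : (0 : ℝ) / (b : ℝ) ^ n + (N : ℝ) / b ^ n = (N : ℝ) / b ^ n := by simp
  have e2 : (1 : ℝ) / (b : ℝ) ^ n + (N : ℝ) / b ^ n = ((N : ℝ) + 1) / b ^ n := by
    rw [← add_div, add_comm]
  rw [e1, e2] at h
  have h2 : ∫ t in (N : ℝ) / b ^ n..((N : ℝ) + 1) / b ^ n, Complex.exp (Complex.I * ξ * FW b α g t) =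
      ((((b : ℝ) ^ n)⁻¹ : ℝ) : ℂ) * ∫ x in (0 : ℝ)..1,
        Complex.exp (Complex.I * ξ * FW b α g (x / b ^ n + N / b ^ n)) := by
    rw [h, Complex.real_smul, ← mul_assoc, ← Complex.ofReal_mul, inv_mul_cancel₀ hb0.ne']
    simp
  rw [h2]
  congr 1
  apply intervalIntegral.integral_congr
  intro x _
  simp only
  congr 1
  unfold hc pt
  have e3 : x / (b : ℝ) ^ n + (N : ℝ) / b ^ n = ((N : ℝ) + x) / b ^ n := by
    rw [← add_div, add_comm]
  rw [e3]
  push_cast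
  have : (lam b α : ℂ) ^ n ≠ 0 := by
    apply pow_ne_zero
    exact_mod_cast hl0.ne'
  field_simp

/-- splitting of the defining series -/
lemma FW_split (hb : 2 ≤ b) (hα : 0 < α) (g : LipS) (t : ℝ) (m : ℕ) :
    FW b α g t = ∑ k ∈ Finset.range m,
      lam b α ^ k * g ((((b : ℝ) ^ k * t : ℝ)) : UnitAddCircle) +
      lam b α ^ m * FW b α g ((b : ℝ) ^ m * t) := by
  rw [FW_eq hb, FW_eq hb, ← (summable_FW hb hα g t).sum_add_tsum_nat_add m, ← tsum_mul_left]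
  congr 1
  apply tsum_congr
  intro k
  have e1 : (b : ℝ) ^ (k + m) * t = (b : ℝ) ^ k * ((b : ℝ) ^ m * t) := by ring
  rw [e1]
  ring

/-- sum of a geometric progression -/
lemma geom_le {r : ℝ} (hr : 1 < r) (n L : ℕ) (hL : L ≤ n) :
    ∑ k ∈ Finset.range (n - L), r ^ k ≤ r ^ n * (r ^ L)⁻¹ * (r - 1)⁻¹ := by
  rw [geom_sum_eq (by linarith)]
  have h1 : r ^ n * (r ^ L)⁻¹ = r ^ (n - L) := by
    rw [← pow_sub₀ _ (by linarith) hL]
  rw [h1, div_eq_mul_inv]
  have : 0 < (r - 1)⁻¹ := inv_pos.mpr (by linarith)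
  gcongr
  linarith

/-- head of the series: the difference at two points -/
lemma head_le (hb : 2 ≤ b) (hα1 : α < 1) (g : LipS) (s t : ℝ) (n L : ℕ) (hL : L ≤ n)
    (hst : |s - t| ≤ ((b : ℝ) ^ n)⁻¹) :
    |∑ k ∈ Finset.range (n - L), lam b α ^ k * g ((((b : ℝ) ^ k * s : ℝ)) : UnitAddCircle) -
      ∑ k ∈ Finset.range (n - L), lam b α ^ k * g ((((b : ℝ) ^ k * t : ℝ)) : UnitAddCircle)| ≤
      ‖g‖ * lam b α ^ n * ((lam b α * b) ^ L)⁻¹ * (lam b α * b - 1)⁻¹ := by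
  have hl0 : 0 < lam b α := lam_pos hb
  have hr := one_lt_lam_mul hb hα1
  rw [← Finset.sum_sub_distrib]
  calc |∑ k ∈ Finset.range (n - L), (lam b α ^ k * g ((((b : ℝ) ^ k * s : ℝ)) : UnitAddCircle) -
      lam b α ^ k * g ((((b : ℝ) ^ k * t : ℝ)) : UnitAddCircle))|
      ≤ ∑ k ∈ Finset.range (n - L), |lam b α ^ k * g ((((b : ℝ) ^ k * s : ℝ)) : UnitAddCircle) -
      lam b α ^ k * g ((((b : ℝ) ^ k * t : ℝ)) : UnitAddCircle)| := Finset.abs_sum_le_sum_abs _ _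
    _ ≤ ∑ k ∈ Finset.range (n - L), ‖g‖ * ((b : ℝ) ^ n)⁻¹ * (lam b α * b) ^ k := by
        refine Finset.sum_le_sum fun k _ => ?_
        rw [← mul_sub, abs_mul, abs_of_pos (pow_pos hl0 k)]
        calc lam b α ^ k * |g ((((b : ℝ) ^ k * s : ℝ)) : UnitAddCircle) -
              g ((((b : ℝ) ^ k * t : ℝ)) : UnitAddCircle)|
            ≤ lam b α ^ k * (‖g‖ * |(b : ℝ) ^ k * s - (b : ℝ) ^ k * t|) := by
              gcongr
              refine (g.abs_sub_le _ _).trans ?_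
              gcongr
              exact dist_coe_le _ _
          _ = lam b α ^ k * (‖g‖ * ((b : ℝ) ^ k * |s - t|)) := by
              rw [← mul_sub, abs_mul, abs_of_pos (by positivity : (0 : ℝ) < (b : ℝ) ^ k)]
          _ ≤ lam b α ^ k * (‖g‖ * ((b : ℝ) ^ k * ((b : ℝ) ^ n)⁻¹)) := by gcongr
          _ = ‖g‖ * ((b : ℝ) ^ n)⁻¹ * (lam b α * b) ^ k := by rw [mul_pow]; ring
    _ = ‖g‖ * ((b : ℝ) ^ n)⁻¹ * ∑ k ∈ Finset.range (n - L), (lam b α * b) ^ k := by
        rw [Finset.mul_sum]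
    _ ≤ ‖g‖ * ((b : ℝ) ^ n)⁻¹ * ((lam b α * b) ^ n * ((lam b α * b) ^ L)⁻¹ *
          (lam b α * b - 1)⁻¹) := by
        gcongr
        exact geom_le hr n L hL
    _ = _ := by
        have hb0 : (0 : ℝ) < (b : ℝ) ^ n := by positivity
        rw [mul_pow (lam b α) (b : ℝ) n]
        field_simp

/-- oscillation bound -/
theorem osc_le (hb : 2 ≤ b) (hα : 0 < α) (hα1 : α < 1) (g : LipS) (s t : ℝ) (n : ℕ)
    (hst : |s - t| ≤ ((b : ℝ) ^ n)⁻¹) :
    |FW b α g s - FW b α g t| ≤ ‖g‖ * ((lam b α * b - 1)⁻¹ + 2 * (1 - lam b α)⁻¹) *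
      lam b α ^ n := by
  have hl0 : 0 < lam b α := lam_pos hb
  rw [FW_split hb hα g s n, FW_split hb hα g t n]
  have h1 := head_le hb hα1 g s t n 0 (Nat.zero_le _) hst
  rw [Nat.sub_zero, pow_zero, inv_one, mul_one] at h1
  have h2 := abs_FW_le (α := α) hb hα g ((b : ℝ) ^ n * s)
  have h3 := abs_FW_le (α := α) hb hα g ((b : ℝ) ^ n * t)
  have h4 : |lam b α ^ n * FW b α g ((b : ℝ) ^ n * s) - lam b α ^ n * FW b α g ((b : ℝ) ^ n * t)| ≤
      lam b α ^ n * (2 * ((1 - lam b α)⁻¹ * ‖g‖)) := by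
    rw [← mul_sub, abs_mul, abs_of_pos (pow_pos hl0 n)]
    gcongr
    calc |FW b α g ((b : ℝ) ^ n * s) - FW b α g ((b : ℝ) ^ n * t)|
        ≤ |FW b α g ((b : ℝ) ^ n * s)| + |FW b α g ((b : ℝ) ^ n * t)| := abs_sub _ _
      _ ≤ _ := by linarith
  have h5 : ∀ A B C D : ℝ, |A + B - (C + D)| ≤ |A - C| + |B - D| := by
    intro A B C D
    have : A + B - (C + D) = (A - C) + (B - D) := by ring
    rw [this]
    exact abs_add_le _ _
  refine (h5 _ _ _ _).trans ?_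
  refine (add_le_add h1 h4).trans (le_of_eq ?_)
  ring

/-- comparison with a shallower context -/
theorem hc_deep (hb : 2 ≤ b) (hα : 0 < α) (hα1 : α < 1) (g : LipS) (n N L : ℕ) (hL : L ≤ n) :
    ∃ c : ℝ, ∀ z ∈ Ico (0 : ℝ) 1, |hc b α n N g z - (hc b α L (N % b ^ L) g z + c)| ≤
      ‖g‖ * (lam b α * b - 1)⁻¹ * ((lam b α * b) ^ L)⁻¹ := by
  have hl0 : 0 < lam b α := lam_pos hb
  have hbn : (0 : ℝ) < (b : ℝ) ^ n := by positivity
  have hbL : (0 : ℝ) < (b : ℝ) ^ L := by positivity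
  refine ⟨(lam b α ^ n)⁻¹ * ∑ k ∈ Finset.range (n - L),
    lam b α ^ k * g ((((b : ℝ) ^ k * pt b n N 0 : ℝ)) : UnitAddCircle), fun z hz => ?_⟩
  have htail : (lam b α ^ n)⁻¹ * (lam b α ^ (n - L) * FW b α g ((b : ℝ) ^ (n - L) * pt b n N z)) =
      hc b α L (N % b ^ L) g z := by
    unfold hc
    have e1 : lam b α ^ n = lam b α ^ (n - L) * lam b α ^ L := by
      rw [← pow_add]; congr 1; omega
    have e2 : FW b α g ((b : ℝ) ^ (n - L) * pt b n N z) = FW b α g (pt b L (N % b ^ L) z) := by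
      unfold FW
      congr 1
      unfold pt
      have e3 : (b : ℝ) ^ n = (b : ℝ) ^ (n - L) * (b : ℝ) ^ L := by
        rw [← pow_add]; congr 1; omega
      have e4 : (b : ℝ) ^ (n - L) * (((N : ℝ) + z) / b ^ n) =
          (((N % b ^ L : ℕ) : ℝ) + z) / b ^ L + ((N / b ^ L : ℕ) : ℝ) := by
        have e5 : (N : ℝ) = ((N / b ^ L : ℕ) : ℝ) * b ^ L + ((N % b ^ L : ℕ) : ℝ) := by
          have := Nat.div_add_mod' N (b ^ L)
          exact_mod_cast this.symm
        rw [e3]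
        nth_rewrite 1 [e5]
        field_simp
        ring
      rw [e4, AddCircle.coe_add]
      have e6 : (((N / b ^ L : ℕ) : ℝ) : UnitAddCircle) = 0 := by
        rw [AddCircle.coe_eq_zero_iff]
        exact ⟨((N / b ^ L : ℕ) : ℤ), by rw [zsmul_eq_mul, mul_one, Int.cast_natCast]⟩
      rw [e6, add_zero]
    rw [e2, e1]
    have := pow_pos hl0 (n - L)
    have := pow_pos hl0 L
    field_simp
  have h1 : hc b α n N g z - (hc b α L (N % b ^ L) g z + (lam b α ^ n)⁻¹ *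
      ∑ k ∈ Finset.range (n - L),
        lam b α ^ k * g ((((b : ℝ) ^ k * pt b n N 0 : ℝ)) : UnitAddCircle)) =
      (lam b α ^ n)⁻¹ * (∑ k ∈ Finset.range (n - L),
        lam b α ^ k * g ((((b : ℝ) ^ k * pt b n N z : ℝ)) : UnitAddCircle) -
        ∑ k ∈ Finset.range (n - L),
        lam b α ^ k * g ((((b : ℝ) ^ k * pt b n N 0 : ℝ)) : UnitAddCircle)) := by
    rw [← htail]
    unfold hc
    rw [FW_split hb hα g (pt b n N z) (n - L)]
    ring
  rw [h1, abs_mul, abs_of_pos (inv_pos.mpr (pow_pos hl0 n))]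
  have hst : |pt b n N z - pt b n N 0| ≤ ((b : ℝ) ^ n)⁻¹ := by
    unfold pt
    rw [← sub_div, abs_div, abs_of_pos hbn, add_sub_add_left_eq_sub, sub_zero, abs_of_nonneg hz.1,
      div_le_iff₀ hbn, inv_mul_cancel₀ hbn.ne']
    exact hz.2.le
  have h2 := head_le hb hα1 g _ _ n L hL hst
  calc (lam b α ^ n)⁻¹ * _ ≤ (lam b α ^ n)⁻¹ * (‖g‖ * lam b α ^ n * ((lam b α * b) ^ L)⁻¹ *
        (lam b α * b - 1)⁻¹) := by gcongr
    _ = _ := by
      have := pow_pos hl0 n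
      field_simp

end

end Pool.Agent.Work.MP_22f354_an
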