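import Pool.Agent.Work.MP_22f354_an.Occ

/-!
Absolute continuity of occupation measures and the `L²` bound of the density.
-/

set_option autoImplicit false

namespace Pool.Agent.Work.MP_22f354_an

open MeasureTheory Set Filter Topology Metric
open scoped ENNReal NNReal

lemma isFiniteMeasure_occ {F : ℝ → ℝ} {A : Set ℝ} (hAf : volume A ≠ ∞) :
    IsFiniteMeasure (occ F A) := by
  unfold occ
  have : IsFiniteMeasure (volume.restrict A) := by
    constructor
    rw [Measure.restrict_apply_univ]
    exact hAf.lt_top
  exact Measure.isFiniteMeasure_map _ _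

lemma occ_closedBall {F : ℝ → ℝ} (hF : Measurable F) (A : Set ℝ) (r y : ℝ) :
    occ F A (closedBall y r) = ∫⁻ t in A, (if |F t - y| ≤ r then 1 else 0) := by
  rw [occ_apply hF measurableSet_closedBall]
  have h1 : ∀ t : ℝ, (if |F t - y| ≤ r then (1 : ℝ≥0∞) else 0) =
      (F ⁻¹' closedBall y r).indicator 1 t := by
    intro t
    simp only [indicator, mem_preimage, mem_closedBall, Real.dist_eq, Pi.one_apply]
  simp_rw [h1]
  rw [lintegral_indicator_one (hF measurableSet_closedBall),
    Measure.restrict_apply (hF measurableSet_closedBall)]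

lemma measurable_ite_ball {F : ℝ → ℝ} (hF : Measurable F) (r : ℝ) :
    Measurable (fun q : ℝ × ℝ => (if |F q.2 - q.1| ≤ r then (1 : ℝ≥0∞) else 0)) := by
  apply Measurable.ite _ measurable_const measurable_const
  apply measurableSet_le _ measurable_const
  fun_prop

lemma measurable_occ_ball {F : ℝ → ℝ} (hF : Measurable F) {A : Set ℝ} (hAf : volume A ≠ ∞)
    (r : ℝ) : Measurable (fun y => occ F A (closedBall y r)) := by
  have hfin : IsFiniteMeasure (volume.restrict A) := by
    constructor
    rw [Measure.restrict_apply_univ]
    exact hAf.lt_top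
  simp_rw [occ_closedBall hF]
  exact (measurable_ite_ball hF r).lintegral_prod_right'

/-- The density of the occupation measure is square integrable. -/
theorem lintegral_rnDeriv_sq {F : ℝ → ℝ} (hF : Measurable F) {A : Set ℝ}
    (hAf : volume A ≠ ∞) (hI : Integrable (fun ξ => ‖chf F A ξ‖ ^ 2)) :
    ∫⁻ y, ((occ F A).rnDeriv volume y) ^ 2 ≤ ENNReal.ofReal (∫ ξ, ‖chf F A ξ‖ ^ 2) := by
  have hfin := isFiniteMeasure_occ (F := F) hAf
  set ν := occ F A with hν
  have hlim := Besicovitch.ae_tendsto_rnDeriv ν volume
  set rk : ℕ → ℝ := fun k => 1 / ((k : ℝ) + 1) with hrk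
  have hrk0 : ∀ k, 0 < rk k := fun k => by simp only [hrk]; positivity
  have hrkt : Tendsto rk atTop (𝓝[>] 0) := by
    rw [tendsto_nhdsWithin_iff]
    exact ⟨tendsto_one_div_add_atTop_nhds_zero_nat, Eventually.of_forall hrk0⟩
  have h1 : ∀ᵐ y : ℝ, (ν.rnDeriv volume y) ^ 2 =
      liminf (fun k => (ν (closedBall y (rk k)) / volume (closedBall y (rk k))) ^ 2) atTop := by
    filter_upwards [hlim] with y hy
    have h2 := (hy.comp hrkt)
    have h3 : Tendsto (fun k => (ν (closedBall y (rk k)) / volume (closedBall y (rk k))) ^ 2)
        atTop (𝓝 ((ν.rnDeriv volume y) ^ 2)) :=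
      ((ENNReal.continuous_pow 2).tendsto _).comp h2
    exact h3.liminf_eq.symm
  rw [lintegral_congr_ae h1]
  refine (lintegral_liminf_le ?_).trans ?_
  · intro k
    have h2 : ∀ y : ℝ, (ν (closedBall y (rk k)) / volume (closedBall y (rk k))) ^ 2 =
        (ν (closedBall y (rk k)) / ENNReal.ofReal (2 * rk k)) ^ 2 := by
      intro y
      rw [Real.volume_closedBall]
    simp_rw [h2]
    exact ((measurable_occ_ball hF hAf _).div_const _).pow_const _
  · refine liminf_le_of_le (by isBoundedDefault) ?_
    intro b hb
    obtain ⟨k, hk⟩ := hb.exists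
    exact hk.trans (occ_ball_sq hF hAf hI (hrk0 k))

lemma cauchy_schwarz_indicator {f : ℝ → ℝ≥0∞} (hf : Measurable f) {s : Set ℝ}
    (hs : MeasurableSet s) :
    (∫⁻ y in s, f y) ≤ volume s ^ (1 / 2 : ℝ) * (∫⁻ y, f y ^ 2) ^ (1 / 2 : ℝ) := by
  have h := ENNReal.lintegral_mul_le_Lp_mul_Lq volume
    (Real.HolderConjugate.two_two) (f := s.indicator 1) (g := f)
    ((measurable_const.indicator hs).aemeasurable) hf.aemeasurable
  have h1 : (∫⁻ y in s, f y) = ∫⁻ y, (s.indicator (1 : ℝ → ℝ≥0∞) * f) y := by
    rw [← lintegral_indicator hs]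
    congr 1
    funext y
    by_cases hy : y ∈ s
    · simp [hy]
    · simp [hy]
  rw [h1]
  refine h.trans ?_
  have h2 : ∫⁻ y, (s.indicator (1 : ℝ → ℝ≥0∞) y) ^ (2 : ℝ) = volume s := by
    have : ∀ y : ℝ, (s.indicator (1 : ℝ → ℝ≥0∞) y) ^ (2 : ℝ) = s.indicator 1 y := by
      intro y
      by_cases hy : y ∈ s
      · simp [hy]
      · simp [hy]
    simp_rw [this]
    exact lintegral_indicator_one hs
  rw [h2]
  have h3 : ∀ y : ℝ, f y ^ (2 : ℝ) = f y ^ 2 := fun y => by
    rw [← ENNReal.rpow_natCast]; norm_num
  simp_rw [h3]
  exact le_rfl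

/-- The occupation measure is absolutely continuous. -/
theorem occ_ac {F : ℝ → ℝ} (hF : Measurable F) {A : Set ℝ}
    (hAf : volume A ≠ ∞) (hI : Integrable (fun ξ => ‖chf F A ξ‖ ^ 2)) :
    occ F A ≪ volume := by
  have hfin := isFiniteMeasure_occ (F := F) hAf
  have hfin2 : IsFiniteMeasure (volume.restrict A) := by
    constructor
    rw [Measure.restrict_apply_univ]
    exact hAf.lt_top
  set ν := occ F A with hν
  set C : ℝ≥0∞ := ENNReal.ofReal (∫ ξ, ‖chf F A ξ‖ ^ 2) with hC
  -- compact sets
  have hcomp : ∀ K : Set ℝ, IsCompact K → ν K ≤ volume K ^ (1 / 2 : ℝ) * C ^ (1 / 2 : ℝ) := by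
    intro K hK
    have hbound : ∀ r : ℝ, 0 < r →
        ν K ≤ volume (cthickening r K) ^ (1 / 2 : ℝ) * C ^ (1 / 2 : ℝ) := by
      intro r hr
      have h0 : ENNReal.ofReal (2 * r) ≠ 0 := by simpa using hr
      have ht : ENNReal.ofReal (2 * r) ≠ ∞ := ENNReal.ofReal_ne_top
      have hKm := hK.measurableSet
      have hKr : MeasurableSet (cthickening r K) := isClosed_cthickening.measurableSet
      have e1 : ν K * ENNReal.ofReal (2 * r) ≤
          ∫⁻ y in cthickening r K, ν (closedBall y r) := by
        calc ν K * ENNReal.ofReal (2 * r)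
            = ∫⁻ t in A, (F ⁻¹' K).indicator (fun _ => ENNReal.ofReal (2 * r)) t := by
              rw [lintegral_indicator (hF hKm), setLIntegral_const, mul_comm,
                Measure.restrict_apply (hF hKm), hν, occ_apply hF hKm]
          _ = ∫⁻ t in A, (∫⁻ y, (F ⁻¹' K).indicator 1 t *
                (if |F t - y| ≤ r then (1 : ℝ≥0∞) else 0)) := by
              congr 1
              funext t
              rw [lintegral_const_mul']
              · have h1 : ∫⁻ y, (if |F t - y| ≤ r then (1 : ℝ≥0∞) else 0) =
                    ENNReal.ofReal (2 * r) := by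
                  have h2 : ∀ y : ℝ, (if |F t - y| ≤ r then (1 : ℝ≥0∞) else 0) =
                      (closedBall (F t) r).indicator 1 y := by
                    intro y
                    simp only [indicator, mem_closedBall, Real.dist_eq, Pi.one_apply,
                      abs_sub_comm]
                  simp_rw [h2]
                  rw [lintegral_indicator_one measurableSet_closedBall, Real.volume_closedBall]
                rw [h1]
                by_cases ht' : t ∈ F ⁻¹' K
                · simp [ht']
                · simp [ht']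
              · by_cases ht' : t ∈ F ⁻¹' K
                · simp [ht']
                · simp [ht']
          _ = ∫⁻ y, (∫⁻ t in A, (F ⁻¹' K).indicator 1 t *
                (if |F t - y| ≤ r then (1 : ℝ≥0∞) else 0)) := by
              rw [lintegral_lintegral_swap]
              apply Measurable.aemeasurable
              apply Measurable.mul
              · exact (measurable_const.indicator (hF hKm)).comp measurable_fst
              · exact (measurable_ite_ball hF r).comp measurable_swap
          _ ≤ ∫⁻ y, (cthickening r K).indicator (fun y => ν (closedBall y r)) y := by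
              apply lintegral_mono
              intro y
              simp only
              by_cases hy : y ∈ cthickening r K
              · rw [indicator_of_mem hy, hν, occ_closedBall hF]
                gcongr with t
                by_cases ht' : t ∈ F ⁻¹' K
                · simp [ht']
                · simp [ht']
              · have hz : ∀ t, (F ⁻¹' K).indicator (1 : ℝ → ℝ≥0∞) t *
                    (if |F t - y| ≤ r then (1 : ℝ≥0∞) else 0) = 0 := by
                  intro t
                  by_cases ht' : t ∈ F ⁻¹' K
                  · have hn : ¬ |F t - y| ≤ r := by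
                      intro hle
                      apply hy
                      apply mem_cthickening_of_dist_le y (F t) r K ht'
                      rw [Real.dist_eq, abs_sub_comm]
                      exact hle
                    simp [hn]
                  · simp [ht']
                simp only [hz, lintegral_zero]
                exact zero_le
          _ = ∫⁻ y in cthickening r K, ν (closedBall y r) := lintegral_indicator hKr _
      have e2 : ν K ≤ ∫⁻ y in cthickening r K, ν (closedBall y r) / volume (closedBall y r) := by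
        have h1 : ∫⁻ y in cthickening r K, ν (closedBall y r) / volume (closedBall y r) =
            (∫⁻ y in cthickening r K, ν (closedBall y r)) * (ENNReal.ofReal (2 * r))⁻¹ := by
          rw [← lintegral_mul_const' _ _ (ENNReal.inv_ne_top.mpr h0)]
          congr 1
          funext y
          rw [Real.volume_closedBall, div_eq_mul_inv]
        rw [h1]
        calc ν K = ν K * ENNReal.ofReal (2 * r) * (ENNReal.ofReal (2 * r))⁻¹ := by
              rw [mul_assoc, ENNReal.mul_inv_cancel h0 ht, mul_one]
          _ ≤ _ := by gcongr
      refine e2.trans ?_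
      have hmeas : Measurable (fun y => ν (closedBall y r) / volume (closedBall y r)) := by
        simp_rw [Real.volume_closedBall]
        exact (measurable_occ_ball hF hAf r).div_const _
      refine (cauchy_schwarz_indicator hmeas hKr).trans ?_
      gcongr
      exact occ_ball_sq hF hAf hI hr
    have hlim : Tendsto (fun r => volume (cthickening r K) ^ (1 / 2 : ℝ) * C ^ (1 / 2 : ℝ))
        (𝓝[>] 0) (𝓝 (volume K ^ (1 / 2 : ℝ) * C ^ (1 / 2 : ℝ))) := by
      have h1 : Tendsto (fun r => volume (cthickening r K)) (𝓝[>] 0) (𝓝 (volume K)) :=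
        (tendsto_measure_cthickening_of_isCompact hK).mono_left nhdsWithin_le_nhds
      have h2 : Tendsto (fun r => volume (cthickening r K) ^ (1 / 2 : ℝ)) (𝓝[>] 0)
          (𝓝 (volume K ^ (1 / 2 : ℝ))) := (ENNReal.continuous_rpow_const.tendsto _).comp h1
      apply ENNReal.Tendsto.mul_const h2
      right
      exact ENNReal.rpow_ne_top_of_nonneg (by norm_num) ENNReal.ofReal_ne_top
    refine ge_of_tendsto hlim ?_
    filter_upwards [self_mem_nhdsWithin] with r hr
    exact hbound r hr
  refine Measure.AbsolutelyContinuous.mk fun s hs hs0 => ?_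
  rw [hs.measure_eq_iSup_isCompact]
  simp only [ENNReal.iSup_eq_zero]
  intro K hKs hK
  have h1 := hcomp K hK
  have h2 : volume K = 0 := measure_mono_null hKs hs0
  rw [h2, ENNReal.zero_rpow_of_pos (by norm_num), zero_mul] at h1
  exact le_antisymm h1 zero_le

end Pool.Agent.Work.MP_22f354_an
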