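import Mathlib

/-!
Combinatorics of digits: counting digit configurations with many coincidences.
-/

set_option autoImplicit false

namespace Pool.Agent.Work.MP_22f354_an

open Finset

/-- If every element of `V₀` is determined by another element (for a transitive relation), then at
least half of the elements of `V₀` are determined by elements outside this half. -/
theorem exists_det {V : Type*} [DecidableEq V] (Det : V → V → Prop)
    (htr : ∀ u v w, Det u v → Det v w → Det u w) :
    ∀ (k : ℕ) (V0 : Finset V), V0.card = k → (∀ v ∈ V0, ∃ w, w ≠ v ∧ Det v w) →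
      ∃ D ⊆ V0, V0.card ≤ 2 * D.card ∧ ∀ v ∈ D, ∃ w, w ∉ D ∧ Det v w := by
  intro k
  induction k using Nat.strong_induction_on with
  | _ k ih =>
    intro V0 hk hV
    rcases V0.eq_empty_or_nonempty with h0 | ⟨v, hv⟩
    · refine ⟨∅, by simp, by simp [h0], by simp⟩
    · obtain ⟨w, hwv, hdet⟩ := hV v hv
      set V1 := (V0.erase v).erase w with hV1
      have hcard1 : V1.card < V0.card := by
        calc V1.card ≤ (V0.erase v).card := card_le_card (erase_subset _ _)
          _ < V0.card := card_erase_lt_of_mem hv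
      have hcard2 : V0.card ≤ V1.card + 2 := by
        have h1 : V0.card = (V0.erase v).card + 1 := (card_erase_add_one hv).symm
        have h2 : (V0.erase v).card ≤ V1.card + 1 := by
          rw [hV1]
          have := pred_card_le_card_erase (s := V0.erase v) (a := w)
          omega
        omega
      obtain ⟨D, hD1, hD2, hD3⟩ := ih V1.card (hk ▸ hcard1) V1 rfl (by
        intro u hu
        exact hV u (erase_subset _ _ (erase_subset _ _ hu)))
      have hvD : v ∉ D := by
        intro h
        have := hD1 h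
        rw [hV1, mem_erase, mem_erase] at this
        exact this.2.1 rfl
      have hwD : w ∉ D := by
        intro h
        have := hD1 h
        rw [hV1, mem_erase] at this
        exact this.1 rfl
      refine ⟨insert v D, ?_, ?_, ?_⟩
      · intro u hu
        rcases mem_insert.mp hu with rfl | hu
        · exact hv
        · exact erase_subset _ _ (erase_subset _ _ (hD1 hu))
      · rw [card_insert_of_notMem hvD]
        omega
      · have hwins : w ∉ insert v D := by
          rw [mem_insert]
          push Not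
          exact ⟨hwv, hwD⟩
        intro u hu
        rcases mem_insert.mp hu with rfl | hu
        · exact ⟨w, hwins, hdet⟩
        · obtain ⟨w', hw'1, hw'2⟩ := hD3 u hu
          by_cases hw'v : w' = v
          · subst hw'v
            exact ⟨w, hwins, htr _ _ _ hw'2 hdet⟩
          · refine ⟨w', ?_, hw'2⟩
            rw [mem_insert]
            push Not
            exact ⟨hw'v, hw'1⟩

/-- digit of `x` in base `b` at place `r` (as an element of `ZMod b`) -/
def dg (b x r : ℕ) : ZMod b := ((x / b ^ r : ℕ) : ZMod b)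

lemma dg_ext {b : ℕ} (hb : 2 ≤ b) : ∀ (T x y : ℕ), x < b ^ T → y < b ^ T →
    (∀ r < T, dg b x r = dg b y r) → x = y := by
  intro T
  induction T with
  | zero =>
    intro x y hx hy _
    rw [pow_zero] at hx hy
    omega
  | succ T ih =>
    intro x y hx hy h
    have hb0 : 0 < b := by omega
    have h1 : x / b = y / b := by
      apply ih
      · rw [Nat.div_lt_iff_lt_mul hb0, ← pow_succ]; exact hx
      · rw [Nat.div_lt_iff_lt_mul hb0, ← pow_succ]; exact hy
      · intro r hr
        have := h (r + 1) (by omega)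
        unfold dg at this ⊢
        rwa [pow_succ', ← Nat.div_div_eq_div_mul, ← Nat.div_div_eq_div_mul] at this
    have h2 : x % b = y % b := by
      have := h 0 (by omega)
      unfold dg at this
      rw [pow_zero, Nat.div_one, Nat.div_one, ZMod.natCast_eq_natCast_iff'] at this
      exact this
    rw [← Nat.div_add_mod x b, ← Nat.div_add_mod y b, h1, h2]

/-- digits of numbers congruent modulo `b ^ j` agree at the places `< j` -/
lemma dg_congr {b : ℕ} (hb : 2 ≤ b) {j x y : ℕ} (h : x ≡ y [MOD b ^ j]) {i : ℕ} (hi : i < j) :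
    dg b x i = dg b y i := by
  have hb0 : 0 < b := by omega
  have key : ∀ x : ℕ, dg b x i = dg b (x % b ^ j) i := by
    intro x
    unfold dg
    have e1 : x = b ^ i * (b * b ^ (j - i - 1) * (x / b ^ j)) + x % b ^ j := by
      have e2 : b ^ j = b ^ i * (b * b ^ (j - i - 1)) := by
        rw [← pow_succ', ← pow_add]
        congr 1
        omega
      conv_lhs => rw [← Nat.div_add_mod x (b ^ j)]
      rw [← mul_assoc, ← e2]
    conv_lhs => rw [e1]
    rw [Nat.mul_add_div (by positivity)]
    push_cast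
    rw [ZMod.natCast_self]
    ring
  rw [key x, key y, h]

/-- carry -/
lemma exists_carry {b : ℕ} (hb : 2 ≤ b) (j B : ℕ) :
    ∃ v : ℕ, v ≤ j ∧ ∀ i, i < j → dg b (B + 1) i = dg b B i + if i ≤ v then 1 else 0 := by
  classical
  have hb0 : 0 < b := by omega
  set v := Nat.findGreatest (fun i => b ^ i ∣ B + 1) j with hv
  refine ⟨v, Nat.findGreatest_le _, ?_⟩
  intro i hi
  unfold dg
  rw [Nat.succ_div]
  have h1 : b ^ i ∣ B + 1 ↔ i ≤ v := by
    constructor
    · intro h
      exact Nat.le_findGreatest hi.le h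
    · intro h
      have h2 : b ^ v ∣ B + 1 := by
        have := Nat.findGreatest_spec (P := fun i => b ^ i ∣ B + 1) (m := 0) (n := j)
          (Nat.zero_le _) (by simp)
        exact this
      exact (pow_dvd_pow b h).trans h2
  by_cases h : i ≤ v
  · rw [if_pos h, if_pos (h1.mpr h)]
    push_cast
    rfl
  · rw [if_neg h, if_neg (fun hc => h (h1.mp hc))]
    push_cast
    rfl

/-- the shift of the digits for a pattern `(δ, v)` -/
def shft (b : ℕ) (δ : Fin 3) (v i : ℕ) : ZMod b :=
  if δ = 0 then 0 else if δ = 1 then (if i ≤ v then 1 else 0) else -(if i ≤ v then 1 else 0)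

/-- windows whose values differ by at most one -/
lemma exists_shft {b : ℕ} (hb : 2 ≤ b) (j A B : ℕ)
    (h : A ≡ B [MOD b ^ j] ∨ A ≡ B + 1 [MOD b ^ j] ∨ A + 1 ≡ B [MOD b ^ j]) :
    ∃ (δ : Fin 3) (v : Fin (j + 1)), ∀ i, i < j → dg b A i = dg b B i + shft b δ v i := by
  rcases h with h | h | h
  · refine ⟨0, 0, fun i hi => ?_⟩
    rw [dg_congr hb h hi]
    simp [shft]
  · obtain ⟨v, hv1, hv2⟩ := exists_carry hb j B
    refine ⟨1, ⟨v, by omega⟩, fun i hi => ?_⟩
    rw [dg_congr hb h hi, hv2 i hi]
    simp [shft]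
  · obtain ⟨v, hv1, hv2⟩ := exists_carry hb j A
    refine ⟨2, ⟨v, by omega⟩, fun i hi => ?_⟩
    rw [← dg_congr hb h hi, hv2 i hi]
    have h20 : (2 : Fin 3) ≠ 0 := by decide
    have h21 : (2 : Fin 3) ≠ 1 := by decide
    simp only [shft, if_neg h20, if_neg h21]
    ring

lemma dg_div {b : ℕ} (x s i : ℕ) : dg b (x / b ^ s) i = dg b x (s + i) := by
  unfold dg
  rw [Nat.div_div_eq_div_mul, ← pow_add]

/-- the configurations with a prescribed pattern.
`P` is the number of free digits, windows have length `j`, the grid windows are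
`[P - (m+1) j, P - m j)` for `m < G`. A pattern assigns to each grid window `(l, m)`
a window `(l', s')`, and a carry pattern. -/
def Ecfg (b : ℕ) {Λ : Type*} (N P j G S : ℕ)
    (π : Λ × Fin G → Λ × Fin S × Fin 3 × Fin (j + 1)) : Set (Λ → ℕ) :=
  {X | (∀ l, X l / b ^ P = N) ∧ ∀ l (m : Fin G),
    ((π (l, m)).1, ((π (l, m)).2.1 : ℕ)) ≠ (l, P - (m + 1) * j) ∧
    ∀ i, i < j → dg b (X l) (P - (m + 1) * j + i) =
      dg b (X (π (l, m)).1) ((π (l, m)).2.1 + i) + shft b (π (l, m)).2.2.1 (π (l, m)).2.2.2 i}

theorem card_Ecfg {b : ℕ} (hb : 2 ≤ b) {Λ : Type*} [Fintype Λ] [DecidableEq Λ]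
    (N P j G S : ℕ) (hj : 1 ≤ j) (hP : G * j ≤ P)
    (π : Λ × Fin G → Λ × Fin S × Fin 3 × Fin (j + 1)) (E : Finset (Λ → ℕ))
    (hE : ∀ X ∈ E, X ∈ Ecfg b N P j G S π) :
    E.card ^ 2 * b ^ (Fintype.card Λ * (G * j)) ≤ b ^ (2 * (Fintype.card Λ * P)) := by
  classical
  have hb0 : 0 < b := by omega
  have : NeZero b := ⟨by omega⟩
  rcases E.eq_empty_or_nonempty with hE0 | ⟨X0, hX0⟩
  · rw [hE0]; simp
  set V0 : Finset (Λ × ℕ) := univ ×ˢ Ico (P - G * j) P with hV0
  set Det : Λ × ℕ → Λ × ℕ → Prop := fun v w => ∀ X ∈ E, ∀ X' ∈ E,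
    dg b (X w.1) w.2 = dg b (X' w.1) w.2 → dg b (X v.1) v.2 = dg b (X' v.1) v.2 with hDet
  have htr : ∀ u v w, Det u v → Det v w → Det u w := by
    intro u v w h1 h2 X hX X' hX' h
    exact h1 X hX X' hX' (h2 X hX X' hX' h)
  have hex : ∀ v ∈ V0, ∃ w, w ≠ v ∧ Det v w := by
    rintro ⟨l, r⟩ hv
    rw [hV0, mem_product, mem_Ico] at hv
    simp only at hv
    obtain ⟨_, hr1, hr2⟩ := hv
    have hj0 : 0 < j := hj
    set m := (P - 1 - r) / j with hm
    have hmG : m < G := by
      rw [hm, Nat.div_lt_iff_lt_mul hj0]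
      omega
    have h1 : m * j ≤ P - 1 - r := by
      rw [hm]; exact Nat.div_mul_le_self _ _
    have h2 : P - 1 - r < (m + 1) * j := by
      rw [hm, Nat.add_one_mul]
      exact Nat.lt_div_mul_add hj0
    have h3 : (m + 1) * j ≤ G * j := Nat.mul_le_mul_right _ hmG
    have h2' : (m + 1) * j = m * j + j := by ring
    obtain ⟨i, hi⟩ : ∃ i, i = r - (P - (m + 1) * j) := ⟨_, rfl⟩
    have hi1 : i < j := by omega
    have hri : P - (m + 1) * j + i = r := by omega
    refine ⟨((π (l, ⟨m, hmG⟩)).1, (π (l, ⟨m, hmG⟩)).2.1 + i), ?_, ?_⟩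
    · intro hcon
      apply ((hE X0 hX0).2 l ⟨m, hmG⟩).1
      rw [Prod.mk.injEq] at hcon ⊢
      refine ⟨hcon.1, ?_⟩
      have := hcon.2
      simp only at this ⊢
      omega
    · intro X hX X' hX' h
      have e1 := ((hE X hX).2 l ⟨m, hmG⟩).2 i hi1
      have e2 := ((hE X' hX').2 l ⟨m, hmG⟩).2 i hi1
      simp only at e1 e2 h ⊢
      rw [hri] at e1 e2
      rw [e1, e2, h]
  obtain ⟨D, hD1, hD2, hD3⟩ := exists_det Det htr V0.card V0 rfl hex
  -- the injection
  set R : Finset (Λ × ℕ) := (univ ×ˢ range P) \ D with hR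
  have hDsub : D ⊆ univ ×ˢ range P := by
    intro v hv
    have := hD1 hv
    rw [hV0, mem_product, mem_Ico] at this
    rw [mem_product, mem_range]
    exact ⟨this.1, this.2.2⟩
  have hcardR : R.card + D.card = Fintype.card Λ * P := by
    rw [hR, card_sdiff_add_card_eq_card hDsub, card_product, card_range, card_univ]
  have hcardV0 : V0.card = Fintype.card Λ * (G * j) := by
    rw [hV0, card_product, Nat.card_Ico, card_univ]
    congr 1
    omega
  have hinj : E.card ≤ b ^ R.card := by
    have hcod : (univ : Finset (R → ZMod b)).card = b ^ R.card := by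
      rw [card_univ, Fintype.card_fun, ZMod.card, Fintype.card_coe]
    rw [← hcod]
    refine card_le_card_of_injOn (fun X => fun v : R => dg b (X v.1.1) v.1.2) (fun _ _ => mem_univ _) ?_
    intro X hX X' hX' hXX
    have hfree : ∀ v : Λ × ℕ, v ∉ D → dg b (X v.1) v.2 = dg b (X' v.1) v.2 := by
      intro v hv
      by_cases hvP : v.2 < P
      · have hvR : v ∈ R := by
          rw [hR, mem_sdiff, mem_product, mem_range]
          exact ⟨⟨mem_univ _, hvP⟩, hv⟩
        exact congrFun hXX ⟨v, hvR⟩
      · push Not at hvP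
        have e1 := (hE X hX).1 v.1
        have e2 := (hE X' hX').1 v.1
        unfold dg
        have e3 : b ^ v.2 = b ^ P * b ^ (v.2 - P) := by
          rw [← pow_add]
          congr 1
          omega
        rw [e3, ← Nat.div_div_eq_div_mul, ← Nat.div_div_eq_div_mul, e1, e2]
    have hall : ∀ v : Λ × ℕ, dg b (X v.1) v.2 = dg b (X' v.1) v.2 := by
      intro v
      by_cases hv : v ∈ D
      · obtain ⟨w, hw, hdet⟩ := hD3 v hv
        exact hdet X hX X' hX' (hfree w hw)
      · exact hfree v hv
    funext l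
    have hlt : ∀ x : ℕ, x / b ^ P = N → x < b ^ (P + N + 1) := by
      intro x hx
      have h1 : x < (N + 1) * b ^ P := by
        rw [← Nat.div_lt_iff_lt_mul (by positivity), hx]
        omega
      calc x < (N + 1) * b ^ P := h1
        _ ≤ b ^ (N + 1) * b ^ P := by
          gcongr
          exact (Nat.lt_pow_self (by omega)).le
        _ = b ^ (P + N + 1) := by rw [← pow_add]; congr 1; omega
    exact dg_ext hb (P + N + 1) _ _ (hlt _ ((hE X hX).1 l)) (hlt _ ((hE X' hX').1 l))
      (fun r _ => hall (l, r))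
  calc E.card ^ 2 * b ^ (Fintype.card Λ * (G * j)) ≤ (b ^ R.card) ^ 2 * b ^ (2 * D.card) := by
        exact Nat.mul_le_mul (Nat.pow_le_pow_left hinj 2)
          (Nat.pow_le_pow_right hb0 (hcardV0 ▸ hD2))
    _ = b ^ (2 * (Fintype.card Λ * P)) := by
        rw [← pow_mul, ← pow_add, ← hcardR]
        congr 1
        ring

end Pool.Agent.Work.MP_22f354_an
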