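import Pool.Agent.Work.MP_22f354_an.AE

/-!
From the finiteness of the weighted sum of block moments to a uniform energy bound.
-/

set_option autoImplicit false

namespace Pool.Agent.Work.MP_22f354_an

open Set Filter Topology MeasureTheory
open scoped NNReal ENNReal ComplexConjugate

section
variable {b : ℕ} {α : ℝ}

/-- comparison of the characteristic functions of a deep and a shallow context -/
theorem norm_mh_deep (hb : 2 ≤ b) (hα : 0 < α) (hα1 : α < 1) (g : LipS) (n N L : ℕ) (hL : L ≤ n)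
    (ξ : ℝ) : ‖mh b α n N g ξ‖ ≤ ‖mh b α L (N % b ^ L) g ξ‖ +
      |ξ| * (‖g‖ * (lam b α * b - 1)⁻¹ * ((lam b α * b) ^ L)⁻¹) := by
  obtain ⟨c, hcc⟩ := hc_deep hb hα hα1 g n N L hL
  set E := ‖g‖ * (lam b α * b - 1)⁻¹ * ((lam b α * b) ^ L)⁻¹ with hE
  have hfin : IsFiniteMeasure ((volume : Measure ℝ).restrict (Ico 0 1)) := by
    constructor
    rw [Measure.restrict_apply_univ, Real.volume_Ico]
    simp
  have hcont : ∀ n N, Continuous (fun z : ℝ => hc b α n N g z) := by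
    intro n N
    exact (continuous_hc hb hα n N).comp (by fun_prop : Continuous (fun z : ℝ => (g, z)))
  have hint : ∀ (u : ℝ → ℝ), Continuous u → Integrable (fun z => Complex.exp (Complex.I * ξ * u z))
      ((volume : Measure ℝ).restrict (Ico 0 1)) := by
    intro u hu
    apply Integrable.of_bound (Continuous.aestronglyMeasurable (by fun_prop)) 1
    filter_upwards with z
    exact (norm_exp_I_mul _ _).le
  have h1 : mh b α n N g ξ - Complex.exp (Complex.I * ξ * c) * mh b α L (N % b ^ L) g ξ =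
      ∫ z in Ico (0 : ℝ) 1, (Complex.exp (Complex.I * ξ * hc b α n N g z) -
        Complex.exp (Complex.I * ξ * ((hc b α L (N % b ^ L) g z + c : ℝ)))) := by
    unfold mh
    have hi2 := hint (fun z => hc b α L (N % b ^ L) g z + c)
      ((hcont L (N % b ^ L)).add continuous_const)
    rw [integral_sub (hint _ (hcont n N)) hi2, ← integral_const_mul]
    congr 1
    congr 1
    funext z
    rw [← Complex.exp_add]
    congr 1
    push_cast
    ring
  have h2 : ‖mh b α n N g ξ - Complex.exp (Complex.I * ξ * c) * mh b α L (N % b ^ L) g ξ‖ ≤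
      |ξ| * E := by
    rw [h1]
    have h3 := norm_setIntegral_le_of_norm_le_const (μ := (volume : Measure ℝ))
      (s := Ico (0 : ℝ) 1) (C := |ξ| * E)
      (f := fun z => Complex.exp (Complex.I * ξ * hc b α n N g z) -
        Complex.exp (Complex.I * ξ * ((hc b α L (N % b ^ L) g z + c : ℝ))))
      (by rw [Real.volume_Ico]; simp) (by
        intro z hz
        have e1 : Complex.exp (Complex.I * ξ * hc b α n N g z) -
            Complex.exp (Complex.I * ξ * ((hc b α L (N % b ^ L) g z + c : ℝ))) =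
            Complex.exp (Complex.I * ξ * ((hc b α L (N % b ^ L) g z + c : ℝ))) *
            (Complex.exp (Complex.I * ((ξ * (hc b α n N g z -
              (hc b α L (N % b ^ L) g z + c)) : ℝ) : ℂ)) - 1) := by
          rw [mul_sub, ← Complex.exp_add, mul_one]
          congr 2
          push_cast
          ring
        rw [e1, norm_mul, norm_exp_I_mul, one_mul]
        refine Real.norm_exp_I_mul_ofReal_sub_one_le.trans ?_
        rw [Real.norm_eq_abs, abs_mul]
        gcongr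
        exact hcc z hz)
    simpa using h3
  calc ‖mh b α n N g ξ‖ = ‖Complex.exp (Complex.I * ξ * c) * mh b α L (N % b ^ L) g ξ +
        (mh b α n N g ξ - Complex.exp (Complex.I * ξ * c) * mh b α L (N % b ^ L) g ξ)‖ := by
        congr 1; ring
    _ ≤ ‖Complex.exp (Complex.I * ξ * c) * mh b α L (N % b ^ L) g ξ‖ + |ξ| * E :=
        (norm_add_le _ _).trans (by gcongr)
    _ = _ := by rw [norm_mul, norm_exp_I_mul, one_mul]

/-- Young type inequality -/
lemma sq_le_young {t : ℝ} (ht : 0 < t) (x : ℝ≥0∞) (M : ℕ) (hM : 1 ≤ M) :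
    x ^ 2 ≤ ENNReal.ofReal t + ENNReal.ofReal (t⁻¹ ^ (M - 1)) * x ^ (2 * M) := by
  by_cases h : x ^ 2 ≤ ENNReal.ofReal t
  · exact h.trans le_self_add
  · push Not at h
    refine le_trans ?_ le_add_self
    have e1 : x ^ (2 * M) = x ^ 2 * (x ^ 2) ^ (M - 1) := by
      rw [← pow_mul, ← pow_add]
      congr 1
      omega
    have e2 : ENNReal.ofReal (t⁻¹ ^ (M - 1)) * (ENNReal.ofReal t) ^ (M - 1) = 1 := by
      rw [← ENNReal.ofReal_pow ht.le, ← ENNReal.ofReal_mul (by positivity), ← mul_pow,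
        inv_mul_cancel₀ ht.ne', one_pow, ENNReal.ofReal_one]
    calc x ^ 2 = x ^ 2 * (ENNReal.ofReal (t⁻¹ ^ (M - 1)) * (ENNReal.ofReal t) ^ (M - 1)) := by
          rw [e2, mul_one]
      _ ≤ x ^ 2 * (ENNReal.ofReal (t⁻¹ ^ (M - 1)) * (x ^ 2) ^ (M - 1)) := by
          gcongr
      _ = _ := by rw [e1]; ring

/-- bound for the block moments -/
lemma Am_le_of_Sm (hb : 2 ≤ b) {M G D : ℕ} {g : LipS} (hS : Sm b α M G D g < ∞) {J n N : ℕ}
    (hJ : 1 ≤ J) (hn : n ≤ D * J) (hN : N < b ^ n) :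
    Am b α G M n N J g ≤ ENNReal.ofReal ((Sm b α M G D g).toReal * ((th b α M G D)⁻¹) ^ J) := by
  have hθ := th_pos (α := α) hb M G D
  have h1 : ENNReal.ofReal (th b α M G D ^ J) * Am b α G M n N J g ≤ Sm b α M G D g := by
    obtain ⟨j, rfl⟩ : ∃ j, J = j + 1 := ⟨J - 1, by omega⟩
    unfold Sm
    refine le_trans ?_ (ENNReal.le_tsum j)
    refine le_trans ?_ (Finset.single_le_sum (f := fun n => ∑ N ∈ Finset.range (b ^ n),
      ENNReal.ofReal (th b α M G D ^ (j + 1)) * Am b α G M n N (j + 1) g)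
      (fun _ _ => zero_le) (Finset.mem_range.mpr (show n < D * (j + 1) + 1 by omega)))
    exact Finset.single_le_sum (f := fun N =>
      ENNReal.ofReal (th b α M G D ^ (j + 1)) * Am b α G M n N (j + 1) g)
      (fun _ _ => zero_le) (Finset.mem_range.mpr hN)
  have e2 : ENNReal.ofReal (((th b α M G D)⁻¹) ^ J) * ENNReal.ofReal (th b α M G D ^ J) = 1 := by
    rw [← ENNReal.ofReal_mul (by positivity), ← mul_pow, inv_mul_cancel₀ hθ.ne', one_pow,
      ENNReal.ofReal_one]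
  calc Am b α G M n N J g = ENNReal.ofReal (((th b α M G D)⁻¹) ^ J) *
        (ENNReal.ofReal (th b α M G D ^ J) * Am b α G M n N J g) := by
        rw [← mul_assoc, e2, one_mul]
    _ ≤ ENNReal.ofReal (((th b α M G D)⁻¹) ^ J) * Sm b α M G D g := by gcongr
    _ = _ := by
        rw [mul_comm, ENNReal.ofReal_mul ENNReal.toReal_nonneg, ENNReal.ofReal_toReal hS.ne]

/-- block bound for shallow contexts -/
lemma blk_shallow (hb : 2 ≤ b) {M G D : ℕ} (hM : 1 ≤ M)
    (hG : RR b α G * (b : ℝ) ^ 3 ≤ (b : ℝ) ^ G) (hMD : D + 1 ≤ 2 * M)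
    {g : LipS} (hS : Sm b α M G D g < ∞) {J n N : ℕ}
    (hJ : 1 ≤ J) (hn : n ≤ D * J) (hN : N < b ^ n) :
    ∫⁻ ξ in blk b α G J, ‖mh b α n N g ξ‖ₑ ^ 2 ≤
      ENNReal.ofReal ((2 * RR b α G + (Sm b α M G D g).toReal) * ((b : ℝ)⁻¹) ^ J) := by
  have hb0 : (0 : ℝ) < b := by positivity
  have hbr : (2 : ℝ) ≤ b := by exact_mod_cast hb
  have hR := RR_pos (α := α) hb G
  set R := RR b α G with hRdef
  obtain ⟨S, hSdef⟩ : ∃ S, S = (Sm b α M G D g).toReal := ⟨_, rfl⟩
  have hS0 : 0 ≤ S := by rw [hSdef]; exact ENNReal.toReal_nonneg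
  have hA := Am_le_of_Sm hb hS hJ hn hN
  rw [← hSdef] at hA ⊢
  obtain ⟨t, ht⟩ : ∃ t : ℝ, t = ((R * b)⁻¹) ^ J := ⟨_, rfl⟩
  have ht0 : 0 < t := by rw [ht]; positivity
  calc ∫⁻ ξ in blk b α G J, ‖mh b α n N g ξ‖ₑ ^ 2
      ≤ ∫⁻ ξ in blk b α G J, (ENNReal.ofReal t +
          ENNReal.ofReal (t⁻¹ ^ (M - 1)) * ‖mh b α n N g ξ‖ₑ ^ (2 * M)) :=
        lintegral_mono fun ξ => sq_le_young ht0 _ M hM
    _ = ENNReal.ofReal t * volume (blk b α G J) +
          ENNReal.ofReal (t⁻¹ ^ (M - 1)) * Am b α G M n N J g := by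
        rw [lintegral_add_left measurable_const, setLIntegral_const,
          lintegral_const_mul' _ _ ENNReal.ofReal_ne_top]
        rfl
    _ ≤ ENNReal.ofReal t * ENNReal.ofReal (2 * R ^ (J + 1)) +
          ENNReal.ofReal (t⁻¹ ^ (M - 1)) * ENNReal.ofReal (S * ((th b α M G D)⁻¹) ^ J) := by
        gcongr
        exact volume_blk_le G J
    _ = ENNReal.ofReal (t * (2 * R ^ (J + 1)) + t⁻¹ ^ (M - 1) * (S * ((th b α M G D)⁻¹) ^ J)) := by
        have hθ := th_pos (α := α) hb M G D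
        rw [← ENNReal.ofReal_mul ht0.le, ← ENNReal.ofReal_mul (by positivity),
          ← ENNReal.ofReal_add (by positivity) (by positivity)]
    _ ≤ _ := by
        apply ENNReal.ofReal_le_ofReal
        rw [add_mul]
        apply add_le_add
        · apply le_of_eq
          rw [ht, inv_pow, mul_pow, inv_pow, pow_succ]
          field_simp
        · -- the moment part
          have e1 : t⁻¹ ^ (M - 1) * ((th b α M G D)⁻¹) ^ J =
              (R ^ M * (b : ℝ) ^ (M + D) / (b : ℝ) ^ (M * G)) ^ J := by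
            have e2 : t⁻¹ = (R * b) ^ J := by rw [ht, inv_pow, inv_inv]
            have e3 : ((R * b) ^ J) ^ (M - 1) = ((R * b) ^ (M - 1)) ^ J := by
              rw [← pow_mul, ← pow_mul, mul_comm J (M - 1)]
            rw [e2, e3, ← mul_pow]
            congr 1
            unfold th
            rw [← hRdef, inv_div, mul_pow]
            have e4 : R ^ M = R ^ (M - 1) * R := by
              rw [← pow_succ]; congr 1; omega
            have e5 : (b : ℝ) ^ (M + D) = (b : ℝ) ^ (M - 1) * (b : ℝ) ^ (D + 1) := by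
              rw [← pow_add]; congr 1; omega
            rw [e4, e5]
            ring
          have e6 : R ^ M * (b : ℝ) ^ (M + D) / (b : ℝ) ^ (M * G) ≤ (b : ℝ)⁻¹ := by
            rw [div_le_iff₀ (by positivity), inv_mul_eq_div, le_div_iff₀ hb0]
            have h1 : (R * (b : ℝ) ^ 3) ^ M ≤ ((b : ℝ) ^ G) ^ M := by gcongr
            rw [mul_pow, ← pow_mul, ← pow_mul] at h1
            calc R ^ M * (b : ℝ) ^ (M + D) * b = R ^ M * (b : ℝ) ^ (M + D + 1) := by ring
              _ ≤ R ^ M * (b : ℝ) ^ (3 * M) := by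
                  gcongr
                  · linarith
                  · omega
              _ ≤ (b : ℝ) ^ (G * M) := h1
              _ = (b : ℝ) ^ (M * G) := by rw [mul_comm]
          calc t⁻¹ ^ (M - 1) * (S * ((th b α M G D)⁻¹) ^ J)
              = S * (t⁻¹ ^ (M - 1) * ((th b α M G D)⁻¹) ^ J) := by ring
            _ = S * (R ^ M * (b : ℝ) ^ (M + D) / (b : ℝ) ^ (M * G)) ^ J := by rw [e1]
            _ ≤ S * ((b : ℝ)⁻¹) ^ J := by gcongr

/-- block bound for all contexts -/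
lemma blk_all (hb : 2 ≤ b) (hα : 0 < α) (hα1 : α < 1) {M G D : ℕ} (hM : 1 ≤ M)
    (hG : RR b α G * (b : ℝ) ^ 3 ≤ (b : ℝ) ^ G) (hMD : D + 1 ≤ 2 * M)
    (hD : RR b α G ^ 3 * b ≤ (lam b α * b) ^ (2 * D))
    {g : LipS} (hS : Sm b α M G D g < ∞) {J n N : ℕ}
    (hJ : 1 ≤ J) (hN : N < b ^ n) :
    ∫⁻ ξ in blk b α G J, ‖mh b α n N g ξ‖ₑ ^ 2 ≤
      ENNReal.ofReal ((2 * (2 * RR b α G + (Sm b α M G D g).toReal) +
        4 * RR b α G ^ 3 * (‖g‖ * (lam b α * b - 1)⁻¹) ^ 2) * ((b : ℝ)⁻¹) ^ J) := by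
  have hb0 : (0 : ℝ) < b := by positivity
  have hbr : (2 : ℝ) ≤ b := by exact_mod_cast hb
  have hR := RR_pos (α := α) hb G
  have hl := one_lt_lam_mul hb hα1
  have hl' : 0 < (lam b α * b - 1)⁻¹ := inv_pos.mpr (by linarith)
  obtain ⟨S, hSdef⟩ : ∃ S, S = (Sm b α M G D g).toReal := ⟨_, rfl⟩
  have hS0 : 0 ≤ S := by rw [hSdef]; exact ENNReal.toReal_nonneg
  by_cases hn : n ≤ D * J
  · refine (blk_shallow hb hM hG hMD hS hJ hn hN).trans ?_
    apply ENNReal.ofReal_le_ofReal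
    rw [← hSdef]
    apply mul_le_mul_of_nonneg_right _ (by positivity)
    have : 0 ≤ 4 * RR b α G ^ 3 * (‖g‖ * (lam b α * b - 1)⁻¹) ^ 2 := by positivity
    linarith
  · push Not at hn
    obtain ⟨L, hL⟩ : ∃ L, L = D * J := ⟨_, rfl⟩
    rw [← hL] at hn
    have hbL : N % b ^ L < b ^ L := Nat.mod_lt _ (by positivity)
    have hsh := blk_shallow hb hM hG hMD hS hJ (le_of_eq hL) hbL
    rw [← hSdef] at hsh ⊢
    obtain ⟨E, hE⟩ : ∃ E, E = ‖g‖ * (lam b α * b - 1)⁻¹ * ((lam b α * b) ^ L)⁻¹ := ⟨_, rfl⟩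
    have hE0 : 0 ≤ E := by rw [hE]; positivity
    have hpt : ∀ ξ ∈ blk b α G J, ‖mh b α n N g ξ‖ₑ ^ 2 ≤
        2 * ‖mh b α L (N % b ^ L) g ξ‖ₑ ^ 2 +
          ENNReal.ofReal (2 * (RR b α G ^ (J + 1) * E) ^ 2) := by
      intro ξ hξ
      have h1 := norm_mh_deep hb hα hα1 g n N L hn.le ξ
      rw [← hE] at h1
      have h2 : ‖mh b α n N g ξ‖ ≤ ‖mh b α L (N % b ^ L) g ξ‖ + RR b α G ^ (J + 1) * E := by
        refine h1.trans ?_
        gcongr
        exact hξ.2
      have h3 : ‖mh b α n N g ξ‖ ^ 2 ≤ 2 * ‖mh b α L (N % b ^ L) g ξ‖ ^ 2 +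
          2 * (RR b α G ^ (J + 1) * E) ^ 2 := by
        have h4 : ‖mh b α n N g ξ‖ ^ 2 ≤
            (‖mh b α L (N % b ^ L) g ξ‖ + RR b α G ^ (J + 1) * E) ^ 2 := by gcongr
        nlinarith [sq_nonneg (‖mh b α L (N % b ^ L) g ξ‖ - RR b α G ^ (J + 1) * E)]
      rw [← ofReal_norm, ← ofReal_norm, ← ENNReal.ofReal_pow (norm_nonneg _),
        ← ENNReal.ofReal_pow (norm_nonneg _)]
      have e1 : (2 : ℝ≥0∞) = ENNReal.ofReal 2 := by simp
      rw [e1, ← ENNReal.ofReal_mul (by norm_num), ← ENNReal.ofReal_add (by positivity)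
        (by positivity)]
      exact ENNReal.ofReal_le_ofReal h3
    have hm : Measurable (fun ξ => ‖mh b α L (N % b ^ L) g ξ‖ₑ ^ 2) := by
      have h5 : Continuous (fun ξ : ℝ => mh b α L (N % b ^ L) g ξ) :=
        (continuous_mh hb hα L (N % b ^ L)).comp (by fun_prop : Continuous (fun ξ : ℝ => (g, ξ)))
      exact h5.measurable.enorm.pow_const _
    calc ∫⁻ ξ in blk b α G J, ‖mh b α n N g ξ‖ₑ ^ 2
        ≤ ∫⁻ ξ in blk b α G J, (2 * ‖mh b α L (N % b ^ L) g ξ‖ₑ ^ 2 +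
          ENNReal.ofReal (2 * (RR b α G ^ (J + 1) * E) ^ 2)) :=
          setLIntegral_mono ((hm.const_mul _).add measurable_const) hpt
      _ = 2 * (∫⁻ ξ in blk b α G J, ‖mh b α L (N % b ^ L) g ξ‖ₑ ^ 2) +
          ENNReal.ofReal (2 * (RR b α G ^ (J + 1) * E) ^ 2) * volume (blk b α G J) := by
          rw [lintegral_add_right _ measurable_const, setLIntegral_const, lintegral_const_mul _ hm]
      _ ≤ 2 * ENNReal.ofReal ((2 * RR b α G + S) * ((b : ℝ)⁻¹) ^ J) +
          ENNReal.ofReal (2 * (RR b α G ^ (J + 1) * E) ^ 2) *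
            ENNReal.ofReal (2 * RR b α G ^ (J + 1)) := by
          gcongr
          exact volume_blk_le G J
      _ = ENNReal.ofReal (2 * ((2 * RR b α G + S) * ((b : ℝ)⁻¹) ^ J) +
          2 * (RR b α G ^ (J + 1) * E) ^ 2 * (2 * RR b α G ^ (J + 1))) := by
          have e1 : (2 : ℝ≥0∞) = ENNReal.ofReal 2 := by simp
          rw [ENNReal.ofReal_add (by positivity) (by positivity)]
          congr 1
          · rw [ENNReal.ofReal_mul (p := 2) (by norm_num), ← e1]
          · rw [ENNReal.ofReal_mul (p := 2 * (RR b α G ^ (J + 1) * E) ^ 2) (by positivity)]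
      _ ≤ _ := by
          apply ENNReal.ofReal_le_ofReal
          have e9 : (2 * (2 * RR b α G + S) + 4 * RR b α G ^ 3 *
              (‖g‖ * (lam b α * b - 1)⁻¹) ^ 2) * ((b : ℝ)⁻¹) ^ J =
              2 * ((2 * RR b α G + S) * ((b : ℝ)⁻¹) ^ J) + 4 * RR b α G ^ 3 *
              (‖g‖ * (lam b α * b - 1)⁻¹) ^ 2 * ((b : ℝ)⁻¹) ^ J := by ring
          rw [e9]
          apply add_le_add le_rfl
          -- the error term
          have h6 : (RR b α G ^ 3 * b) ^ J ≤ ((lam b α * b) ^ (2 * D)) ^ J := by gcongr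
          have h7 : ((lam b α * b) ^ (2 * D)) ^ J = ((lam b α * b) ^ L) ^ 2 := by
            rw [hL, ← pow_mul, ← pow_mul]; congr 1; ring
          rw [h7] at h6
          have hlL : 0 < (lam b α * b) ^ L := by positivity
          have h8 : RR b α G ^ (3 * J) * (((lam b α * b) ^ L)⁻¹) ^ 2 ≤ ((b : ℝ)⁻¹) ^ J := by
            rw [inv_pow, inv_pow, ← div_eq_mul_inv, div_le_iff₀ (by positivity),
              inv_mul_eq_div, le_div_iff₀ (by positivity), pow_mul, ← mul_pow]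
            exact h6
          calc 2 * (RR b α G ^ (J + 1) * E) ^ 2 * (2 * RR b α G ^ (J + 1))
              = 4 * RR b α G ^ 3 * (‖g‖ * (lam b α * b - 1)⁻¹) ^ 2 *
                (RR b α G ^ (3 * J) * (((lam b α * b) ^ L)⁻¹) ^ 2) := by
                rw [hE]; ring
            _ ≤ _ := by gcongr

/-- **Uniform energy bound** -/
theorem energy_bound (hb : 2 ≤ b) (hα : 0 < α) (hα1 : α < 1) {M G D : ℕ} (hM : 1 ≤ M)
    (hG : RR b α G * (b : ℝ) ^ 3 ≤ (b : ℝ) ^ G) (hMD : D + 1 ≤ 2 * M)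
    (hD : RR b α G ^ 3 * b ≤ (lam b α * b) ^ (2 * D)) (hR1 : 1 < RR b α G)
    {g : LipS} (hS : Sm b α M G D g < ∞) :
    ∃ C : ℕ, ∀ n N : ℕ, N < b ^ n → ∫⁻ ξ, ‖mh b α n N g ξ‖ₑ ^ 2 ≤ C := by
  have hb0 : (0 : ℝ) < b := by positivity
  have hbr : (2 : ℝ) ≤ b := by exact_mod_cast hb
  have hl := one_lt_lam_mul hb hα1
  have hl' : 0 < (lam b α * b - 1)⁻¹ := inv_pos.mpr (by linarith)
  have hR := RR_pos (α := α) hb G
  obtain ⟨A, hA⟩ : ∃ A : ℝ, A = 2 * (2 * RR b α G + (Sm b α M G D g).toReal) +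
        4 * RR b α G ^ 3 * (‖g‖ * (lam b α * b - 1)⁻¹) ^ 2 := ⟨_, rfl⟩
  have hA0 : 0 ≤ A := by
    rw [hA]
    have : 0 ≤ (Sm b α M G D g).toReal := ENNReal.toReal_nonneg
    positivity
  have hfin : ENNReal.ofReal (2 * RR b α G) + ∑' j : ℕ, ENNReal.ofReal (A * ((b : ℝ)⁻¹) ^ (j + 1)) <
      ∞ := by
    have h1 := tsum_ofReal_lt_top hb hA0 0
    simp only [pow_zero, one_mul] at h1
    exact ENNReal.add_lt_top.mpr ⟨ENNReal.ofReal_lt_top, h1⟩
  obtain ⟨C, hC⟩ := ENNReal.exists_nat_gt hfin.ne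
  refine ⟨C, fun n N hN => le_trans ?_ hC.le⟩
  have hcov : (univ : Set ℝ) ⊆ Metric.closedBall 0 (RR b α G) ∪ ⋃ j : ℕ, blk b α G (j + 1) := by
    intro ξ _
    by_cases hξ : |ξ| ≤ RR b α G
    · left
      rw [Metric.mem_closedBall, dist_zero_right, Real.norm_eq_abs]
      exact hξ
    · right
      push Not at hξ
      obtain ⟨m, hm1, hm2⟩ := exists_nat_pow_near (x := |ξ|) (y := RR b α G) (by linarith) hR1
      rw [mem_iUnion]
      have hm0 : m ≠ 0 := by
        rintro rfl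
        simp at hm2
        linarith
      refine ⟨m - 1, ?_⟩
      have e1 : m - 1 + 1 = m := by omega
      rw [e1]
      exact ⟨hm1, hm2.le⟩
  calc ∫⁻ ξ, ‖mh b α n N g ξ‖ₑ ^ 2 = ∫⁻ ξ in univ, ‖mh b α n N g ξ‖ₑ ^ 2 := by
        rw [setLIntegral_univ]
    _ ≤ ∫⁻ ξ in Metric.closedBall 0 (RR b α G) ∪ ⋃ j : ℕ, blk b α G (j + 1),
          ‖mh b α n N g ξ‖ₑ ^ 2 := lintegral_mono_set hcov
    _ ≤ (∫⁻ ξ in Metric.closedBall 0 (RR b α G), ‖mh b α n N g ξ‖ₑ ^ 2) +
          ∫⁻ ξ in ⋃ j : ℕ, blk b α G (j + 1), ‖mh b α n N g ξ‖ₑ ^ 2 :=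
        lintegral_union_le _ _ _
    _ ≤ ENNReal.ofReal (2 * RR b α G) + ∑' j : ℕ, ENNReal.ofReal (A * ((b : ℝ)⁻¹) ^ (j + 1)) := by
        gcongr
        · calc ∫⁻ ξ in Metric.closedBall 0 (RR b α G), ‖mh b α n N g ξ‖ₑ ^ 2
              ≤ ∫⁻ _ξ in Metric.closedBall (0 : ℝ) (RR b α G), 1 := by
                apply lintegral_mono
                intro ξ
                simp only
                apply pow_le_one₀ (zero_le)
                rw [← ofReal_norm, ← ENNReal.ofReal_one]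
                exact ENNReal.ofReal_le_ofReal (norm_mh_le n N g ξ)
            _ = _ := by
                rw [setLIntegral_const, one_mul, Real.volume_closedBall]
        · refine (lintegral_iUnion_le _ _).trans ?_
          refine ENNReal.tsum_le_tsum fun j => ?_
          rw [hA]
          exact blk_all hb hα hα1 hM hG hMD hD hS (by omega) hN

end

end Pool.Agent.Work.MP_22f354_an
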