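import Pool.Agent.Work.MP_22f354_an.Energy

/-!
The final assembly: choice of the parameters, transfer to the circle and prevalence.
-/

set_option autoImplicit false

namespace Pool.Agent.Work.MP_22f354_an

open Set Filter Topology MeasureTheory
open scoped NNReal ENNReal ComplexConjugate

section
variable {b : ℕ} {α : ℝ}

theorem exists_params (hb : 2 ≤ b) (hα : 0 < α) (hα1 : α < 1) :
    ∃ M G D c0 : ℕ, 1 ≤ M ∧ RR b α G * (b : ℝ) ^ 3 ≤ (b : ℝ) ^ G ∧ D + 1 ≤ 2 * M ∧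
      RR b α G ^ 3 * b ≤ (lam b α * b) ^ (2 * D) ∧ 1 < RR b α G ∧
      2 * M * (lam b α ^ (c0 + 1) * (1 - lam b α)⁻¹) ≤ 1 / 4 := by
  have hb0 : (0 : ℝ) < b := by positivity
  have hbr : (2 : ℝ) ≤ b := by exact_mod_cast hb
  have hl0 : 0 < lam b α := lam_pos hb
  have hl1 : lam b α < 1 := lam_lt_one hb hα
  have hl := one_lt_lam_mul hb hα1
  obtain ⟨G', hG'⟩ := pow_unbounded_of_one_lt ((b : ℝ) ^ 8) hl
  obtain ⟨D, hD⟩ := pow_unbounded_of_one_lt (RR b α (G' + 1) ^ 3 * b) hl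
  have hM0 : (0 : ℝ) < (D + 1 : ℕ) := by positivity
  have h1l : 0 < 1 - lam b α := by linarith
  obtain ⟨c0, hc0⟩ := exists_pow_lt_of_lt_one
    (show 0 < (1 - lam b α) / (8 * ((D + 1 : ℕ) : ℝ)) by positivity) hl1
  refine ⟨D + 1, G' + 1, D, c0, by omega, ?_, by omega, ?_, ?_, ?_⟩
  · unfold RR
    rw [Nat.add_sub_cancel, inv_pow]
    rw [mul_pow] at hG'
    have hlG : 0 < lam b α ^ G' := pow_pos hl0 _
    calc (b : ℝ) ^ 5 * (lam b α ^ G')⁻¹ * (b : ℝ) ^ 3 = (b : ℝ) ^ 8 * (lam b α ^ G')⁻¹ := by ring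
      _ ≤ (lam b α ^ G' * (b : ℝ) ^ G') * (lam b α ^ G')⁻¹ := by gcongr
      _ = (b : ℝ) ^ G' := by field_simp
      _ ≤ (b : ℝ) ^ (G' + 1) := pow_le_pow_right₀ (by linarith) (by omega)
  · refine hD.le.trans ?_
    exact pow_le_pow_right₀ hl.le (by omega)
  · unfold RR
    have h1 : (1 : ℝ) ≤ ((lam b α)⁻¹) ^ (G' + 1 - 1) := by
      apply one_le_pow₀
      rw [one_le_inv₀ hl0]
      exact hl1.le
    have h2 : (1 : ℝ) < (b : ℝ) ^ 5 := one_lt_pow₀ (by linarith) (by norm_num)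
    nlinarith
  · have h3 : lam b α ^ (c0 + 1) ≤ lam b α ^ c0 := pow_le_pow_of_le_one hl0.le hl1.le (by omega)
    have h4 : lam b α ^ (c0 + 1) ≤ (1 - lam b α) / (8 * ((D + 1 : ℕ) : ℝ)) := h3.trans hc0.le
    calc 2 * ((D + 1 : ℕ) : ℝ) * (lam b α ^ (c0 + 1) * (1 - lam b α)⁻¹)
        ≤ 2 * ((D + 1 : ℕ) : ℝ) *
          ((1 - lam b α) / (8 * ((D + 1 : ℕ) : ℝ)) * (1 - lam b α)⁻¹) := by gcongr
      _ = 1 / 4 := by field_simp; norm_num

theorem good_of_energy (hb : 2 ≤ b) (hα : 0 < α) (hα1 : α < 1) (g : LipS) (C : ℕ)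
    (hC : ∀ n N : ℕ, N < b ^ n → ∫⁻ ξ, ‖mh b α n N g ξ‖ₑ ^ 2 ≤ C) :
    ∃ C0 C1, Good b α (FW b α g) C0 C1 := by
  have hb0 : (0 : ℝ) < b := by positivity
  have hbr : (2 : ℝ) ≤ b := by exact_mod_cast hb
  have hl0 : 0 < lam b α := lam_pos hb
  have hl1 : lam b α < 1 := lam_lt_one hb hα
  have hl := one_lt_lam_mul hb hα1
  have h1 : 0 < (lam b α * b - 1)⁻¹ := inv_pos.mpr (by linarith)
  have h2 : 0 < (1 - lam b α)⁻¹ := inv_pos.mpr (by linarith)
  have hcont : ∀ n N, Continuous (fun ξ : ℝ => mh b α n N g ξ) := fun n N =>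
    (continuous_mh hb hα n N).comp (by fun_prop : Continuous (fun ξ : ℝ => (g, ξ)))
  have hlint : ∀ n N : ℕ, ∫⁻ ξ, ‖mh b α n N g ξ‖ₑ ^ 2 =
      ∫⁻ ξ, ENNReal.ofReal (‖mh b α n N g ξ‖ ^ 2) := by
    intro n N
    apply lintegral_congr
    intro ξ
    rw [ENNReal.ofReal_pow (norm_nonneg _), ofReal_norm]
  have hint : ∀ n N : ℕ, N < b ^ n → Integrable (fun ξ => ‖mh b α n N g ξ‖ ^ 2) := by
    intro n N hN
    refine ⟨((hcont n N).norm.pow 2).aestronglyMeasurable, ?_⟩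
    rw [hasFiniteIntegral_iff_ofReal (Eventually.of_forall fun ξ => by positivity), ← hlint]
    exact lt_of_le_of_lt (hC n N hN) (ENNReal.natCast_lt_top C)
  have hval : ∀ n N : ℕ, N < b ^ n → ∫ ξ, ‖mh b α n N g ξ‖ ^ 2 ≤ C := by
    intro n N hN
    have hms : AEStronglyMeasurable (fun ξ => ‖mh b α n N g ξ‖ ^ 2) volume :=
      ((hcont n N).norm.pow 2).aestronglyMeasurable
    rw [integral_eq_lintegral_of_nonneg_ae (Eventually.of_forall fun ξ => by positivity) hms,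
      ← hlint]
    apply ENNReal.toReal_le_of_le_ofReal (by positivity)
    rw [ENNReal.ofReal_natCast]
    exact hC n N hN
  have hsq : ∀ n N : ℕ, (fun ξ => ‖chf (FW b α g) (Jo b n N) ξ‖ ^ 2) =
      fun ξ => (((b : ℝ) ^ n)⁻¹) ^ 2 * ‖mh b α n N g (lam b α ^ n * ξ)‖ ^ 2 := by
    intro n N
    funext ξ
    rw [chf_eq_mh hb, norm_mul, Complex.norm_real, Real.norm_eq_abs,
      abs_of_pos (by positivity : (0 : ℝ) < ((b : ℝ) ^ n)⁻¹), mul_pow]
  refine ⟨‖g‖ * ((lam b α * b - 1)⁻¹ + 2 * (1 - lam b α)⁻¹) + 1, C + 1, ?_⟩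
  refine ⟨hb, hα, hα1, continuous_FW hb hα g, by positivity, by positivity, ?_, ?_, ?_⟩
  · intro n N _ s hs t ht
    have hbn : (0 : ℝ) < (b : ℝ) ^ n := by positivity
    have hst : |s - t| ≤ ((b : ℝ) ^ n)⁻¹ := by
      unfold Jc at hs ht
      have e1 : ((N : ℝ) + 1) / b ^ n = (N : ℝ) / b ^ n + ((b : ℝ) ^ n)⁻¹ := by field_simp
      rw [e1] at hs ht
      rw [abs_le]
      constructor <;> linarith [hs.1, hs.2, ht.1, ht.2]
    refine (osc_le hb hα hα1 g s t n hst).trans ?_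
    show _ ≤ _ * lam b α ^ n
    gcongr
    linarith
  · intro n N hN
    rw [hsq]
    apply Integrable.const_mul
    exact (hint n N hN).comp_mul_left' (pow_pos hl0 n).ne'
  · intro n N hN
    rw [hsq, integral_const_mul]
    have h3 := Measure.integral_comp_mul_left (fun ξ => ‖mh b α n N g ξ‖ ^ 2) (lam b α ^ n)
    rw [h3, abs_of_pos (inv_pos.mpr (pow_pos hl0 n)), smul_eq_mul]
    show _ ≤ _ * (_ * (lam b α ^ n)⁻¹)
    have h4 := hval n N hN
    have h5 : 0 < (lam b α ^ n)⁻¹ := inv_pos.mpr (pow_pos hl0 n)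
    calc (((b : ℝ) ^ n)⁻¹) ^ 2 * ((lam b α ^ n)⁻¹ * ∫ ξ, ‖mh b α n N g ξ‖ ^ 2)
        ≤ (((b : ℝ) ^ n)⁻¹) ^ 2 * ((lam b α ^ n)⁻¹ * (C + 1)) := by
          gcongr
          linarith
      _ = _ := by ring

/-- the good set -/
def Pset (b : ℕ) (α : ℝ) : Set LipS :=
  {g | ∃ C : ℕ, ∀ n N : ℕ, N < b ^ n → ∫⁻ ξ, ‖mh b α n N g ξ‖ₑ ^ 2 ≤ C}

lemma measurableSet_Pset (hb : 2 ≤ b) (hα : 0 < α) : MeasurableSet (Pset b α) := by
  have h1 : ∀ n N : ℕ, Measurable (fun g : LipS => ∫⁻ ξ, ‖mh b α n N g ξ‖ₑ ^ 2) := by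
    intro n N
    apply Measurable.lintegral_prod_right' (f := fun p : LipS × ℝ => ‖mh b α n N p.1 p.2‖ₑ ^ 2)
    exact ((continuous_mh hb hα n N).measurable.enorm).pow_const _
  have h2 : Pset b α = ⋃ C : ℕ, ⋂ n : ℕ, ⋂ N : ℕ, ⋂ _ : N < b ^ n,
      {g : LipS | ∫⁻ ξ, ‖mh b α n N g ξ‖ₑ ^ 2 ≤ C} := by
    ext g
    simp only [Pset, mem_iUnion, mem_iInter]
    rfl
  rw [h2]
  refine MeasurableSet.iUnion fun C => MeasurableSet.iInter fun n => MeasurableSet.iInter fun N =>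
    MeasurableSet.iInter fun _ => ?_
  exact measurableSet_le (h1 n N) measurable_const

theorem ae_mem_Pset (hb : 2 ≤ b) (hα : 0 < α) (hα1 : α < 1) (g : LipS) :
    ∀ᵐ a ∂(PP (ℕ × ℕ)), g + gA b a ∈ Pset b α := by
  obtain ⟨M, G, D, c0, h1, h2, h3, h4, h5, h6⟩ := exists_params hb hα hα1
  filter_upwards [ae_Sm_lt_top (M := M) (G := G) (D := D) hb hα h6 g] with a ha
  exact energy_bound hb hα hα1 h1 h2 h3 h4 h5 ha

lemma gA_clamp (hb : 2 ≤ b) (a : ℕ × ℕ → ℝ) : gA b (fun κ => cl (a κ)) = gA b a := by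
  apply LipS.ext
  funext x
  show gA b (fun κ => cl (a κ)) x = gA b a x
  rw [gA_apply hb, gA_apply hb]
  congr 1
  funext κ
  exact cl_eq (abs_cl_le _)

theorem prevalent_of_Pset_subset (hb : 2 ≤ b) (hα : 0 < α) (hα1 : α < 1) {S : Set LipS}
    (hS : Pset b α ⊆ S) : IsPrevalent S := by
  have hgm : Measurable (gA b) := (continuous_gA hb).measurable
  refine ⟨(PP (ℕ × ℕ)).map (gA b), (Pset b α)ᶜ, compl_subset_compl.mpr hS,
    (measurableSet_Pset hb hα).compl, ?_, ?_⟩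
  · have hcube : IsCompact (Set.pi univ (fun _ : ℕ × ℕ => Icc (-1 : ℝ) 1)) :=
      isCompact_univ_pi fun _ => isCompact_Icc
    refine ⟨gA b '' (Set.pi univ (fun _ : ℕ × ℕ => Icc (-1 : ℝ) 1)),
      hcube.image (continuous_gA hb), ?_⟩
    have hK : MeasurableSet (gA b '' (Set.pi univ (fun _ : ℕ × ℕ => Icc (-1 : ℝ) 1))) :=
      (hcube.image (continuous_gA hb)).measurableSet
    have h1 : (PP (ℕ × ℕ)).map (gA b)
        (gA b '' (Set.pi univ (fun _ : ℕ × ℕ => Icc (-1 : ℝ) 1))) = 1 := by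
      rw [Measure.map_apply hgm hK]
      have h2 : gA b ⁻¹' (gA b '' (Set.pi univ (fun _ : ℕ × ℕ => Icc (-1 : ℝ) 1))) = univ := by
        rw [eq_univ_iff_forall]
        intro a
        refine ⟨fun κ => cl (a κ), ?_, gA_clamp hb a⟩
        intro κ _
        have := abs_le.mp (abs_cl_le (a κ))
        exact this
      rw [h2, measure_univ]
    rw [h1]
    exact ⟨one_pos, ENNReal.one_lt_top⟩
  · intro x
    have himg : (fun z => x + z) '' (Pset b α)ᶜ = (fun z => -x + z) ⁻¹' (Pset b α)ᶜ := by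
      ext z
      constructor
      · rintro ⟨w, hw, rfl⟩
        show -x + (x + w) ∈ (Pset b α)ᶜ
        rwa [neg_add_cancel_left]
      · intro hz
        exact ⟨-x + z, hz, add_neg_cancel_left _ _⟩
    rw [himg]
    have hm : Measurable (fun z : LipS => -x + z) :=
      (continuous_const.add continuous_id).measurable
    rw [Measure.map_apply hgm (hm (measurableSet_Pset hb hα).compl)]
    exact ae_iff.mp (ae_mem_Pset hb hα hα1 (-x))

/-- constant functions are not in the good set -/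
lemma not_const_of_mem (hb : 2 ≤ b) {g : LipS} (hg : g ∈ Pset b α) :
    ¬ ∃ c : ℝ, ∀ x, g x = c := by
  rintro ⟨c, hcc⟩
  obtain ⟨C, hC⟩ := hg
  have h0 := hC 0 0 (by simp)
  have hF : ∀ t, FW b α g t = ∑' k : ℕ, lam b α ^ k * c := by
    intro t
    rw [FW_eq hb]
    simp_rw [hcc]
  have h1 : ∀ ξ : ℝ, ‖mh b α 0 0 g ξ‖ₑ = 1 := by
    intro ξ
    have h2 : mh b α 0 0 g ξ = Complex.exp (Complex.I * ξ *
        (((lam b α ^ 0)⁻¹ * ∑' k : ℕ, lam b α ^ k * c : ℝ))) := by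
      unfold mh hc
      simp_rw [hF]
      rw [setIntegral_const]
      simp
    rw [h2, ← ofReal_norm, norm_exp_I_mul, ENNReal.ofReal_one]
  simp_rw [h1] at h0
  simp at h0

/-! ### Transfer to the circle -/

lemma dimH_half (s : Set ℝ) (u : ℝ) (hs : s ⊆ Icc u (u + 1 / 2)) :
    dimH ((fun t : ℝ => (t : UnitAddCircle)) '' s) = dimH s := by
  set f : Icc u (u + 1 / 2) → UnitAddCircle := fun t => ((t : ℝ) : UnitAddCircle) with hf
  have hiso : Isometry f := by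
    apply Isometry.of_dist_eq
    intro x y
    rw [hf]
    simp only
    rw [dist_eq_norm, ← AddCircle.coe_sub, Subtype.dist_eq, Real.dist_eq]
    rw [AddCircle.norm_coe_eq_abs_iff (p := (1 : ℝ)) one_ne_zero]
    rw [abs_one, abs_le]
    have hx := x.2
    have hy := y.2
    constructor <;> linarith [hx.1, hx.2, hy.1, hy.2]
  have h1 : s = (Subtype.val : Icc u (u + 1 / 2) → ℝ) '' (Subtype.val ⁻¹' s) := by
    rw [Subtype.image_preimage_coe, inter_eq_self_of_subset_right hs]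
  have h2 : (fun t : ℝ => (t : UnitAddCircle)) '' s = f '' (Subtype.val ⁻¹' s) := by
    conv_lhs => rw [h1]
    rw [image_image]
  rw [h2, hiso.dimH_image]
  conv_rhs => rw [h1]
  rw [isometry_subtype_coe.dimH_image]

theorem dimH_circle (b : ℕ) (α : ℝ) (g : LipS) (y : ℝ) :
    dimH (W b α g ⁻¹' {y}) = dimH (lev (FW b α g) y) := by
  set S := lev (FW b α g) y with hS
  have himg : W b α g ⁻¹' {y} = (fun t : ℝ => (t : UnitAddCircle)) '' S := by
    ext x
    constructor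
    · intro hx
      obtain ⟨t, ht, rfl⟩ : ∃ t ∈ Ico (0 : ℝ) 1, (t : UnitAddCircle) = x := by
        have := AddCircle.coe_image_Ico_eq (1 : ℝ) (0 : ℝ)
        have hxm : x ∈ (QuotientAddGroup.mk : ℝ → UnitAddCircle) '' Ico 0 (0 + 1) := by
          rw [this]; exact mem_univ x
        obtain ⟨t, ht, htx⟩ := hxm
        rw [zero_add] at ht
        exact ⟨t, ht, htx⟩
      exact ⟨t, ⟨⟨ht.1, ht.2.le⟩, hx⟩, rfl⟩
    · rintro ⟨t, ht, rfl⟩
      exact ht.2
  rw [himg]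
  apply le_antisymm
  · have hlip : LipschitzWith 1 (fun t : ℝ => (t : UnitAddCircle)) := by
      apply LipschitzWith.of_dist_le_mul
      intro s t
      rw [Real.dist_eq]
      simpa using dist_coe_le s t
    exact hlip.dimH_image_le S
  · have hsplit : S = (S ∩ Icc 0 (0 + 1 / 2)) ∪ (S ∩ Icc (1 / 2) (1 / 2 + 1 / 2)) := by
      rw [← inter_union_distrib_left]
      rw [eq_comm, inter_eq_left]
      intro t ht
      have h1 := ht.1
      by_cases h2 : t ≤ 1 / 2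
      · left
        exact ⟨h1.1, by linarith⟩
      · right
        push Not at h2
        refine ⟨h2.le, ?_⟩
        have := h1.2
        norm_num
        exact this
    conv_lhs => rw [hsplit]
    rw [dimH_union]
    apply max_le
    · rw [← dimH_half _ 0 inter_subset_right]
      exact dimH_mono (image_mono inter_subset_left)
    · rw [← dimH_half _ (1 / 2) inter_subset_right]
      exact dimH_mono (image_mono inter_subset_left)

lemma range_eq (b : ℕ) (α : ℝ) (g : LipS) : Set.range (W b α g) = FW b α g '' Icc 0 1 := by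
  ext y
  constructor
  · rintro ⟨x, rfl⟩
    obtain ⟨t, ht, rfl⟩ : ∃ t ∈ Ico (0 : ℝ) 1, (t : UnitAddCircle) = x := by
      have := AddCircle.coe_image_Ico_eq (1 : ℝ) (0 : ℝ)
      have hxm : x ∈ (QuotientAddGroup.mk : ℝ → UnitAddCircle) '' Ico 0 (0 + 1) := by
        rw [this]; exact mem_univ x
      obtain ⟨t, ht, htx⟩ := hxm
      rw [zero_add] at ht
      exact ⟨t, ht, htx⟩
    exact ⟨t, ⟨ht.1, ht.2.le⟩, rfl⟩
  · rintro ⟨t, _, rfl⟩
    exact ⟨_, rfl⟩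

/-- **Main theorem.** -/
theorem main (hb : 2 ≤ b) (hα : 0 < α) (hα1 : α < 1) :
    IsPrevalent {g : LipS | (¬ ∃ c : ℝ, ∀ x, g x = c) ∧
      ∀ᵐ y : ℝ, y ∈ Set.range (W b α g) →
        dimH (W b α g ⁻¹' {y}) = ENNReal.ofReal (1 - α)} := by
  apply prevalent_of_Pset_subset hb hα hα1
  intro g hg
  refine ⟨not_const_of_mem hb hg, ?_⟩
  obtain ⟨C, hC⟩ := hg
  obtain ⟨C0, C1, hgood⟩ := good_of_energy hb hα hα1 g C hC
  filter_upwards [hgood.dimH_eq] with y hy hyR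
  rw [range_eq] at hyR
  rw [dimH_circle]
  exact hy hyR

end

end Pool.Agent.Work.MP_22f354_an
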