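import Pool.Agent.Work.MP_22f354_an.Density

/-!
Level sets: general set-up and the upper bound for the dimension.
-/

set_option autoImplicit false

namespace Pool.Agent.Work.MP_22f354_an

open MeasureTheory Set Filter Topology Metric
open scoped ENNReal NNReal

/-- half-open `b`-adic interval -/
def Jo (b n N : ℕ) : Set ℝ := Ico ((N : ℝ) / b ^ n) ((N + 1) / b ^ n)

/-- closed `b`-adic interval -/
def Jc (b n N : ℕ) : Set ℝ := Icc ((N : ℝ) / b ^ n) ((N + 1) / b ^ n)

/-- level set -/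
def lev (F : ℝ → ℝ) (y : ℝ) : Set ℝ := {t ∈ Icc (0 : ℝ) 1 | F t = y}

/-- The properties of `F` used in the dimension computation. -/
structure Good (b : ℕ) (α : ℝ) (F : ℝ → ℝ) (C0 C1 : ℝ) : Prop where
  hb : 2 ≤ b
  hα0 : 0 < α
  hα1 : α < 1
  cont : Continuous F
  hC0 : 0 < C0
  hC1 : 0 < C1
  osc : ∀ n N : ℕ, N < b ^ n → ∀ s ∈ Jc b n N, ∀ t ∈ Jc b n N,
    |F s - F t| ≤ C0 * ((b : ℝ) ^ (-α)) ^ n
  int : ∀ n N : ℕ, N < b ^ n → Integrable (fun ξ => ‖chf F (Jo b n N) ξ‖ ^ 2)
  le : ∀ n N : ℕ, N < b ^ n → ∫ ξ, ‖chf F (Jo b n N) ξ‖ ^ 2 ≤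
    C1 * (((b : ℝ) ^ n)⁻¹ ^ 2 * (((b : ℝ) ^ (-α)) ^ n)⁻¹)

lemma exists_Jc {b : ℕ} (hb : 2 ≤ b) (n : ℕ) {t : ℝ} (ht : t ∈ Icc (0 : ℝ) 1) :
    ∃ N : ℕ, N < b ^ n ∧ t ∈ Jc b n N := by
  have hbn : (0 : ℝ) < (b : ℝ) ^ n := by positivity
  rcases eq_or_lt_of_le ht.2 with h1 | h1
  · refine ⟨b ^ n - 1, Nat.sub_lt (by positivity) one_pos, ?_⟩
    have hcast : ((b ^ n - 1 : ℕ) : ℝ) = (b : ℝ) ^ n - 1 := by
      rw [Nat.cast_sub (Nat.one_le_pow _ _ (by omega))]; push_cast; rfl
    unfold Jc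
    rw [hcast, h1]
    constructor
    · rw [div_le_one hbn]; linarith
    · rw [sub_add_cancel, div_self hbn.ne']
  · refine ⟨⌊t * b ^ n⌋₊, ?_, ?_⟩
    · rw [Nat.floor_lt (by have := ht.1; positivity)]
      push_cast
      calc t * (b : ℝ) ^ n < 1 * b ^ n := by gcongr
        _ = b ^ n := one_mul _
    · have h0 : 0 ≤ t * (b : ℝ) ^ n := mul_nonneg ht.1 hbn.le
      unfold Jc
      constructor
      · rw [div_le_iff₀ hbn]; exact Nat.floor_le h0
      · rw [le_div_iff₀ hbn]; exact (Nat.lt_floor_add_one _).le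

lemma exists_Jo {b : ℕ} (hb : 2 ≤ b) (n : ℕ) {t : ℝ} (ht : t ∈ Ico (0 : ℝ) 1) :
    ∃ N : ℕ, N < b ^ n ∧ t ∈ Jo b n N := by
  have hbn : (0 : ℝ) < (b : ℝ) ^ n := by positivity
  refine ⟨⌊t * b ^ n⌋₊, ?_, ?_⟩
  · rw [Nat.floor_lt (by have := ht.1; positivity)]
    push_cast
    calc t * (b : ℝ) ^ n < 1 * b ^ n := by
          have := ht.2
          gcongr
      _ = b ^ n := one_mul _
  · have h0 : 0 ≤ t * (b : ℝ) ^ n := mul_nonneg ht.1 hbn.le
    unfold Jo
    constructor
    · rw [div_le_iff₀ hbn]; exact Nat.floor_le h0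
    · rw [lt_div_iff₀ hbn]; exact Nat.lt_floor_add_one _

/-- the geometric ratio in exponent form -/
lemma pow_rpow_comm {b : ℕ} (hb : 2 ≤ b) (s : ℝ) (n : ℕ) :
    ((b : ℝ) ^ n) ^ s = ((b : ℝ) ^ s) ^ n := by
  have hb0 : (0 : ℝ) ≤ b := by positivity
  rw [← Real.rpow_natCast, ← Real.rpow_mul hb0, mul_comm, Real.rpow_mul hb0, Real.rpow_natCast]

theorem hausdorff_zero {b : ℕ} {α : ℝ} {F : ℝ → ℝ} {C0 C1 : ℝ} (h : Good b α F C0 C1) {s : ℝ}
    (hs : 1 - α < s) : ∀ᵐ y : ℝ, Measure.hausdorffMeasure s (lev F y) = 0 := by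
  have hb := h.hb
  have hbr : (2 : ℝ) ≤ b := by exact_mod_cast hb
  have hb0 : (0 : ℝ) < b := by linarith
  have hs0 : 0 < s := by linarith [h.hα1]
  set lam : ℝ := (b : ℝ) ^ (-α) with hlam
  have hlam0 : 0 < lam := by positivity
  -- the ratio
  set q : ℝ := b * lam * ((b : ℝ) ^ s)⁻¹ with hq
  have hq0 : 0 ≤ q := by positivity
  have hq1 : q < 1 := by
    have e1 : q = (b : ℝ) ^ (1 - α - s) := by
      rw [hq, hlam, ← Real.rpow_neg hb0.le]
      nth_rewrite 1 [← Real.rpow_one (b : ℝ)]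
      rw [← Real.rpow_add hb0, ← Real.rpow_add hb0]
      congr 1
    rw [e1]
    exact Real.rpow_lt_one_of_one_lt_of_neg (by linarith) (by linarith)
  -- counting function
  set c : ℕ → ℝ → ℝ≥0∞ := fun n y => ∑ N ∈ Finset.range (b ^ n),
    (F '' Jc b n N).indicator 1 y with hc
  have hcompJ : ∀ n N, IsCompact (F '' Jc b n N) := fun n N => isCompact_Icc.image h.cont
  have hvolF : ∀ n N, N < b ^ n → volume (F '' Jc b n N) ≤ ENNReal.ofReal (2 * (C0 * lam ^ n)) := by
    intro n N hN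
    have hbn : (0 : ℝ) < (b : ℝ) ^ n := by positivity
    have hsub : F '' Jc b n N ⊆ closedBall (F ((N : ℝ) / b ^ n)) (C0 * lam ^ n) := by
      rintro y ⟨t, ht, rfl⟩
      rw [mem_closedBall, Real.dist_eq]
      apply h.osc n N hN t ht
      unfold Jc
      constructor
      · exact le_rfl
      · gcongr; linarith
    exact (measure_mono hsub).trans (by rw [Real.volume_closedBall])
  have hcm : ∀ n, Measurable (c n) := by
    intro n
    apply Finset.measurable_sum
    intro N _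
    exact measurable_one.indicator (hcompJ n N).measurableSet
  have hcint : ∀ n, ∫⁻ y, c n y ≤ ENNReal.ofReal (b ^ n * (2 * (C0 * lam ^ n))) := by
    intro n
    simp only [hc]
    rw [lintegral_finsetSum]
    · calc ∑ N ∈ Finset.range (b ^ n), ∫⁻ y, (F '' Jc b n N).indicator 1 y
          ≤ ∑ N ∈ Finset.range (b ^ n), ENNReal.ofReal (2 * (C0 * lam ^ n)) := by
            refine Finset.sum_le_sum fun N hN => ?_
            rw [lintegral_indicator_one (hcompJ n N).measurableSet]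
            exact hvolF n N (Finset.mem_range.mp hN)
        _ = _ := by
            have e1 : ((b ^ n : ℕ) : ℝ≥0∞) = ENNReal.ofReal ((b : ℝ) ^ n) := by
              rw [ENNReal.ofReal_pow (by positivity), ENNReal.ofReal_natCast]
              push_cast
              rfl
            rw [Finset.sum_const, Finset.card_range, nsmul_eq_mul, e1,
              ← ENNReal.ofReal_mul (by positivity)]
    · intro N _
      exact measurable_one.indicator (hcompJ n N).measurableSet
  have hsumfin : ∫⁻ y, ∑' n, ENNReal.ofReal (((b : ℝ) ^ s)⁻¹ ^ n) * c n y < ∞ := by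
    rw [lintegral_tsum]
    · calc ∑' n, ∫⁻ y, ENNReal.ofReal (((b : ℝ) ^ s)⁻¹ ^ n) * c n y
          ≤ ∑' n, ENNReal.ofReal (2 * C0 * q ^ n) := by
            refine ENNReal.tsum_le_tsum fun n => ?_
            rw [lintegral_const_mul _ (hcm n)]
            calc ENNReal.ofReal (((b : ℝ) ^ s)⁻¹ ^ n) * ∫⁻ y, c n y
                ≤ ENNReal.ofReal (((b : ℝ) ^ s)⁻¹ ^ n) *
                  ENNReal.ofReal (b ^ n * (2 * (C0 * lam ^ n))) := by gcongr; exact hcint n
              _ = ENNReal.ofReal (2 * C0 * q ^ n) := by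
                  rw [← ENNReal.ofReal_mul (by positivity)]
                  congr 1
                  rw [hq, mul_pow, mul_pow]
                  ring
        _ = ENNReal.ofReal (∑' n, 2 * C0 * q ^ n) := by
            rw [ENNReal.ofReal_tsum_of_nonneg]
            · intro n
              have := h.hC0
              positivity
            · exact (summable_geometric_of_lt_one hq0 hq1).mul_left _
        _ < ∞ := ENNReal.ofReal_lt_top
    · intro n
      exact ((hcm n).const_mul _).aemeasurable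
  have hae := ae_lt_top (by
    apply Measurable.tsum
    intro n
    exact (hcm n).const_mul _) hsumfin.ne
  filter_upwards [hae] with y hy
  have htend : Tendsto (fun n => ENNReal.ofReal (((b : ℝ) ^ s)⁻¹ ^ n) * c n y) atTop (𝓝 0) :=
    ENNReal.tendsto_atTop_zero_of_tsum_ne_top hy.ne
  -- covering
  have hle := Measure.hausdorffMeasure_le_liminf_sum (ι := fun n => Fin (b ^ n)) s (lev F y)
    (l := atTop) (fun n : ℕ => ENNReal.ofReal (((b : ℝ)⁻¹) ^ n)) (by
      rw [← ENNReal.ofReal_zero]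
      apply ENNReal.tendsto_ofReal
      apply tendsto_pow_atTop_nhds_zero_of_lt_one (by positivity)
      apply inv_lt_one_of_one_lt₀
      linarith)
    (fun n i => Jc b n i ∩ lev F y) (by
      filter_upwards with n i
      refine (ediam_mono inter_subset_left).trans ?_
      unfold Jc
      rw [Real.ediam_Icc]
      apply ENNReal.ofReal_le_ofReal
      rw [← sub_div, add_sub_cancel_left, one_div, inv_pow]) (by
      filter_upwards with n t ht
      obtain ⟨N, hN, htN⟩ := exists_Jc hb n ht.1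
      exact mem_iUnion.mpr ⟨⟨N, hN⟩, htN, ht⟩)
  refine le_antisymm (hle.trans ?_) zero_le
  have hterm : ∀ n, ∑ i : Fin (b ^ n), ediam (Jc b n i ∩ lev F y) ^ s ≤
      ENNReal.ofReal (((b : ℝ) ^ s)⁻¹ ^ n) * c n y := by
    intro n
    simp only [hc]
    rw [Finset.mul_sum, ← Fin.sum_univ_eq_sum_range (fun N =>
      ENNReal.ofReal (((b : ℝ) ^ s)⁻¹ ^ n) * (F '' Jc b n N).indicator 1 y)]
    refine Finset.sum_le_sum fun i _ => ?_
    by_cases hi : y ∈ F '' Jc b n i
    · rw [indicator_of_mem hi, Pi.one_apply, mul_one]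
      have h1 : ediam (Jc b n i ∩ lev F y) ≤ ENNReal.ofReal (((b : ℝ) ^ n)⁻¹) := by
        refine (ediam_mono inter_subset_left).trans ?_
        unfold Jc
        rw [Real.ediam_Icc]
        apply ENNReal.ofReal_le_ofReal
        rw [← sub_div, add_sub_cancel_left, one_div]
      calc ediam (Jc b n i ∩ lev F y) ^ s ≤ ENNReal.ofReal (((b : ℝ) ^ n)⁻¹) ^ s := by gcongr
        _ = ENNReal.ofReal (((b : ℝ) ^ s)⁻¹ ^ n) := by
            rw [ENNReal.ofReal_rpow_of_pos (by positivity)]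
            congr 1
            rw [Real.inv_rpow (by positivity), pow_rpow_comm hb, inv_pow]
    · have hempty : Jc b n i ∩ lev F y = ∅ := by
        rw [eq_empty_iff_forall_notMem]
        rintro t ⟨ht1, ht2⟩
        exact hi ⟨t, ht1, ht2.2⟩
      rw [hempty, ediam_empty, ENNReal.zero_rpow_of_pos hs0]
      exact zero_le
  calc liminf (fun n => ∑ i : Fin (b ^ n), ediam (Jc b n i ∩ lev F y) ^ s) atTop
      ≤ liminf (fun n => ENNReal.ofReal (((b : ℝ) ^ s)⁻¹ ^ n) * c n y) atTop :=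
        liminf_le_liminf (Eventually.of_forall hterm)
    _ = 0 := htend.liminf_eq

/-- Upper bound for the dimension of almost every level set. -/
theorem dimH_le_ae {b : ℕ} {α : ℝ} {F : ℝ → ℝ} {C0 C1 : ℝ} (h : Good b α F C0 C1) :
    ∀ᵐ y : ℝ, dimH (lev F y) ≤ ENNReal.ofReal (1 - α) := by
  have hall : ∀ k : ℕ, ∀ᵐ y : ℝ,
      Measure.hausdorffMeasure (1 - α + 1 / ((k : ℝ) + 1)) (lev F y) = 0 := by
    intro k
    apply hausdorff_zero h
    have : (0 : ℝ) < 1 / ((k : ℝ) + 1) := by positivity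
    linarith
  rw [← ae_all_iff] at hall
  filter_upwards [hall] with y hy
  have h1 : ∀ k : ℕ, dimH (lev F y) ≤ ENNReal.ofReal (1 - α + 1 / ((k : ℝ) + 1)) := by
    intro k
    have hpos : 0 ≤ 1 - α + 1 / ((k : ℝ) + 1) := by
      have : (0 : ℝ) < 1 / ((k : ℝ) + 1) := by positivity
      linarith [h.hα1]
    have h2 := dimH_le_of_hausdorffMeasure_ne_top (s := lev F y)
      (d := Real.toNNReal (1 - α + 1 / ((k : ℝ) + 1))) (by
        rw [Real.coe_toNNReal _ hpos, hy k]; simp)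
    exact h2
  have hlim : Tendsto (fun k : ℕ => ENNReal.ofReal (1 - α + 1 / ((k : ℝ) + 1))) atTop
      (𝓝 (ENNReal.ofReal (1 - α))) := by
    apply ENNReal.tendsto_ofReal
    have := tendsto_one_div_add_atTop_nhds_zero_nat (𝕜 := ℝ)
    simpa using this.const_add (1 - α)
  exact ge_of_tendsto hlim (Eventually.of_forall h1)

end Pool.Agent.Work.MP_22f354_an
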