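import Pool.Agent.Work.MP_22f354_an.LipDefs

/-!
Lemmas on the space `Lip(S¹)` and Weierstrass functions.
-/

set_option autoImplicit false

namespace Pool.Agent.Work.MP_22f354_an

open Set Filter Topology MeasureTheory
open scoped NNReal ENNReal

/-- the lift of the Weierstrass function to the line -/
noncomputable def FW (b : ℕ) (α : ℝ) (g : LipS) (t : ℝ) : ℝ := W b α g (t : UnitAddCircle)

/-- the ratio `b ^ (-α)` -/
noncomputable def lam (b : ℕ) (α : ℝ) : ℝ := (b : ℝ) ^ (-α)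

lemma rpow_eq_lam {b : ℕ} (_hb : 2 ≤ b) (α : ℝ) (k : ℕ) : (b : ℝ) ^ (-(α * k)) = lam b α ^ k := by
  unfold lam
  rw [← Real.rpow_natCast, ← Real.rpow_mul (by positivity)]
  congr 1
  ring

lemma FW_eq {b : ℕ} (hb : 2 ≤ b) (α : ℝ) (g : LipS) (t : ℝ) :
    FW b α g t = ∑' k : ℕ, lam b α ^ k * g ((((b : ℝ) ^ k * t : ℝ)) : UnitAddCircle) := by
  unfold FW W
  congr 1
  funext k
  rw [rpow_eq_lam hb]
  congr 2
  rw [← AddCircle.coe_nsmul, nsmul_eq_mul]
  push_cast
  rfl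

section
variable {b : ℕ} {α : ℝ}

lemma lam_pos (hb : 2 ≤ b) : 0 < lam b α := by
  unfold lam
  positivity

lemma lam_lt_one (hb : 2 ≤ b) (hα : 0 < α) : lam b α < 1 := by
  unfold lam
  have : (2 : ℝ) ≤ b := by exact_mod_cast hb
  exact Real.rpow_lt_one_of_one_lt_of_neg (by linarith) (by linarith)

lemma one_lt_lam_mul (hb : 2 ≤ b) (hα : α < 1) : 1 < lam b α * b := by
  unfold lam
  have : (2 : ℝ) ≤ b := by exact_mod_cast hb
  have h1 : (b : ℝ) ^ (-α) * b = (b : ℝ) ^ (1 - α) := by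
    nth_rewrite 2 [← Real.rpow_one (b : ℝ)]
    rw [← Real.rpow_add (by linarith)]
    congr 1
    ring
  rw [h1]
  exact Real.one_lt_rpow (by linarith) (by linarith)

lemma norm_term_le (hb : 2 ≤ b) (g : LipS) (t : ℝ) (k : ℕ) :
    ‖lam b α ^ k * g ((((b : ℝ) ^ k * t : ℝ)) : UnitAddCircle)‖ ≤ lam b α ^ k * ‖g‖ := by
  rw [norm_mul, Real.norm_eq_abs, Real.norm_eq_abs, abs_of_pos (pow_pos (lam_pos hb) k)]
  gcongr
  · exact (pow_pos (lam_pos hb) k).le
  · exact g.abs_le_norm _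

lemma summable_lam (hb : 2 ≤ b) (hα : 0 < α) (C : ℝ) : Summable (fun k : ℕ => lam b α ^ k * C) :=
  (summable_geometric_of_lt_one (lam_pos hb).le (lam_lt_one hb hα)).mul_right C

lemma summable_FW (hb : 2 ≤ b) (hα : 0 < α) (g : LipS) (t : ℝ) :
    Summable (fun k : ℕ => lam b α ^ k * g ((((b : ℝ) ^ k * t : ℝ)) : UnitAddCircle)) :=
  Summable.of_norm_bounded (summable_lam hb hα ‖g‖) (norm_term_le hb g t)

lemma FW_add (hb : 2 ≤ b) (hα : 0 < α) (f g : LipS) (t : ℝ) :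
    FW b α (f + g) t = FW b α f t + FW b α g t := by
  rw [FW_eq hb, FW_eq hb, FW_eq hb, ← (summable_FW hb hα f t).tsum_add (summable_FW hb hα g t)]
  congr 1
  funext k
  rw [LipS.add_apply]
  ring

lemma FW_smul (hb : 2 ≤ b) (c : ℝ) (g : LipS) (t : ℝ) :
    FW b α (c • g) t = c * FW b α g t := by
  rw [FW_eq hb, FW_eq hb, ← tsum_mul_left]
  congr 1
  funext k
  rw [LipS.smul_apply]
  ring

lemma FW_sub (hb : 2 ≤ b) (hα : 0 < α) (f g : LipS) (t : ℝ) :
    FW b α (f - g) t = FW b α f t - FW b α g t := by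
  have h := FW_add hb hα (f - g) g t
  rw [sub_add_cancel] at h
  linarith

lemma abs_FW_le (hb : 2 ≤ b) (hα : 0 < α) (g : LipS) (t : ℝ) :
    |FW b α g t| ≤ (1 - lam b α)⁻¹ * ‖g‖ := by
  rw [FW_eq hb, ← Real.norm_eq_abs]
  have h1 := tsum_of_norm_bounded (summable_lam hb hα ‖g‖).hasSum (norm_term_le (α := α) hb g t)
  rwa [tsum_mul_right, tsum_geometric_of_lt_one (lam_pos hb).le (lam_lt_one hb hα)] at h1

lemma LipS.lipschitzWith (g : LipS) : LipschitzWith (Real.toNNReal ‖g‖) g := by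
  apply LipschitzWith.of_dist_le_mul
  intro x y
  rw [Real.dist_eq, Real.coe_toNNReal _ (norm_nonneg g)]
  exact g.abs_sub_le x y

lemma LipS.continuous (g : LipS) : Continuous g := g.lipschitzWith.continuous

lemma continuous_FW (hb : 2 ≤ b) (hα : 0 < α) (g : LipS) : Continuous (FW b α g) := by
  have h1 : FW b α g = fun t => ∑' k : ℕ, lam b α ^ k *
      g ((((b : ℝ) ^ k * t : ℝ)) : UnitAddCircle) := by
    funext t; exact FW_eq hb α g t
  rw [h1]
  refine continuous_tsum ?_ (summable_lam hb hα ‖g‖) (fun k t => norm_term_le hb g t k)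
  intro k
  apply Continuous.mul continuous_const
  exact g.continuous.comp ((AddCircle.continuous_mk' 1).comp (by fun_prop))

lemma continuous_FW_pair (hb : 2 ≤ b) (hα : 0 < α) :
    Continuous (fun p : LipS × ℝ => FW b α p.1 p.2) := by
  rw [continuous_iff_continuousAt]
  rintro ⟨g, t⟩
  rw [ContinuousAt, Metric.tendsto_nhds]
  intro ε hε
  have hc : 0 < (1 - lam b α)⁻¹ := inv_pos.mpr (by linarith [lam_lt_one hb hα])
  have h1 : ∀ᶠ p : LipS × ℝ in 𝓝 (g, t), ‖p.1 - g‖ < ε / 2 / (1 - lam b α)⁻¹ := by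
    have : Continuous (fun p : LipS × ℝ => ‖p.1 - g‖) := by fun_prop
    have h2 : Tendsto (fun p : LipS × ℝ => ‖p.1 - g‖) (𝓝 (g, t)) (𝓝 ‖g - g‖) := this.tendsto _
    rw [sub_self, norm_zero] at h2
    exact h2.eventually_lt_const (by positivity)
  have h2 : ∀ᶠ p : LipS × ℝ in 𝓝 (g, t), |FW b α g p.2 - FW b α g t| < ε / 2 := by
    have : Continuous (fun p : LipS × ℝ => |FW b α g p.2 - FW b α g t|) := by
      have := continuous_FW hb hα g
      fun_prop
    have h3 : Tendsto (fun p : LipS × ℝ => |FW b α g p.2 - FW b α g t|) (𝓝 (g, t))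
      (𝓝 |FW b α g t - FW b α g t|) := this.tendsto _
    rw [sub_self, abs_zero] at h3
    exact h3.eventually_lt_const (by positivity)
  filter_upwards [h1, h2] with p hp1 hp2
  rw [Real.dist_eq]
  have h4 : FW b α p.1 p.2 - FW b α g t = FW b α (p.1 - g) p.2 + (FW b α g p.2 - FW b α g t) := by
    rw [FW_sub hb hα]; ring
  rw [h4]
  have h5 := abs_FW_le (α := α) hb hα (p.1 - g) p.2
  have h6 : (1 - lam b α)⁻¹ * ‖p.1 - g‖ < ε / 2 := by
    rw [lt_div_iff₀ hc] at hp1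
    linarith
  calc |FW b α (p.1 - g) p.2 + (FW b α g p.2 - FW b α g t)|
      ≤ |FW b α (p.1 - g) p.2| + |FW b α g p.2 - FW b α g t| := abs_add_le _ _
    _ < ε / 2 + ε / 2 := by linarith
    _ = ε := by ring

lemma dist_coe_le (s t : ℝ) : dist (s : UnitAddCircle) (t : UnitAddCircle) ≤ |s - t| := by
  rw [dist_eq_norm, ← AddCircle.coe_sub]
  rw [UnitAddCircle.norm_eq]
  have := round_le (s - t) 0
  simpa using this

end

end Pool.Agent.Work.MP_22f354_an
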