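import Mathlib

/-!
The space `Lip(S¹)`, shy and prevalent sets, and Weierstrass functions.
-/

set_option autoImplicit false

namespace Pool.Agent.Work.MP_22f354_an

open Set Filter Topology MeasureTheory
open scoped NNReal ENNReal

/-- `Lip(S¹)`: the space of real Lipschitz functions on the circle `ℝ/ℤ`. -/
@[ext] structure LipS where
  /-- the underlying function -/
  toFun : UnitAddCircle → ℝ
  /-- it is Lipschitz -/
  lip : ∃ K : ℝ≥0, LipschitzWith K toFun

instance : CoeFun LipS (fun _ => UnitAddCircle → ℝ) := ⟨LipS.toFun⟩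

lemma LipS.toFun_injective : Function.Injective LipS.toFun := fun _ _ h => LipS.ext h

lemma exists_lip_smul (c : ℝ) {f : UnitAddCircle → ℝ} (hf : ∃ K : ℝ≥0, LipschitzWith K f) :
    ∃ K : ℝ≥0, LipschitzWith K (fun x => c * f x) := by
  obtain ⟨K, hK⟩ := hf
  refine ⟨‖c‖₊ * K, ?_⟩
  exact (lipschitzWith_smul c (β := ℝ)).comp hK

instance : Zero LipS := ⟨⟨fun _ => 0, 0, LipschitzWith.const 0⟩⟩
instance : Add LipS := ⟨fun f g => ⟨fun x => f x + g x, by
  obtain ⟨K, hK⟩ := f.lip
  obtain ⟨L, hL⟩ := g.lip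
  exact ⟨K + L, hK.add hL⟩⟩⟩
instance : Neg LipS := ⟨fun f => ⟨fun x => - f x, by
  obtain ⟨K, hK⟩ := f.lip
  exact ⟨K, hK.neg⟩⟩⟩
instance : Sub LipS := ⟨fun f g => ⟨fun x => f x - g x, by
  obtain ⟨K, hK⟩ := f.lip
  obtain ⟨L, hL⟩ := g.lip
  exact ⟨K + L, hK.sub hL⟩⟩⟩
instance : SMul ℝ LipS := ⟨fun c f => ⟨fun x => c * f x, exists_lip_smul c f.lip⟩⟩
instance : SMul ℕ LipS := ⟨fun n f => ⟨fun x => (n : ℝ) * f x, exists_lip_smul n f.lip⟩⟩
instance : SMul ℤ LipS := ⟨fun n f => ⟨fun x => (n : ℝ) * f x, exists_lip_smul n f.lip⟩⟩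

instance : AddCommGroup LipS :=
  LipS.toFun_injective.addCommGroup LipS.toFun rfl (fun _ _ => rfl) (fun _ => rfl)
    (fun _ _ => rfl) (fun f n => by
      funext x
      rw [Pi.smul_apply, nsmul_eq_mul]
      rfl) (fun f n => by
      funext x
      rw [Pi.smul_apply, zsmul_eq_mul]
      rfl)

/-- the underlying function, as a homomorphism -/
def LipS.toFunHom : LipS →+ (UnitAddCircle → ℝ) where
  toFun := LipS.toFun
  map_zero' := rfl
  map_add' := fun _ _ => rfl

instance : Module ℝ LipS := LipS.toFun_injective.module ℝ LipS.toFunHom (fun _ _ => rfl)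

/-- The norm `sup |g| + sup |g x - g y| / |x - y|` of `Lip(S¹)`
(the terms with `x = y` in the second supremum are `0`). -/
noncomputable instance : Norm LipS :=
  ⟨fun g => (⨆ x : UnitAddCircle, |g x|) +
    ⨆ p : UnitAddCircle × UnitAddCircle, |g p.1 - g p.2| / dist p.1 p.2⟩

@[simp] lemma LipS.add_apply (f g : LipS) (x : UnitAddCircle) : (f + g) x = f x + g x := rfl
@[simp] lemma LipS.zero_apply (x : UnitAddCircle) : (0 : LipS) x = 0 := rfl
@[simp] lemma LipS.neg_apply (f : LipS) (x : UnitAddCircle) : (-f) x = -f x := rfl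
@[simp] lemma LipS.sub_apply (f g : LipS) (x : UnitAddCircle) : (f - g) x = f x - g x := rfl
@[simp] lemma LipS.smul_apply (c : ℝ) (f : LipS) (x : UnitAddCircle) : (c • f) x = c * f x := rfl

lemma dist_le_half (x y : UnitAddCircle) : dist x y ≤ 1 / 2 := by
  rw [dist_eq_norm]
  have := AddCircle.norm_le_half_period (p := (1 : ℝ)) (x := x - y) one_ne_zero
  simpa using this

lemma LipS.bdd1 (g : LipS) : BddAbove (range fun x : UnitAddCircle => |g x|) := by
  obtain ⟨K, hK⟩ := g.lip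
  refine ⟨|g 0| + K * (1 / 2), ?_⟩
  rintro _ ⟨x, rfl⟩
  have h1 : |g x - g 0| ≤ K * dist x 0 := by
    have := hK.dist_le_mul x 0
    rwa [Real.dist_eq] at this
  have h2 : (K : ℝ) * dist x 0 ≤ K * (1 / 2) := by
    gcongr
    exact dist_le_half x 0
  have h3 : |g x| ≤ |g x - g 0| + |g 0| := by
    have := abs_add_le (g x - g 0) (g 0)
    simpa using this
  simp only
  linarith

lemma LipS.bdd2 (g : LipS) : BddAbove (range fun p : UnitAddCircle × UnitAddCircle =>
    |g p.1 - g p.2| / dist p.1 p.2) := by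
  obtain ⟨K, hK⟩ := g.lip
  refine ⟨K, ?_⟩
  rintro _ ⟨p, rfl⟩
  have h1 : |g p.1 - g p.2| ≤ K * dist p.1 p.2 := by
    have := hK.dist_le_mul p.1 p.2
    rwa [Real.dist_eq] at this
  exact div_le_of_le_mul₀ dist_nonneg K.2 h1

lemma LipS.norm_def (g : LipS) : ‖g‖ = (⨆ x : UnitAddCircle, |g x|) +
    ⨆ p : UnitAddCircle × UnitAddCircle, |g p.1 - g p.2| / dist p.1 p.2 := rfl

lemma LipS.sup_nonneg1 (g : LipS) : 0 ≤ ⨆ x : UnitAddCircle, |g x| :=
  Real.iSup_nonneg fun _ => abs_nonneg _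

lemma LipS.sup_nonneg2 (g : LipS) : 0 ≤ ⨆ p : UnitAddCircle × UnitAddCircle,
    |g p.1 - g p.2| / dist p.1 p.2 :=
  Real.iSup_nonneg fun _ => div_nonneg (abs_nonneg _) dist_nonneg

lemma LipS.abs_le_norm (g : LipS) (x : UnitAddCircle) : |g x| ≤ ‖g‖ := by
  rw [LipS.norm_def]
  have := le_ciSup g.bdd1 x
  have := g.sup_nonneg2
  linarith

lemma LipS.abs_sub_le (g : LipS) (x y : UnitAddCircle) : |g x - g y| ≤ ‖g‖ * dist x y := by
  have h1 : |g x - g y| / dist x y ≤ ‖g‖ := by
    rw [LipS.norm_def]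
    have := le_ciSup g.bdd2 (x, y)
    simp only at this
    have := g.sup_nonneg1
    linarith
  rcases eq_or_lt_of_le (dist_nonneg (x := x) (y := y)) with h | h
  · have hxy : x = y := dist_eq_zero.mp h.symm
    rw [hxy]; simp
  · rwa [div_le_iff₀ h] at h1

lemma LipS.norm_le {g : LipS} {A L : ℝ} (hA : ∀ x, |g x| ≤ A) (hL0 : 0 ≤ L)
    (hL : ∀ x y, |g x - g y| ≤ L * dist x y) : ‖g‖ ≤ A + L := by
  rw [LipS.norm_def]
  gcongr
  · exact ciSup_le hA
  · apply ciSup_le
    intro p
    exact div_le_of_le_mul₀ dist_nonneg hL0 (hL _ _)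

lemma LipS.core : NormedSpace.Core ℝ LipS where
  norm_nonneg g := add_nonneg g.sup_nonneg1 g.sup_nonneg2
  norm_smul c g := by
    rw [LipS.norm_def, LipS.norm_def, mul_add, Real.mul_iSup_of_nonneg (norm_nonneg c),
      Real.mul_iSup_of_nonneg (norm_nonneg c)]
    congr 1
    · congr 1
      funext x
      rw [LipS.smul_apply, abs_mul, Real.norm_eq_abs]
    · congr 1
      funext p
      rw [LipS.smul_apply, LipS.smul_apply, ← mul_sub, abs_mul, Real.norm_eq_abs, mul_div_assoc]
  norm_triangle f g := by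
    have h : ‖f + g‖ ≤ ((⨆ x : UnitAddCircle, |f x|) + (⨆ x : UnitAddCircle, |g x|)) +
      ((⨆ p : UnitAddCircle × UnitAddCircle, |f p.1 - f p.2| / dist p.1 p.2) +
        ⨆ p : UnitAddCircle × UnitAddCircle, |g p.1 - g p.2| / dist p.1 p.2) := by
      rw [LipS.norm_def]
      gcongr
      · apply ciSup_le
        intro x
        rw [LipS.add_apply]
        exact (abs_add_le _ _).trans (add_le_add (le_ciSup f.bdd1 x) (le_ciSup g.bdd1 x))
      · apply ciSup_le
        intro p
        have h1 : |f p.1 - f p.2| / dist p.1 p.2 ≤ _ := le_ciSup f.bdd2 p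
        have h2 : |g p.1 - g p.2| / dist p.1 p.2 ≤ _ := le_ciSup g.bdd2 p
        refine le_trans ?_ (add_le_add h1 h2)
        rw [← add_div]
        gcongr
        rw [LipS.add_apply, LipS.add_apply, add_sub_add_comm]
        exact abs_add_le _ _
    refine h.trans (le_of_eq ?_)
    rw [LipS.norm_def, LipS.norm_def]
    ring
  norm_eq_zero_iff g := by
    constructor
    · intro h
      apply LipS.ext
      funext x
      have := g.abs_le_norm x
      rw [h] at this
      rw [LipS.zero_apply]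
      exact abs_eq_zero.mp (le_antisymm this (abs_nonneg _))
    · rintro rfl
      rw [LipS.norm_def]
      simp

noncomputable instance : NormedAddCommGroup LipS := NormedAddCommGroup.ofCore LipS.core

noncomputable instance : NormedSpace ℝ LipS := NormedSpace.ofCore LipS.core

noncomputable instance : MeasurableSpace LipS := borel LipS

instance : BorelSpace LipS := ⟨rfl⟩

/-- Shy subsets of a normed space (Christensen; Hunt, Sauer and Yorke). -/
def IsShy {X : Type*} [NormedAddCommGroup X] [MeasurableSpace X] [BorelSpace X]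
    (A : Set X) : Prop :=
  ∃ (μ : Measure X) (B : Set X), A ⊆ B ∧ MeasurableSet B ∧
    (∃ K : Set X, IsCompact K ∧ 0 < μ K ∧ μ K < ∞) ∧ ∀ x : X, μ ((fun z => x + z) '' B) = 0

/-- Prevalent sets: the complement is shy. -/
def IsPrevalent {X : Type*} [NormedAddCommGroup X] [MeasurableSpace X] [BorelSpace X]
    (A : Set X) : Prop := IsShy Aᶜ

/-- The Weierstrass function `W(x) = ∑ b^{-α k} g (b^k x)`. -/
noncomputable def W (b : ℕ) (α : ℝ) (g : LipS) (x : UnitAddCircle) : ℝ :=
  ∑' k : ℕ, (b : ℝ) ^ (-(α * k)) * g ((b ^ k) • x)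

end Pool.Agent.Work.MP_22f354_an
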