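import Pool.Agent.Work.MP_22f354_an.Coef

/-!
The `2M`-th moment of the characteristic functions.
-/

set_option autoImplicit false

namespace Pool.Agent.Work.MP_22f354_an

open Set Filter Topology MeasureTheory
open scoped NNReal ENNReal ComplexConjugate

section
variable {b : ℕ} {α : ℝ}

/-- signs -/
def sg (M : ℕ) : Fin M ⊕ Fin M → ℝ := Sum.elim (fun _ => 1) (fun _ => -1)

lemma abs_sg (M : ℕ) (l : Fin M ⊕ Fin M) : |sg M l| = 1 := by
  rcases l with l | l <;> simp [sg]

/-- the threshold ratio for the frequencies -/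
noncomputable def RR (b : ℕ) (α : ℝ) (G : ℕ) : ℝ := (b : ℝ) ^ 5 * ((lam b α)⁻¹) ^ (G - 1)

/-- the phase -/
noncomputable def ph (b : ℕ) (α : ℝ) (n N M : ℕ) (g : LipS) (z : Fin M ⊕ Fin M → ℝ) : ℝ :=
  ∑ l, sg M l * hc b α n N g (z l)

lemma continuous_ph (hb : 2 ≤ b) (hα : 0 < α) (n N M : ℕ) :
    Continuous (fun p : LipS × (Fin M ⊕ Fin M → ℝ) => ph b α n N M p.1 p.2) := by
  unfold ph
  apply continuous_finsetSum
  intro l _
  have h := continuous_hc hb hα n N
  have h2 : Continuous (fun p : LipS × (Fin M ⊕ Fin M → ℝ) => (p.1, p.2 l)) := by fun_prop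
  exact continuous_const.mul (h.comp h2)

lemma ph_add (hb : 2 ≤ b) (hα : 0 < α) (n N M : ℕ) (f g : LipS) (z : Fin M ⊕ Fin M → ℝ) :
    ph b α n N M (f + g) z = ph b α n N M f z + ph b α n N M g z := by
  unfold ph
  rw [← Finset.sum_add_distrib]
  refine Finset.sum_congr rfl fun l _ => ?_
  rw [hc_add hb hα]
  ring

lemma ph_smul (hb : 2 ≤ b) (n N M : ℕ) (c : ℝ) (g : LipS) (z : Fin M ⊕ Fin M → ℝ) :
    ph b α n N M (c • g) z = c * ph b α n N M g z := by
  unfold ph
  rw [Finset.mul_sum]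
  refine Finset.sum_congr rfl fun l _ => ?_
  rw [hc_smul hb]
  ring

lemma card_sum (M : ℕ) : Fintype.card (Fin M ⊕ Fin M) = 2 * M := by
  rw [Fintype.card_sum, Fintype.card_fin]; ring

/-- expectation of the phase factor outside the bad set -/
theorem phase_le (hb : 2 ≤ b) (hα : 0 < α) {M c0 : ℕ}
    (hc0 : 2 * M * (lam b α ^ (c0 + 1) * (1 - lam b α)⁻¹) ≤ 1 / 4)
    {K : ℕ} {C : ℝ} (hC : ∀ s : ℝ, ‖ch0 s‖ * |s| ^ K ≤ C)
    {j n N G : ℕ} (g : LipS)
    {z : Fin M ⊕ Fin M → ℝ} (hz : ∀ l, z l ∈ Ico (0 : ℝ) 1)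
    (hzc : z ∉ cover b (Λ := Fin M ⊕ Fin M) j n N (G * j + c0) G)
    {ξ : ℝ} (hξ : RR b α G ^ j ≤ |ξ|) :
    ‖∫ a, Complex.exp (Complex.I * ξ * ph b α n N M (g + gA b a) z) ∂(PP (ℕ × ℕ))‖ ≤
      C * (4 / (b : ℝ) ^ j) ^ K := by
  have hb0 : (0 : ℝ) < b := by positivity
  have hl0 : 0 < lam b α := lam_pos hb
  obtain ⟨l, m, hm, hiso⟩ := exists_isolated hb (by omega) hz hzc
  obtain ⟨i, hi1, hi2⟩ := coef_lower hb hα (card_sum M) hc0 (abs_sg M) hm hiso
  set κ : ℕ × ℕ := (j, i) with hκ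
  set H : ℝ := ph b α n N M (tent b κ) z with hH
  have hH' : lam b α ^ ((G - 1) * j) / 4 ≤ |H| := hi2
  have hcf : cf b κ = ((b : ℝ) ^ (4 * j))⁻¹ := by
    unfold cf
    rw [hκ]
    simp only
    rw [if_pos hi1]
  set c : ℝ := ξ * (cf b κ * H) with hc
  have hclow : (b : ℝ) ^ j / 4 ≤ |c| := by
    rw [hc, abs_mul, abs_mul, hcf, abs_of_pos (by positivity : (0 : ℝ) < ((b : ℝ) ^ (4 * j))⁻¹)]
    calc (b : ℝ) ^ j / 4 = RR b α G ^ j * (((b : ℝ) ^ (4 * j))⁻¹ *
          (lam b α ^ ((G - 1) * j) / 4)) := by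
          unfold RR
          have e1 : (lam b α) ^ ((G - 1) * j) = ((lam b α) ^ (G - 1)) ^ j := by rw [pow_mul]
          rw [e1, mul_pow, inv_pow, inv_pow, ← pow_mul]
          have e2 : (b : ℝ) ^ (5 * j) = (b : ℝ) ^ (4 * j) * (b : ℝ) ^ j := by
            rw [← pow_add]; congr 1; ring
          rw [e2]
          field_simp
      _ ≤ _ := by gcongr
  -- the bound
  have hmain : ‖ch0 c‖ ≤ C * (4 / (b : ℝ) ^ j) ^ K := by
    have h1 := hC c
    have hc0' : 0 < |c| := lt_of_lt_of_le (by positivity) hclow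
    have hC0 : 0 ≤ C := le_trans (by positivity) h1
    calc ‖ch0 c‖ = (‖ch0 c‖ * |c| ^ K) * (|c|⁻¹) ^ K := by
          rw [inv_pow]; field_simp
      _ ≤ C * (|c|⁻¹) ^ K := by gcongr
      _ ≤ C * (4 / (b : ℝ) ^ j) ^ K := by
          gcongr
          rw [inv_le_comm₀ hc0' (by positivity), inv_div]
          exact hclow
  refine le_trans (le_of_eq ?_) ((norm_integral_coord_le κ
    (fun a => Complex.exp (Complex.I * ξ * ph b α n N M (g + gA b (Function.update a κ 0)) z))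
    ?_ ?_ ?_ c).trans hmain)
  · congr 1
    apply integral_congr_ae
    filter_upwards with a
    rw [← Complex.exp_add]
    congr 1
    rw [gA_update hb a κ, ← add_assoc, ph_add hb hα, ph_smul hb, ← hH, hc]
    push_cast
    ring
  · apply Continuous.measurable
    apply Complex.continuous_exp.comp
    apply Continuous.mul continuous_const
    apply Complex.continuous_ofReal.comp
    have h1 : Continuous (fun a : ℕ × ℕ → ℝ => (g + gA b (Function.update a κ 0), z)) := by
      apply Continuous.prodMk _ continuous_const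
      apply continuous_const.add
      exact (continuous_gA hb).comp (continuous_id.update κ continuous_const)
    exact (continuous_ph hb hα n N M).comp h1
  · intro a
    rw [norm_exp_I_mul]
  · intro a t
    rw [Function.update_idem]

lemma unif_isProb (Λ : Type*) [Fintype Λ] : IsProbabilityMeasure (unif Λ) := by
  unfold unif
  have : IsProbabilityMeasure ((volume : Measure ℝ).restrict (Ico 0 1)) := by
    constructor
    rw [Measure.restrict_apply_univ, Real.volume_Ico]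
    simp
  infer_instance

/-- the moment identity -/
lemma moment_identity (n N M : ℕ) (g : LipS) (ξ : ℝ) :
    ∫ z, Complex.exp (Complex.I * ξ * ph b α n N M g z) ∂(unif (Fin M ⊕ Fin M)) =
      ((‖mh b α n N g ξ‖ ^ (2 * M) : ℝ) : ℂ) := by
  have h1 : ∀ z : Fin M ⊕ Fin M → ℝ, Complex.exp (Complex.I * ξ * ph b α n N M g z) =
      ∏ l, Complex.exp (Complex.I * ξ * (sg M l * hc b α n N g (z l))) := by
    intro z
    rw [← Complex.exp_sum]
    congr 1
    unfold ph
    push_cast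
    rw [Finset.mul_sum]
  simp_rw [h1]
  unfold unif
  rw [integral_fintype_prod_eq_prod (fun (l : Fin M ⊕ Fin M) (t : ℝ) =>
    Complex.exp (Complex.I * ξ * (sg M l * hc b α n N g t)))]
  rw [Fintype.prod_sum_type]
  have h2 : ∀ l : Fin M, ∫ t in Ico (0 : ℝ) 1,
      Complex.exp (Complex.I * ξ * (sg M (Sum.inl l) * hc b α n N g t)) = mh b α n N g ξ := by
    intro l
    unfold mh
    congr 1
    funext t
    simp [sg]
  have h3 : ∀ l : Fin M, ∫ t in Ico (0 : ℝ) 1,
      Complex.exp (Complex.I * ξ * (sg M (Sum.inr l) * hc b α n N g t)) =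
      conj (mh b α n N g ξ) := by
    intro l
    unfold mh
    rw [← integral_conj]
    congr 1
    funext t
    rw [← Complex.exp_conj]
    simp [sg]
  simp_rw [h2, h3]
  rw [Finset.prod_const, Finset.prod_const, Finset.card_univ, Fintype.card_fin, ← mul_pow,
    Complex.mul_conj, Complex.normSq_eq_norm_sq, pow_mul]
  push_cast
  rfl

theorem moment_le (hb : 2 ≤ b) (hα : 0 < α) {M c0 : ℕ}
    (hc0 : 2 * M * (lam b α ^ (c0 + 1) * (1 - lam b α)⁻¹) ≤ 1 / 4)
    {K : ℕ} {C : ℝ} (hC : ∀ s : ℝ, ‖ch0 s‖ * |s| ^ K ≤ C)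
    {j n N G : ℕ} (hj : 1 ≤ j) (g : LipS) {ξ : ℝ} (hξ : RR b α G ^ j ≤ |ξ|) :
    ∫ a, ‖mh b α n N (g + gA b a) ξ‖ ^ (2 * M) ∂(PP (ℕ × ℕ)) ≤
      ((2 * M * ((n + (G * j + c0) + 1) * (3 * (j + 1)))) ^ (2 * M * G) : ℕ) *
        ((b : ℝ) ^ (M * G * j))⁻¹ + C * (4 / (b : ℝ) ^ j) ^ K := by
  classical
  have hb0 : (0 : ℝ) < b := by positivity
  have hprob := unif_isProb (Fin M ⊕ Fin M)
  have hC0 : 0 ≤ C := by
    have := hC 0
    refine le_trans ?_ this
    positivity
  set δ : ℝ := C * (4 / (b : ℝ) ^ j) ^ K with hδ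
  have hδ0 : 0 ≤ δ := by positivity
  set cov : Set (Fin M ⊕ Fin M → ℝ) := cover b (Λ := Fin M ⊕ Fin M) j n N (G * j + c0) G with hcov
  have hcovm : MeasurableSet cov := measurableSet_cover
  -- the pair function
  set Φ : (ℕ × ℕ → ℝ) → (Fin M ⊕ Fin M → ℝ) → ℂ := fun a z =>
    Complex.exp (Complex.I * ξ * ph b α n N M (g + gA b a) z) with hΦ
  have hΦc : Continuous (Function.uncurry Φ) := by
    apply Complex.continuous_exp.comp
    apply Continuous.mul continuous_const
    apply Complex.continuous_ofReal.comp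
    have h1 : Continuous (fun p : (ℕ × ℕ → ℝ) × (Fin M ⊕ Fin M → ℝ) =>
        (g + gA b p.1, p.2)) := by
      apply Continuous.prodMk _ continuous_snd
      exact continuous_const.add ((continuous_gA hb).comp continuous_fst)
    exact (continuous_ph hb hα n N M).comp h1
  have hΦ1 : ∀ a z, ‖Φ a z‖ = 1 := fun a z => norm_exp_I_mul _ _
  have hint : Integrable (Function.uncurry Φ) ((PP (ℕ × ℕ)).prod (unif (Fin M ⊕ Fin M))) := by
    apply Integrable.of_bound hΦc.aestronglyMeasurable 1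
    filter_upwards with p
    exact (hΦ1 p.1 p.2).le
  have h1 : ((∫ a, ‖mh b α n N (g + gA b a) ξ‖ ^ (2 * M) ∂(PP (ℕ × ℕ)) : ℝ) : ℂ) =
      ∫ z, ∫ a, Φ a z ∂(PP (ℕ × ℕ)) ∂(unif (Fin M ⊕ Fin M)) := by
    rw [← integral_complex_ofReal, ← integral_integral_swap hint]
    apply integral_congr_ae
    filter_upwards with a
    rw [hΦ, moment_identity]
  have hnn : 0 ≤ ∫ a, ‖mh b α n N (g + gA b a) ξ‖ ^ (2 * M) ∂(PP (ℕ × ℕ)) :=
    integral_nonneg fun _ => by positivity
  have h2 : ∫ a, ‖mh b α n N (g + gA b a) ξ‖ ^ (2 * M) ∂(PP (ℕ × ℕ)) =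
      ‖((∫ a, ‖mh b α n N (g + gA b a) ξ‖ ^ (2 * M) ∂(PP (ℕ × ℕ)) : ℝ) : ℂ)‖ := by
    rw [Complex.norm_real, Real.norm_eq_abs, abs_of_nonneg hnn]
  rw [h2, h1]
  have hae : ∀ᵐ z ∂(unif (Fin M ⊕ Fin M)), ∀ l, z l ∈ Ico (0 : ℝ) 1 := by
    rw [ae_all_iff]
    intro l
    have h3 : ∀ᵐ t ∂((volume : Measure ℝ).restrict (Ico 0 1)), t ∈ Ico (0 : ℝ) 1 :=
      ae_restrict_mem measurableSet_Ico
    exact (Measure.quasiMeasurePreserving_eval (fun _ : Fin M ⊕ Fin M =>
      (volume : Measure ℝ).restrict (Ico (0 : ℝ) 1)) l).ae h3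
  calc ‖∫ z, ∫ a, Φ a z ∂(PP (ℕ × ℕ)) ∂(unif (Fin M ⊕ Fin M))‖
      ≤ ∫ z, (cov.indicator (fun _ => (1 : ℝ)) z + δ) ∂(unif (Fin M ⊕ Fin M)) := by
        apply norm_integral_le_of_norm_le
        · exact ((integrable_const (1 : ℝ)).indicator hcovm).add (integrable_const _)
        · filter_upwards [hae] with z hz
          by_cases hzc : z ∈ cov
          · rw [indicator_of_mem hzc]
            have : ‖∫ a, Φ a z ∂(PP (ℕ × ℕ))‖ ≤ 1 := by
              have := norm_integral_le_of_norm_le_const (μ := PP (ℕ × ℕ)) (C := 1)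
                (f := fun a => Φ a z) (Eventually.of_forall fun a => (hΦ1 a z).le)
              simpa using this
            linarith
          · rw [indicator_of_notMem hzc, zero_add]
            exact phase_le hb hα hc0 hC g hz hzc hξ
    _ = (unif (Fin M ⊕ Fin M)).real cov + δ := by
        rw [integral_add ((integrable_const (1 : ℝ)).indicator hcovm) (integrable_const _),
          integral_indicator_const _ hcovm]
        simp
    _ ≤ _ := by
        gcongr
        have h4 := unif_cover_le (Λ := Fin M ⊕ Fin M) (b := b) (N := N) (n := n) hb hj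
          (P := G * j + c0) (G := G) (by omega) (card_sum M)
        rw [Measure.real]
        refine ENNReal.toReal_le_of_le_ofReal (by positivity) ?_
        exact h4

end

end Pool.Agent.Work.MP_22f354_an
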