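import Mathlib

/-!
Occupation measures and their `L²` densities.
-/

set_option autoImplicit false

namespace Pool.Agent.Work.MP_22f354_an

open MeasureTheory Set Filter Topology Metric
open scoped ENNReal NNReal

/-- the occupation measure of `F` on the set `A` -/
noncomputable def occ (F : ℝ → ℝ) (A : Set ℝ) : Measure ℝ := (volume.restrict A).map F

lemma occ_apply {F : ℝ → ℝ} (hF : Measurable F) {A B : Set ℝ} (hB : MeasurableSet B) :
    occ F A B = volume (F ⁻¹' B ∩ A) := by
  unfold occ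
  rw [Measure.map_apply hF hB, Measure.restrict_apply (hF hB)]

/-- the characteristic function of the occupation measure -/
noncomputable def chf (F : ℝ → ℝ) (A : Set ℝ) (ξ : ℝ) : ℂ :=
  ∫ t in A, Complex.exp (Complex.I * ξ * F t)

lemma norm_exp_I_mul (x y : ℝ) : ‖Complex.exp (Complex.I * x * y)‖ = 1 := by
  have : Complex.I * x * y = ((x * y : ℝ) : ℂ) * Complex.I := by push_cast; ring
  rw [this, Complex.norm_exp_ofReal_mul_I]

lemma gauss_lower {r : ℝ} (hr : 0 < r) {s : ℝ} (hs : |s| ≤ 2 * r) :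
    (2 * r)⁻¹ ≤ Real.sqrt Real.pi / r * Real.exp (-s ^ 2 / (4 * r ^ 2)) := by
  have h1 : -1 ≤ -s ^ 2 / (4 * r ^ 2) := by
    rw [le_div_iff₀ (by positivity)]
    have := sq_le_sq' (neg_le_of_abs_le hs) (le_of_abs_le hs)
    nlinarith
  have h2 : Real.exp (-1) ≤ Real.exp (-s ^ 2 / (4 * r ^ 2)) := Real.exp_le_exp.mpr h1
  have h3 : 1 / 2 ≤ Real.sqrt Real.pi * Real.exp (-1) := by
    have h4 : Real.exp 1 ≤ 2 * Real.sqrt Real.pi := by
      have h5 : Real.exp 1 < 2.7182818286 := Real.exp_one_lt_d9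
      have h6 : (1.5 : ℝ) ≤ Real.sqrt Real.pi := by
        apply Real.le_sqrt_of_sq_le
        have := Real.pi_gt_three
        norm_num
        linarith
      linarith
    rw [Real.exp_neg]
    have h7 := Real.exp_pos 1
    rw [← div_eq_mul_inv, le_div_iff₀ h7]
    linarith
  calc (2 * r)⁻¹ = (1 / 2) / r := by field_simp
    _ ≤ (Real.sqrt Real.pi * Real.exp (-1)) / r := by gcongr
    _ = Real.sqrt Real.pi / r * Real.exp (-1) := by ring
    _ ≤ _ := by gcongr

/-- Energy identity (inequality form). -/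
theorem energy_le {F : ℝ → ℝ} (hF : Measurable F) {A : Set ℝ}
    (hAf : volume A ≠ ∞) (hI : Integrable (fun ξ => ‖chf F A ξ‖ ^ 2)) {r : ℝ} (hr : 0 < r) :
    ((volume.restrict A).prod (volume.restrict A)) {q : ℝ × ℝ | |F q.1 - F q.2| ≤ 2 * r} ≤
      ENNReal.ofReal (2 * r) * ENNReal.ofReal (∫ ξ, ‖chf F A ξ‖ ^ 2) := by
  set m : Measure ℝ := volume.restrict A with hm
  have hfin : IsFiniteMeasure m := by
    constructor
    rw [hm, Measure.restrict_apply_univ]
    exact hAf.lt_top
  set g : ℝ → ℝ × ℝ → ℂ := fun ξ q => Complex.exp (Complex.I * ξ * ((F q.1 - F q.2 : ℝ) : ℂ)) *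
    Complex.exp (-((r ^ 2 : ℝ) : ℂ) * (ξ : ℂ) ^ 2) with hg
  have hr2 : 0 < r ^ 2 := by positivity
  have hnorm : ∀ ξ q, ‖g ξ q‖ = Real.exp (-r ^ 2 * ξ ^ 2) := by
    intro ξ q
    simp only [hg]
    rw [norm_mul, norm_exp_I_mul, one_mul, Complex.norm_exp]
    congr 1
    have : -((r ^ 2 : ℝ) : ℂ) * (ξ : ℂ) ^ 2 = ((-r ^ 2 * ξ ^ 2 : ℝ) : ℂ) := by push_cast; ring
    rw [this, Complex.ofReal_re]
  have hgm : Measurable (Function.uncurry g) := by
    simp only [hg]
    unfold Function.uncurry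
    simp only
    fun_prop
  have hgauss : Integrable (fun ξ : ℝ => Real.exp (-r ^ 2 * ξ ^ 2)) := by
    have := integrable_exp_neg_mul_sq hr2
    exact this
  have hgint : Integrable (Function.uncurry g) (volume.prod (m.prod m)) := by
    have h1 : Integrable (fun p : ℝ × (ℝ × ℝ) => Real.exp (-r ^ 2 * p.1 ^ 2) * (1 : ℝ))
        (volume.prod (m.prod m)) := Integrable.mul_prod hgauss (integrable_const (1 : ℝ))
    refine h1.mono' hgm.aestronglyMeasurable ?_
    filter_upwards with p
    show ‖g p.1 p.2‖ ≤ _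
    rw [hnorm, mul_one]
  have hswap := integral_integral_swap hgint
  -- left-hand side
  have hL : ∀ ξ : ℝ, ∫ q, g ξ q ∂(m.prod m) =
      ((Real.exp (-r ^ 2 * ξ ^ 2) * ‖chf F A ξ‖ ^ 2 : ℝ) : ℂ) := by
    intro ξ
    have e1 : ∀ q : ℝ × ℝ, g ξ q = Complex.exp (-((r ^ 2 : ℝ) : ℂ) * (ξ : ℂ) ^ 2) *
        (Complex.exp (Complex.I * ξ * F q.1) *
          (starRingEnd ℂ) (Complex.exp (Complex.I * ξ * F q.2))) := by
      intro q
      simp only [hg]
      rw [← Complex.exp_conj, mul_comm]
      congr 1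
      rw [← Complex.exp_add]
      congr 1
      simp only [map_mul, Complex.conj_I, Complex.conj_ofReal]
      push_cast
      ring
    simp_rw [e1]
    rw [integral_const_mul, integral_prod_mul (fun t : ℝ => Complex.exp (Complex.I * ξ * F t))
      (fun t : ℝ => (starRingEnd ℂ) (Complex.exp (Complex.I * ξ * F t))), integral_conj]
    have e2 : ∫ t, Complex.exp (Complex.I * ξ * F t) ∂m = chf F A ξ := rfl
    rw [e2, Complex.mul_conj, Complex.normSq_eq_norm_sq]
    push_cast
    ring_nf
  have hR : ∀ q : ℝ × ℝ, ∫ ξ : ℝ, g ξ q =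
      ((Real.sqrt Real.pi / r * Real.exp (-(F q.1 - F q.2) ^ 2 / (4 * r ^ 2)) : ℝ) : ℂ) := by
    intro q
    have h1 := fourierIntegral_gaussian (b := ((r ^ 2 : ℝ) : ℂ)) (by rw [Complex.ofReal_re]; exact hr2)
      ((F q.1 - F q.2 : ℝ) : ℂ)
    have h2 : ∫ ξ : ℝ, g ξ q = ∫ x : ℝ, Complex.exp (Complex.I * ((F q.1 - F q.2 : ℝ) : ℂ) * x) *
        Complex.exp (-((r ^ 2 : ℝ) : ℂ) * (x : ℂ) ^ 2) := by
      congr 1
      funext ξ
      simp only [hg]
      congr 2
      ring
    rw [h2, h1]
    have h3 : ((Real.pi : ℂ) / ((r ^ 2 : ℝ) : ℂ)) ^ (1 / 2 : ℂ) =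
        ((Real.sqrt Real.pi / r : ℝ) : ℂ) := by
      have h4 : (Real.pi : ℂ) / ((r ^ 2 : ℝ) : ℂ) = ((Real.pi / r ^ 2 : ℝ) : ℂ) := by push_cast; rfl
      have h5 : (1 / 2 : ℂ) = ((1 / 2 : ℝ) : ℂ) := by push_cast; rfl
      rw [h4, h5, ← Complex.ofReal_cpow (by positivity), ← Real.sqrt_eq_rpow,
        Real.sqrt_div Real.pi_pos.le, Real.sqrt_sq hr.le]
    rw [h3]
    push_cast
    rfl
  have hkey : ∫ ξ, Real.exp (-r ^ 2 * ξ ^ 2) * ‖chf F A ξ‖ ^ 2 =
      ∫ q, Real.sqrt Real.pi / r * Real.exp (-(F q.1 - F q.2) ^ 2 / (4 * r ^ 2)) ∂(m.prod m) := by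
    have h1 : (∫ ξ : ℝ, (∫ q, g ξ q ∂(m.prod m))) = ∫ q, (∫ ξ : ℝ, g ξ q) ∂(m.prod m) := hswap
    simp_rw [hL, hR] at h1
    rw [integral_complex_ofReal, integral_complex_ofReal] at h1
    exact_mod_cast h1
  -- the conclusion
  have hEm : Measurable (fun q : ℝ × ℝ =>
      Real.sqrt Real.pi / r * Real.exp (-(F q.1 - F q.2) ^ 2 / (4 * r ^ 2))) := by fun_prop
  have hEint : Integrable (fun q : ℝ × ℝ =>
      Real.sqrt Real.pi / r * Real.exp (-(F q.1 - F q.2) ^ 2 / (4 * r ^ 2))) (m.prod m) := by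
    refine (integrable_const (Real.sqrt Real.pi / r)).mono' hEm.aestronglyMeasurable ?_
    filter_upwards with q
    rw [Real.norm_of_nonneg (by positivity)]
    apply mul_le_of_le_one_right (by positivity)
    apply Real.exp_le_one_iff.mpr
    apply div_nonpos_of_nonpos_of_nonneg
    · nlinarith [sq_nonneg (F q.1 - F q.2)]
    · positivity
  set S : Set (ℝ × ℝ) := {q : ℝ × ℝ | |F q.1 - F q.2| ≤ 2 * r} with hS
  have hSm : MeasurableSet S := by
    apply measurableSet_le _ measurable_const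
    fun_prop
  have h1 : (2 * r)⁻¹ * ((m.prod m) S).toReal ≤ ∫ ξ, ‖chf F A ξ‖ ^ 2 := by
    calc (2 * r)⁻¹ * ((m.prod m) S).toReal = ∫ q in S, (2 * r)⁻¹ ∂(m.prod m) := by
          rw [setIntegral_const, smul_eq_mul, mul_comm]
          rfl
      _ ≤ ∫ q in S, Real.sqrt Real.pi / r * Real.exp (-(F q.1 - F q.2) ^ 2 / (4 * r ^ 2))
          ∂(m.prod m) := by
          apply setIntegral_mono_on (integrable_const _).integrableOn hEint.integrableOn hSm
          intro q hq
          exact gauss_lower hr hq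
      _ ≤ ∫ q, Real.sqrt Real.pi / r * Real.exp (-(F q.1 - F q.2) ^ 2 / (4 * r ^ 2))
          ∂(m.prod m) := by
          apply setIntegral_le_integral hEint
          filter_upwards with q
          show (0 : ℝ) ≤ _
          positivity
      _ = ∫ ξ, Real.exp (-r ^ 2 * ξ ^ 2) * ‖chf F A ξ‖ ^ 2 := hkey.symm
      _ ≤ ∫ ξ, ‖chf F A ξ‖ ^ 2 := by
          apply integral_mono_of_nonneg _ hI
          · filter_upwards with ξ
            apply mul_le_of_le_one_left (by positivity)
            apply Real.exp_le_one_iff.mpr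
            nlinarith [sq_nonneg (r * ξ)]
          · filter_upwards with ξ
            show (0 : ℝ) ≤ _
            positivity
  have hne : (m.prod m) S ≠ ∞ := measure_ne_top _ _
  rw [← ENNReal.ofReal_toReal hne, ← ENNReal.ofReal_mul (by positivity)]
  apply ENNReal.ofReal_le_ofReal
  rw [inv_mul_le_iff₀ (by positivity)] at h1
  exact h1

/-- `L²` bound for the averaged occupation measure. -/
theorem occ_ball_sq {F : ℝ → ℝ} (hF : Measurable F) {A : Set ℝ} 
    (hAf : volume A ≠ ∞) (hI : Integrable (fun ξ => ‖chf F A ξ‖ ^ 2)) {r : ℝ} (hr : 0 < r) :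
    ∫⁻ y, (occ F A (closedBall y r) / volume (closedBall y r)) ^ 2 ≤
      ENNReal.ofReal (∫ ξ, ‖chf F A ξ‖ ^ 2) := by
  set m : Measure ℝ := volume.restrict A with hm
  have hfin : IsFiniteMeasure m := by
    constructor
    rw [hm, Measure.restrict_apply_univ]
    exact hAf.lt_top
  have hvol : ∀ y : ℝ, volume (closedBall y r) = ENNReal.ofReal (2 * r) := by
    intro y
    rw [Real.volume_closedBall]
  have h0 : ENNReal.ofReal (2 * r) ≠ 0 := by
    simpa using hr
  have ht : ENNReal.ofReal (2 * r) ≠ ∞ := ENNReal.ofReal_ne_top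
  -- the occupation measure of balls as an integral
  have hocc : ∀ y : ℝ, occ F A (closedBall y r) =
      ∫⁻ t, (if |F t - y| ≤ r then 1 else 0) ∂m := by
    intro y
    rw [occ_apply hF measurableSet_closedBall]
    have h1 : ∀ t : ℝ, (if |F t - y| ≤ r then (1 : ℝ≥0∞) else 0) =
        (F ⁻¹' closedBall y r).indicator 1 t := by
      intro t
      simp only [indicator, mem_preimage, mem_closedBall, Real.dist_eq, Pi.one_apply]
    simp_rw [h1]
    rw [lintegral_indicator_one (hF measurableSet_closedBall), hm,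
      Measure.restrict_apply (hF measurableSet_closedBall)]
  have hmeas1 : Measurable (fun q : ℝ × ℝ => (if |F q.2 - q.1| ≤ r then (1 : ℝ≥0∞) else 0)) := by
    apply Measurable.ite _ measurable_const measurable_const
    apply measurableSet_le _ measurable_const
    fun_prop
  have hsq : ∀ y : ℝ, occ F A (closedBall y r) ^ 2 =
      ∫⁻ q, (if |F q.1 - y| ≤ r then 1 else 0) * (if |F q.2 - y| ≤ r then 1 else 0)
        ∂(m.prod m) := by
    intro y
    rw [hocc, sq]
    have hmy : Measurable (fun t : ℝ => (if |F t - y| ≤ r then (1 : ℝ≥0∞) else 0)) := by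
      apply Measurable.ite _ measurable_const measurable_const
      apply measurableSet_le _ measurable_const
      fun_prop
    rw [← lintegral_prod_mul hmy.aemeasurable hmy.aemeasurable]
  calc ∫⁻ y, (occ F A (closedBall y r) / volume (closedBall y r)) ^ 2
      = (ENNReal.ofReal (2 * r))⁻¹ ^ 2 * ∫⁻ y, occ F A (closedBall y r) ^ 2 := by
        rw [← lintegral_const_mul']
        · apply lintegral_congr
          intro y
          rw [hvol, div_eq_mul_inv, mul_pow, mul_comm]
        · exact ENNReal.pow_ne_top (ENNReal.inv_ne_top.mpr h0)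
    _ = (ENNReal.ofReal (2 * r))⁻¹ ^ 2 * ∫⁻ y : ℝ, (∫⁻ q, (if |F q.1 - y| ≤ r then 1 else 0) *
          (if |F q.2 - y| ≤ r then 1 else 0) ∂(m.prod m)) := by simp_rw [hsq]
    _ = (ENNReal.ofReal (2 * r))⁻¹ ^ 2 * ∫⁻ q, (∫⁻ y : ℝ, (if |F q.1 - y| ≤ r then 1 else 0) *
          (if |F q.2 - y| ≤ r then 1 else 0)) ∂(m.prod m) := by
        congr 1
        rw [lintegral_lintegral_swap]
        apply Measurable.aemeasurable
        apply Measurable.mul
        · exact hmeas1.comp (measurable_fst.prodMk (measurable_fst.comp measurable_snd))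
        · exact hmeas1.comp (measurable_fst.prodMk (measurable_snd.comp measurable_snd))
    _ ≤ (ENNReal.ofReal (2 * r))⁻¹ ^ 2 * ∫⁻ q, ENNReal.ofReal (2 * r) *
          ({q : ℝ × ℝ | |F q.1 - F q.2| ≤ 2 * r}.indicator 1 q) ∂(m.prod m) := by
        gcongr with q
        by_cases hq : |F q.1 - F q.2| ≤ 2 * r
        · rw [indicator_of_mem (show q ∈ {q : ℝ × ℝ | |F q.1 - F q.2| ≤ 2 * r} from hq),
            Pi.one_apply, mul_one, ← hvol (F q.1)]
          calc ∫⁻ y, (if |F q.1 - y| ≤ r then (1 : ℝ≥0∞) else 0) *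
              (if |F q.2 - y| ≤ r then 1 else 0)
              ≤ ∫⁻ y, (closedBall (F q.1) r).indicator 1 y := by
                apply lintegral_mono
                intro y
                by_cases h1 : |F q.1 - y| ≤ r
                · have : y ∈ closedBall (F q.1) r := by
                    rw [mem_closedBall, Real.dist_eq, abs_sub_comm]; exact h1
                  rw [indicator_of_mem this]
                  simp only [h1, if_true, one_mul, Pi.one_apply]
                  split_ifs <;> simp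
                · simp [h1]
            _ = volume (closedBall (F q.1) r) := lintegral_indicator_one measurableSet_closedBall
        · have hz : ∀ y : ℝ, (if |F q.1 - y| ≤ r then (1 : ℝ≥0∞) else 0) *
              (if |F q.2 - y| ≤ r then 1 else 0) = 0 := by
            intro y
            by_cases h1 : |F q.1 - y| ≤ r
            · by_cases h2 : |F q.2 - y| ≤ r
              · exfalso
                apply hq
                have : F q.1 - F q.2 = (F q.1 - y) - (F q.2 - y) := by ring
                rw [this]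
                calc _ ≤ |F q.1 - y| + |F q.2 - y| := abs_sub _ _
                  _ ≤ 2 * r := by linarith
              · simp [h2]
            · simp [h1]
          simp only [hz, lintegral_zero]
          exact zero_le
    _ = (ENNReal.ofReal (2 * r))⁻¹ ^ 2 * (ENNReal.ofReal (2 * r) *
          (m.prod m) {q : ℝ × ℝ | |F q.1 - F q.2| ≤ 2 * r}) := by
        have hSm : MeasurableSet {q : ℝ × ℝ | |F q.1 - F q.2| ≤ 2 * r} := by
          apply measurableSet_le _ measurable_const
          fun_prop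
        rw [lintegral_const_mul' _ _ ht, lintegral_indicator_one hSm]
    _ ≤ (ENNReal.ofReal (2 * r))⁻¹ ^ 2 * (ENNReal.ofReal (2 * r) *
          (ENNReal.ofReal (2 * r) * ENNReal.ofReal (∫ ξ, ‖chf F A ξ‖ ^ 2))) := by
        gcongr
        exact energy_le hF hAf hI hr
    _ = ENNReal.ofReal (∫ ξ, ‖chf F A ξ‖ ^ 2) := by
        rw [← mul_assoc, ← mul_assoc, sq]
        have h1 : (ENNReal.ofReal (2 * r))⁻¹ * (ENNReal.ofReal (2 * r))⁻¹ * ENNReal.ofReal (2 * r) *
            ENNReal.ofReal (2 * r) = 1 := by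
          rw [mul_assoc (ENNReal.ofReal (2 * r))⁻¹, ENNReal.inv_mul_cancel h0 ht, mul_one,
            ENNReal.inv_mul_cancel h0 ht]
        rw [h1, one_mul]

end Pool.Agent.Work.MP_22f354_an
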