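import Mathlib

/-!
A compactly supported probability measure on the line whose characteristic function decays
faster than any power; infinite products and resampling of one coordinate.
-/

set_option autoImplicit false

namespace Pool.Agent.Work.MP_22f354_an

open Set Filter Topology MeasureTheory
open scoped NNReal ENNReal ContDiff FourierTransform

/-- clamping to `[-1, 1]` -/
def cl (t : ℝ) : ℝ := max (-1) (min 1 t)

lemma continuous_cl : Continuous cl := by unfold cl; fun_prop

lemma abs_cl_le (t : ℝ) : |cl t| ≤ 1 := by
  unfold cl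
  rw [abs_le]
  exact ⟨le_max_left _ _, max_le (by norm_num) (min_le_left _ _)⟩

lemma cl_zero : cl 0 = 0 := by unfold cl; norm_num

lemma cl_eq {t : ℝ} (ht : |t| ≤ 1) : cl t = t := by
  rw [abs_le] at ht
  unfold cl
  rw [min_eq_right ht.2, max_eq_right ht.1]

/-- a bump function -/
noncomputable def bmp : ContDiffBump (0 : ℝ) := ⟨1 / 2, 1, by norm_num, by norm_num⟩

/-- its normalisation -/
noncomputable def dens (t : ℝ) : ℝ := bmp.normed volume t

lemma dens_nonneg (t : ℝ) : 0 ≤ dens t := bmp.nonneg_normed t

lemma continuous_dens : Continuous dens := bmp.continuous_normed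

lemma integral_dens : ∫ t, dens t = 1 := bmp.integral_normed

lemma integrable_dens : Integrable dens := bmp.integrable_normed

lemma dens_eq_zero {t : ℝ} (ht : 1 < |t|) : dens t = 0 := by
  have h := bmp.support_normed_eq (μ := (volume : Measure ℝ))
  by_contra hcon
  have : t ∈ Function.support (bmp.normed volume) := hcon
  rw [h, Metric.mem_ball, dist_zero_right, Real.norm_eq_abs] at this
  have h2 : bmp.rOut = 1 := rfl
  linarith

/-- the probability measure with the bump density -/
noncomputable def mu0 : Measure ℝ := volume.withDensity (fun t => ENNReal.ofReal (dens t))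

instance : IsProbabilityMeasure mu0 := by
  constructor
  unfold mu0
  rw [withDensity_apply _ MeasurableSet.univ, Measure.restrict_univ,
    ← ofReal_integral_eq_lintegral_ofReal integrable_dens (Eventually.of_forall dens_nonneg),
    integral_dens, ENNReal.ofReal_one]

/-- characteristic function of the clamped variable -/
noncomputable def ch0 (s : ℝ) : ℂ := ∫ t, Complex.exp (Complex.I * s * cl t) ∂mu0

lemma ch0_eq (s : ℝ) : ch0 s = ∫ t, (dens t : ℂ) * Complex.exp (Complex.I * s * t) := by
  unfold ch0 mu0
  rw [integral_withDensity_eq_integral_toReal_smul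
    (by exact (continuous_dens.measurable).ennreal_ofReal) (by simp)]
  apply integral_congr_ae
  filter_upwards with t
  rw [ENNReal.toReal_ofReal (dens_nonneg t), Complex.real_smul]
  by_cases ht : |t| ≤ 1
  · rw [cl_eq ht]
  · push Not at ht
    rw [dens_eq_zero ht]
    simp

/-- the complex valued density -/
noncomputable def densC (t : ℝ) : ℂ := (dens t : ℂ)

lemma contDiff_densC : ContDiff ℝ ∞ densC := by
  unfold densC dens
  exact Complex.ofRealCLM.contDiff.comp bmp.contDiff_normed

lemma hasCompactSupport_densC : HasCompactSupport densC := by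
  have : HasCompactSupport dens := bmp.hasCompactSupport_normed
  exact this.comp_left (g := fun x : ℝ => (x : ℂ)) Complex.ofReal_zero

lemma integrable_iteratedDeriv (n : ℕ) : Integrable (iteratedDeriv n densC) := by
  apply Continuous.integrable_of_hasCompactSupport
  · exact contDiff_densC.continuous_iteratedDeriv n (by exact_mod_cast le_top)
  · have h := hasCompactSupport_densC.iteratedFDeriv (𝕜 := ℝ) n
    have h2 : iteratedDeriv n densC = fun x => (iteratedFDeriv ℝ n densC x) (fun _ => 1) := by
      funext x; rfl
    rw [h2]
    exact h.comp_left (g := fun (L : ContinuousMultilinearMap ℝ (fun _ : Fin n => ℝ) ℂ) =>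
      L (fun _ => 1)) (by simp)

/-- The characteristic function decays faster than any power. -/
theorem ch0_decay (K : ℕ) : ∃ C : ℝ, 0 < C ∧ ∀ s : ℝ, ‖ch0 s‖ * |s| ^ K ≤ C := by
  have hnn : 0 ≤ ∫ v, ‖iteratedDeriv K densC v‖ := integral_nonneg fun _ => norm_nonneg _
  refine ⟨(∫ v, ‖iteratedDeriv K densC v‖) + 1, by linarith, fun s => ?_⟩
  set x : ℝ := -s / (2 * Real.pi) with hx
  have hpi : (0 : ℝ) < 2 * Real.pi := by positivity
  have h1 : ch0 s = 𝓕 densC x := by
    rw [ch0_eq, Real.fourier_real_eq_integral_exp_smul]
    apply integral_congr_ae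
    filter_upwards with t
    rw [smul_eq_mul, mul_comm]
    unfold densC
    congr 2
    have : -2 * Real.pi * t * x = s * t := by
      rw [hx]; field_simp
    rw [this]
    push_cast
    ring
  have h2 : 𝓕 (iteratedDeriv K densC) x = (2 * Real.pi * Complex.I * x) ^ K • (𝓕 densC x) := by
    have h3 := Real.fourier_iteratedDeriv (f := densC) (N := ⊤) (n := K) contDiff_densC
      (fun n _ => integrable_iteratedDeriv n) le_top
    rw [h3]
  have h4 : ‖𝓕 (iteratedDeriv K densC) x‖ ≤ ∫ v, ‖iteratedDeriv K densC v‖ := by
    rw [Real.fourier_real_eq]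
    refine (norm_integral_le_integral_norm _).trans (le_of_eq ?_)
    simp_rw [Circle.norm_smul]
  rw [h2, norm_smul, norm_pow, ← h1] at h4
  have h5 : ‖(2 * Real.pi * Complex.I * x : ℂ)‖ = |s| := by
    rw [norm_mul, norm_mul, norm_mul, Complex.norm_I, Complex.norm_real, Complex.norm_real,
      Real.norm_eq_abs, Real.norm_eq_abs, Complex.norm_ofNat, abs_of_pos Real.pi_pos, mul_one, hx,
      abs_div, abs_neg, abs_of_pos hpi]
    field_simp
  rw [h5, mul_comm] at h4
  linarith

section update

variable {ι : Type*} [DecidableEq ι]

/-- the infinite product -/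
noncomputable def PP (ι : Type*) : Measure (ι → ℝ) := Measure.infinitePi (fun _ : ι => mu0)

instance : IsProbabilityMeasure (PP ι) := by unfold PP; infer_instance

lemma measurable_update_pair (κ : ι) :
    Measurable (fun p : (ι → ℝ) × ℝ => Function.update p.1 κ p.2) := by
  rw [measurable_pi_iff]
  intro i
  by_cases h : i = κ
  · subst h
    simp only [Function.update_self]
    exact measurable_snd
  · simp only [Function.update_of_ne h]
    exact (measurable_pi_apply i).comp measurable_fst

/-- Resampling one coordinate does not change the distribution. -/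
theorem map_update (κ : ι) :
    ((PP ι).prod mu0).map (fun p : (ι → ℝ) × ℝ => Function.update p.1 κ p.2) = PP ι := by
  unfold PP
  apply Measure.eq_infinitePi
  intro s t ht
  have hpi : MeasurableSet (Set.pi (s : Set ι) t) :=
    MeasurableSet.pi s.countable_toSet (fun i _ => ht i)
  rw [Measure.map_apply (measurable_update_pair κ) hpi]
  by_cases hκ : κ ∈ s
  · have h1 : (fun p : (ι → ℝ) × ℝ => Function.update p.1 κ p.2) ⁻¹' (Set.pi (s : Set ι) t) =
        (Set.pi ((s.erase κ : Finset ι) : Set ι) t) ×ˢ t κ := by
      ext p
      simp only [mem_preimage, Set.mem_pi, mem_prod, Finset.mem_coe, Finset.mem_erase]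
      constructor
      · intro h
        refine ⟨fun i hi => ?_, ?_⟩
        · have := h i hi.2
          rwa [Function.update_of_ne hi.1] at this
        · have := h κ hκ
          rwa [Function.update_self] at this
      · rintro ⟨h2, h3⟩ i hi
        by_cases hik : i = κ
        · subst hik
          rwa [Function.update_self]
        · rw [Function.update_of_ne hik]
          exact h2 i ⟨hik, hi⟩
    rw [h1, Measure.prod_prod, Measure.infinitePi_pi _ (fun i _ => ht i),
      ← Finset.prod_erase_mul s _ hκ]
  · have h1 : (fun p : (ι → ℝ) × ℝ => Function.update p.1 κ p.2) ⁻¹' (Set.pi (s : Set ι) t) =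
        (Set.pi (s : Set ι) t) ×ˢ univ := by
      ext p
      simp only [mem_preimage, Set.mem_pi, mem_prod, Finset.mem_coe, mem_univ, and_true]
      constructor
      · intro h i hi
        have := h i hi
        rwa [Function.update_of_ne (by rintro rfl; exact hκ hi)] at this
      · intro h i hi
        rw [Function.update_of_ne (by rintro rfl; exact hκ hi)]
        exact h i hi
    rw [h1, Measure.prod_prod, Measure.infinitePi_pi _ (fun i _ => ht i), measure_univ, mul_one]

/-- integrating out one coordinate -/
theorem norm_integral_coord_le (κ : ι) (R : (ι → ℝ) → ℂ) (hR : Measurable R)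
    (hR1 : ∀ a, ‖R a‖ ≤ 1) (hRκ : ∀ a t, R (Function.update a κ t) = R a) (c : ℝ) :
    ‖∫ a, R a * Complex.exp (Complex.I * c * cl (a κ)) ∂(PP ι)‖ ≤ ‖ch0 c‖ := by
  have hm : Measurable (fun a : ι → ℝ => R a * Complex.exp (Complex.I * c * cl (a κ))) := by
    have h1 : Measurable (fun a : ι → ℝ => cl (a κ)) :=
      continuous_cl.measurable.comp (measurable_pi_apply κ)
    have h2 : Measurable (fun a : ι → ℝ => ((cl (a κ) : ℝ) : ℂ)) :=
      Complex.continuous_ofReal.measurable.comp h1
    exact hR.mul (Complex.continuous_exp.measurable.comp (h2.const_mul _))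
  have h1 : ∫ a, R a * Complex.exp (Complex.I * c * cl (a κ)) ∂(PP ι) =
      ∫ p : (ι → ℝ) × ℝ, R p.1 * Complex.exp (Complex.I * c * cl p.2) ∂((PP ι).prod mu0) := by
    conv_lhs => rw [← map_update κ]
    rw [integral_map (measurable_update_pair κ).aemeasurable hm.aestronglyMeasurable]
    apply integral_congr_ae
    filter_upwards with p
    rw [hRκ, Function.update_self]
  rw [h1, integral_prod_mul (L := ℂ) R (fun t => Complex.exp (Complex.I * c * cl t)), norm_mul]
  have h2 : ‖∫ a, R a ∂(PP ι)‖ ≤ 1 := by
    have := norm_integral_le_of_norm_le_const (μ := PP ι) (C := 1) (Eventually.of_forall hR1)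
    simpa using this
  calc _ ≤ 1 * ‖ch0 c‖ := by
        gcongr
        exact le_rfl
    _ = _ := one_mul _

end update

end Pool.Agent.Work.MP_22f354_an
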