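import Pool.Agent.Work.MP_22f354_an.Ctx
import Pool.Agent.Work.MP_22f354_an.OneDim

/-!
The random Lipschitz function.
-/

set_option autoImplicit false

namespace Pool.Agent.Work.MP_22f354_an

open Set Filter Topology MeasureTheory
open scoped NNReal ENNReal

/-- tent function at the node `i / b^(j+1)`, of width `1 / b^(j+1)`; `κ = (j, i)` -/
noncomputable def tent (b : ℕ) (κ : ℕ × ℕ) : LipS where
  toFun := fun x => max 0 (1 - (b : ℝ) ^ (κ.1 + 1) *
    ‖x - (((κ.2 : ℝ) / (b : ℝ) ^ (κ.1 + 1) : ℝ) : UnitAddCircle)‖)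
  lip := by
    refine ⟨(b : ℝ≥0) ^ (κ.1 + 1), ?_⟩
    apply LipschitzWith.of_dist_le_mul
    intro x y
    rw [Real.dist_eq]
    have h1 : ∀ u v : ℝ, |max 0 u - max 0 v| ≤ |u - v| := fun u v => by
      have := abs_max_sub_max_le_abs 0 u v
      have := abs_max_sub_max_le_max 0 u 0 v
      simpa using this
    refine (h1 _ _).trans ?_
    have h2 : ∀ A u v : ℝ, 1 - A * u - (1 - A * v) = A * (v - u) := fun A u v => by ring
    rw [h2, abs_mul, abs_of_nonneg (by positivity : (0 : ℝ) ≤ (b : ℝ) ^ (κ.1 + 1))]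
    push_cast
    gcongr
    rw [abs_sub_comm]
    refine (abs_norm_sub_norm_le _ _).trans ?_
    rw [sub_sub_sub_cancel_right, dist_eq_norm]

/-- coefficients of the random series -/
noncomputable def cf (b : ℕ) (κ : ℕ × ℕ) : ℝ :=
  if κ.2 < b ^ (κ.1 + 1) then ((b : ℝ) ^ (4 * κ.1))⁻¹ else 0

/-- majorant -/
noncomputable def wt (b : ℕ) (κ : ℕ × ℕ) : ℝ := cf b κ * (1 + (b : ℝ) ^ (κ.1 + 1))

section
variable {b : ℕ}

lemma tent_apply (κ : ℕ × ℕ) (x : UnitAddCircle) : tent b κ x =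
    max 0 (1 - (b : ℝ) ^ (κ.1 + 1) *
    ‖x - (((κ.2 : ℝ) / (b : ℝ) ^ (κ.1 + 1) : ℝ) : UnitAddCircle)‖) := rfl

lemma tent_nonneg (κ : ℕ × ℕ) (x : UnitAddCircle) : 0 ≤ tent b κ x := le_max_left _ _

lemma tent_le_one (κ : ℕ × ℕ) (x : UnitAddCircle) : tent b κ x ≤ 1 := by
  rw [tent_apply]
  apply max_le zero_le_one
  have : 0 ≤ (b : ℝ) ^ (κ.1 + 1) *
    ‖x - (((κ.2 : ℝ) / (b : ℝ) ^ (κ.1 + 1) : ℝ) : UnitAddCircle)‖ := by positivity
  linarith

lemma abs_tent_le (κ : ℕ × ℕ) (x : UnitAddCircle) : |tent b κ x| ≤ 1 := by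
  rw [abs_of_nonneg (tent_nonneg κ x)]; exact tent_le_one κ x

lemma tent_sub_le (κ : ℕ × ℕ) (x y : UnitAddCircle) :
    |tent b κ x - tent b κ y| ≤ (b : ℝ) ^ (κ.1 + 1) * dist x y := by
  rw [tent_apply, tent_apply]
  have h1 : ∀ u v : ℝ, |max 0 u - max 0 v| ≤ |u - v| := fun u v => by
    have := abs_max_sub_max_le_max 0 u 0 v
    simpa using this
  refine (h1 _ _).trans ?_
  have h2 : ∀ A u v : ℝ, 1 - A * u - (1 - A * v) = A * (v - u) := fun A u v => by ring
  rw [h2, abs_mul, abs_of_nonneg (by positivity : (0 : ℝ) ≤ (b : ℝ) ^ (κ.1 + 1))]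
  gcongr
  rw [abs_sub_comm]
  refine (abs_norm_sub_norm_le _ _).trans ?_
  rw [sub_sub_sub_cancel_right, dist_eq_norm]

lemma cf_nonneg (κ : ℕ × ℕ) : 0 ≤ cf b κ := by
  unfold cf; split_ifs <;> positivity

lemma wt_nonneg (κ : ℕ × ℕ) : 0 ≤ wt b κ := by
  unfold wt
  have := cf_nonneg (b := b) κ
  positivity

lemma cf_le_wt (κ : ℕ × ℕ) : cf b κ ≤ wt b κ := by
  unfold wt
  have := cf_nonneg (b := b) κ
  have h2 : 0 ≤ (b : ℝ) ^ (κ.1 + 1) := by positivity
  nlinarith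

lemma cf_mul_le_wt (κ : ℕ × ℕ) : cf b κ * (b : ℝ) ^ (κ.1 + 1) ≤ wt b κ := by
  unfold wt
  have := cf_nonneg (b := b) κ
  nlinarith

lemma summable_wt (hb : 2 ≤ b) : Summable (wt b) := by
  have hbr : (2 : ℝ) ≤ b := by exact_mod_cast hb
  have hb0 : (0 : ℝ) < b := by linarith
  have hzero : ∀ j i : ℕ, i ∉ Finset.range (b ^ (j + 1)) → wt b (j, i) = 0 := by
    intro j i hi
    rw [Finset.mem_range] at hi
    unfold wt cf
    rw [if_neg hi, zero_mul]
  rw [summable_prod_of_nonneg wt_nonneg]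
  refine ⟨fun j => summable_of_ne_finset_zero (s := Finset.range (b ^ (j + 1))) (hzero j), ?_⟩
  have h1 : ∀ j : ℕ, ∑' i, wt b (j, i) ≤ 2 * (b : ℝ) ^ 2 * (((b : ℝ)⁻¹) ^ 2) ^ j := by
    intro j
    rw [tsum_eq_sum (s := Finset.range (b ^ (j + 1))) (fun i hi => hzero j i hi)]
    calc ∑ i ∈ Finset.range (b ^ (j + 1)), wt b (j, i)
        ≤ ∑ i ∈ Finset.range (b ^ (j + 1)), ((b : ℝ) ^ (4 * j))⁻¹ * (2 * (b : ℝ) ^ (j + 1)) := by
          refine Finset.sum_le_sum fun i hi => ?_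
          rw [Finset.mem_range] at hi
          unfold wt cf
          simp only
          rw [if_pos hi]
          gcongr
          have : (1 : ℝ) ≤ (b : ℝ) ^ (j + 1) := one_le_pow₀ (by linarith)
          linarith
      _ = 2 * (b : ℝ) ^ 2 * (((b : ℝ)⁻¹) ^ 2) ^ j := by
          rw [Finset.sum_const, Finset.card_range, nsmul_eq_mul]
          push_cast
          rw [← pow_mul, inv_pow]
          have e1 : (b : ℝ) ^ (4 * j) = (b : ℝ) ^ (2 * j) * (b : ℝ) ^ j * (b : ℝ) ^ j := by ring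
          rw [e1]
          field_simp
          ring
  refine Summable.of_nonneg_of_le (fun j => tsum_nonneg fun i => wt_nonneg _) h1 ?_
  apply Summable.mul_left
  apply summable_geometric_of_lt_one (by positivity)
  have : (b : ℝ)⁻¹ ≤ 1 / 2 := by
    rw [inv_le_comm₀ hb0 (by norm_num)]
    linarith
  have h0 : 0 ≤ (b : ℝ)⁻¹ := by positivity
  nlinarith

/-- the general series -/
noncomputable def ser (b : ℕ) (s : ℕ × ℕ → ℝ) (x : UnitAddCircle) : ℝ :=
  ∑' κ, s κ * (cf b κ * tent b κ x)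

lemma ser_term_le {s : ℕ × ℕ → ℝ} {A : ℝ} (hs : ∀ κ, |s κ| ≤ A) (x : UnitAddCircle)
    (κ : ℕ × ℕ) : ‖s κ * (cf b κ * tent b κ x)‖ ≤ A * wt b κ := by
  have hA : 0 ≤ A := (abs_nonneg _).trans (hs κ)
  rw [norm_mul, norm_mul, Real.norm_eq_abs, Real.norm_eq_abs, Real.norm_eq_abs]
  have h1 : |cf b κ| * |tent b κ x| ≤ wt b κ := by
    rw [abs_of_nonneg (cf_nonneg κ)]
    calc cf b κ * |tent b κ x| ≤ cf b κ * 1 := by
          gcongr
          · exact cf_nonneg κ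
          · exact abs_tent_le κ x
      _ ≤ wt b κ := by rw [mul_one]; exact cf_le_wt κ
  have := hs κ
  have := wt_nonneg (b := b) κ
  gcongr

lemma summable_ser (hb : 2 ≤ b) {s : ℕ × ℕ → ℝ} {A : ℝ} (hs : ∀ κ, |s κ| ≤ A)
    (x : UnitAddCircle) : Summable (fun κ => s κ * (cf b κ * tent b κ x)) :=
  Summable.of_norm_bounded ((summable_wt hb).mul_left A) (ser_term_le hs x)

lemma summable_abs_wt (hb : 2 ≤ b) {s : ℕ × ℕ → ℝ} {A : ℝ} (hs : ∀ κ, |s κ| ≤ A) :
    Summable (fun κ => |s κ| * wt b κ) := by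
  refine Summable.of_nonneg_of_le (fun κ => mul_nonneg (abs_nonneg _) (wt_nonneg κ))
    (fun κ => ?_) ((summable_wt hb).mul_left A)
  exact mul_le_mul_of_nonneg_right (hs κ) (wt_nonneg κ)

lemma summable_abs_cf (hb : 2 ≤ b) {s : ℕ × ℕ → ℝ} {A : ℝ} (hs : ∀ κ, |s κ| ≤ A) :
    Summable (fun κ => |s κ| * cf b κ) := by
  refine Summable.of_nonneg_of_le (fun κ => mul_nonneg (abs_nonneg _) (cf_nonneg κ))
    (fun κ => ?_) (summable_abs_wt hb hs)
  exact mul_le_mul_of_nonneg_left (cf_le_wt κ) (abs_nonneg _)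

lemma summable_abs_cfB (hb : 2 ≤ b) {s : ℕ × ℕ → ℝ} {A : ℝ} (hs : ∀ κ, |s κ| ≤ A) :
    Summable (fun κ => |s κ| * (cf b κ * (b : ℝ) ^ (κ.1 + 1))) := by
  refine Summable.of_nonneg_of_le (fun κ => mul_nonneg (abs_nonneg _)
    (mul_nonneg (cf_nonneg κ) (by positivity)))
    (fun κ => ?_) (summable_abs_wt hb hs)
  exact mul_le_mul_of_nonneg_left (cf_mul_le_wt κ) (abs_nonneg _)

lemma abs_ser_le (hb : 2 ≤ b) {s : ℕ × ℕ → ℝ} {A : ℝ} (hs : ∀ κ, |s κ| ≤ A)
    (x : UnitAddCircle) : |ser b s x| ≤ ∑' κ, |s κ| * cf b κ := by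
  unfold ser
  rw [← Real.norm_eq_abs]
  apply tsum_of_norm_bounded (summable_abs_cf hb hs).hasSum
  intro κ
  rw [norm_mul, norm_mul, Real.norm_eq_abs, Real.norm_eq_abs, Real.norm_eq_abs,
    abs_of_nonneg (cf_nonneg κ)]
  gcongr
  calc cf b κ * |tent b κ x| ≤ cf b κ * 1 := by
        gcongr
        · exact cf_nonneg κ
        · exact abs_tent_le κ x
    _ = cf b κ := mul_one _

lemma ser_sub_le (hb : 2 ≤ b) {s : ℕ × ℕ → ℝ} {A : ℝ} (hs : ∀ κ, |s κ| ≤ A)
    (x y : UnitAddCircle) : |ser b s x - ser b s y| ≤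
      (∑' κ, |s κ| * (cf b κ * (b : ℝ) ^ (κ.1 + 1))) * dist x y := by
  unfold ser
  rw [← (summable_ser hb hs x).tsum_sub (summable_ser hb hs y), ← Real.norm_eq_abs,
    ← tsum_mul_right]
  apply tsum_of_norm_bounded ((summable_abs_cfB hb hs).mul_right (dist x y)).hasSum
  intro κ
  rw [← mul_sub, ← mul_sub, norm_mul, norm_mul, Real.norm_eq_abs, Real.norm_eq_abs,
    Real.norm_eq_abs, abs_of_nonneg (cf_nonneg κ)]
  calc |s κ| * (cf b κ * |tent b κ x - tent b κ y|)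
      ≤ |s κ| * (cf b κ * ((b : ℝ) ^ (κ.1 + 1) * dist x y)) := by
        gcongr
        · exact cf_nonneg κ
        · exact tent_sub_le κ x y
    _ = _ := by ring

/-- the random Lipschitz function -/
noncomputable def gA (b : ℕ) (a : ℕ × ℕ → ℝ) : LipS where
  toFun := fun x => if 2 ≤ b then ser b (fun κ => cl (a κ)) x else 0
  lip := by
    by_cases hb : 2 ≤ b
    · simp only [if_pos hb]
      refine ⟨Real.toNNReal (∑' κ, |cl (a κ)| * (cf b κ * (b : ℝ) ^ (κ.1 + 1))), ?_⟩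
      apply LipschitzWith.of_dist_le_mul
      intro x y
      rw [Real.dist_eq, Real.coe_toNNReal]
      · exact ser_sub_le hb (fun κ => abs_cl_le (a κ)) x y
      · exact tsum_nonneg fun κ => mul_nonneg (abs_nonneg _)
          (mul_nonneg (cf_nonneg κ) (by positivity))
    · simp only [if_neg hb]
      exact ⟨0, LipschitzWith.const 0⟩

lemma gA_apply (hb : 2 ≤ b) (a : ℕ × ℕ → ℝ) (x : UnitAddCircle) :
    gA b a x = ser b (fun κ => cl (a κ)) x := by
  show (if 2 ≤ b then ser b (fun κ => cl (a κ)) x else 0) = _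
  rw [if_pos hb]

lemma norm_gA_sub_le (hb : 2 ≤ b) (a a' : ℕ × ℕ → ℝ) :
    ‖gA b a - gA b a'‖ ≤ ∑' κ, |cl (a κ) - cl (a' κ)| * wt b κ := by
  have hs : ∀ κ, |cl (a κ) - cl (a' κ)| ≤ 2 := by
    intro κ
    refine (abs_sub _ _).trans ?_
    have := abs_cl_le (a κ)
    have := abs_cl_le (a' κ)
    linarith
  have h1 : ∀ x, (gA b a - gA b a') x = ser b (fun κ => cl (a κ) - cl (a' κ)) x := by
    intro x
    rw [LipS.sub_apply, gA_apply hb, gA_apply hb]
    unfold ser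
    rw [← (summable_ser hb (fun κ => abs_cl_le (a κ)) x).tsum_sub
      (summable_ser hb (fun κ => abs_cl_le (a' κ)) x)]
    congr 1
    funext κ
    ring
  have h2 := LipS.norm_le (g := gA b a - gA b a')
    (A := ∑' κ, |cl (a κ) - cl (a' κ)| * cf b κ)
    (L := ∑' κ, |cl (a κ) - cl (a' κ)| * (cf b κ * (b : ℝ) ^ (κ.1 + 1)))
    (fun x => by rw [h1]; exact abs_ser_le hb hs x)
    (tsum_nonneg fun κ => mul_nonneg (abs_nonneg _) (mul_nonneg (cf_nonneg κ) (by positivity)))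
    (fun x y => by rw [h1, h1]; exact ser_sub_le hb hs x y)
  refine h2.trans (le_of_eq ?_)
  rw [← (summable_abs_cf hb hs).tsum_add (summable_abs_cfB hb hs)]
  congr 1
  funext κ
  unfold wt
  ring

theorem continuous_gA (hb : 2 ≤ b) : Continuous (gA b) := by
  rw [continuous_iff_continuousAt]
  intro a0
  rw [ContinuousAt, tendsto_iff_norm_sub_tendsto_zero]
  have hcont : Continuous (fun a : ℕ × ℕ → ℝ => ∑' κ, |cl (a κ) - cl (a0 κ)| * wt b κ) := by
    refine continuous_tsum ?_ ((summable_wt hb).mul_left 2) ?_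
    · intro κ
      have := continuous_cl
      fun_prop
    · intro κ a
      rw [norm_mul, Real.norm_eq_abs, Real.norm_eq_abs, abs_abs, abs_of_nonneg (wt_nonneg κ)]
      have h1 : |cl (a κ) - cl (a0 κ)| ≤ 2 := by
        refine (abs_sub _ _).trans ?_
        have := abs_cl_le (a κ)
        have := abs_cl_le (a0 κ)
        linarith
      exact mul_le_mul_of_nonneg_right h1 (wt_nonneg κ)
  have h0 : Tendsto (fun a : ℕ × ℕ → ℝ => ∑' κ, |cl (a κ) - cl (a0 κ)| * wt b κ) (𝓝 a0) (𝓝 0) := by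
    have := hcont.tendsto a0
    simpa using this
  exact squeeze_zero (fun a => norm_nonneg _) (fun a => norm_gA_sub_le hb a a0) h0

/-- dependence on one coordinate -/
theorem gA_update (hb : 2 ≤ b) (a : ℕ × ℕ → ℝ) (κ : ℕ × ℕ) :
    gA b a = gA b (Function.update a κ 0) + (cl (a κ) * cf b κ) • tent b κ := by
  apply LipS.ext
  funext x
  show gA b a x = (gA b (Function.update a κ 0) + (cl (a κ) * cf b κ) • tent b κ) x
  rw [LipS.add_apply, LipS.smul_apply, gA_apply hb, gA_apply hb]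
  unfold ser
  rw [(summable_ser hb (fun κ => abs_cl_le (a κ)) x).tsum_eq_add_tsum_ite κ]
  rw [add_comm, mul_assoc]
  congr 1
  congr 1
  funext κ'
  by_cases h : κ' = κ
  · subst h
    simp only [if_true, Function.update_self, cl_zero, zero_mul]
  · simp only [if_neg h, Function.update_of_ne h]

end

end Pool.Agent.Work.MP_22f354_an
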